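import Pool.Agent.Helper960.Cap.Base

open MeasureTheory Filter Topology Set
open scoped ContDiff ENNReal

namespace Pool.Agent.Helper960.Cap.A1

open Pool.Agent.Helper960.Cap

theorem pd_ofReal_aux (i : Fin 5) (f : E → ℝ) (f' : E →L[ℝ] ℝ) (x : E) (h : HasFDerivAt f f' x) :
    pd i (fun x => ((f x : ℝ) : ℂ)) x = ((f' (EuclideanSpace.single i 1) : ℝ) : ℂ) := by
  have h1 : HasFDerivAt (fun x => ((f x : ℝ) : ℂ)) (Complex.ofRealCLM.comp f') x :=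
    Complex.ofRealCLM.hasFDerivAt.comp x h
  unfold pd
  rw [h1.fderiv]
  rfl

theorem hasFDerivAt_pow_aux (e : ℝ) (he : 0 < e) (a : ℝ) (x : E) :
    HasFDerivAt (fun x : E => (‖x‖ ^ 2 + e ^ 2) ^ a)
      ((a * (‖x‖ ^ 2 + e ^ 2) ^ (a - 1)) • ((2:ℝ) • (innerSL ℝ x))) x := by
  have h0 : HasFDerivAt (fun x : E => ‖x‖ ^ 2 + e ^ 2) ((2:ℝ) • (innerSL ℝ x)) x := by
    have h1 := (hasStrictFDerivAt_norm_sq (F := E) x).hasFDerivAt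
    have h2 := h1.add_const (e ^ 2)
    refine h2.congr_fderiv ?_
    ext y
    simp [two_mul, nsmul_eq_mul]
  have hpos : 0 < ‖x‖ ^ 2 + e ^ 2 := by positivity
  exact h0.rpow_const (Or.inl hpos.ne')

theorem single_apply_aux (x : E) (i : Fin 5) :
    (innerSL ℝ x) (EuclideanSpace.single i 1) = x i := by
  rw [innerSL_apply_apply, real_inner_comm]
  simp [EuclideanSpace.inner_single_left]

theorem lap_reg (e : ℝ) (he : 0 < e) (x : E) :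
    lap (fun x => (((‖x‖ ^ 2 + e ^ 2) ^ (-(3 / 2) : ℝ) : ℝ) : ℂ)) x =
      ((-15 * e ^ 2 * (‖x‖ ^ 2 + e ^ 2) ^ (-(7 / 2) : ℝ) : ℝ) : ℂ) := by
  have hfirst : ∀ i : Fin 5, pd i (fun x : E => (((‖x‖ ^ 2 + e ^ 2) ^ (-(3 / 2) : ℝ) : ℝ) : ℂ)) =
      fun x : E => (((-3) * (‖x‖ ^ 2 + e ^ 2) ^ (-(5 / 2) : ℝ) * x i : ℝ) : ℂ) := by
    intro i
    funext y
    rw [pd_ofReal_aux i _ _ y (hasFDerivAt_pow_aux e he (-(3/2)) y)]
    have h2 : (-(3/2) - 1 : ℝ) = -(5/2) := by norm_num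
    simp only [smul_apply, smul_eq_mul, single_apply_aux, h2]
    congr 1
    ring
  have hsecond : ∀ i : Fin 5, pd i (fun x : E => (((-3) * (‖x‖ ^ 2 + e ^ 2) ^ (-(5 / 2) : ℝ) * x i : ℝ) : ℂ)) x =
      (((-3) * (‖x‖ ^ 2 + e ^ 2) ^ (-(5 / 2) : ℝ) + 15 * (x i) ^ 2 * (‖x‖ ^ 2 + e ^ 2) ^ (-(7 / 2) : ℝ) : ℝ) : ℂ) := by
    intro i
    have h1 := (hasFDerivAt_pow_aux e he (-(5/2)) x).const_mul (-3)
    have h3 : HasFDerivAt (fun x : E => x i) (EuclideanSpace.proj i : E →L[ℝ] ℝ) x :=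
      (EuclideanSpace.proj i : E →L[ℝ] ℝ).hasFDerivAt
    have h4 := h1.mul h3
    have h5 := pd_ofReal_aux i _ _ x h4
    have h2 : (-(5/2) - 1 : ℝ) = -(7/2) := by norm_num
    rw [show (fun x : E => (((-3) * (‖x‖ ^ 2 + e ^ 2) ^ (-(5 / 2) : ℝ) * x i : ℝ) : ℂ)) =
      (fun x : E => (((((fun x : E => (-3) * (‖x‖ ^ 2 + e ^ 2) ^ (-(5 / 2) : ℝ)) * fun x : E => x i : E → ℝ)) x : ℝ) : ℂ)) from rfl]
    rw [h5]
    congr 1
    simp only [add_apply, smul_apply, smul_eq_mul,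
      single_apply_aux, h2]
    have h6 : (EuclideanSpace.proj i : E →L[ℝ] ℝ) (EuclideanSpace.single i 1) = 1 := by
      simp
    rw [h6]
    ring
  unfold lap
  have h7 : ∑ i : Fin 5, pd i (pd i (fun x : E => (((‖x‖ ^ 2 + e ^ 2) ^ (-(3 / 2) : ℝ) : ℝ) : ℂ))) x =
      ∑ i : Fin 5, (((-3) * (‖x‖ ^ 2 + e ^ 2) ^ (-(5 / 2) : ℝ) + 15 * (x i) ^ 2 * (‖x‖ ^ 2 + e ^ 2) ^ (-(7 / 2) : ℝ) : ℝ) : ℂ) := by
    refine Finset.sum_congr rfl fun i _ => ?_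
    rw [hfirst i, hsecond i]
  rw [h7, ← Complex.ofReal_sum]
  congr 1
  have hpos : 0 < ‖x‖ ^ 2 + e ^ 2 := by positivity
  have h8 : (‖x‖ ^ 2 + e ^ 2) ^ (-(5 / 2) : ℝ) = (‖x‖ ^ 2 + e ^ 2) ^ (-(7 / 2) : ℝ) * (‖x‖ ^ 2 + e ^ 2) := by
    rw [← Real.rpow_add_one hpos.ne']; norm_num
  have h9 : ‖x‖ ^ 2 = ∑ i : Fin 5, (x i) ^ 2 := by
    rw [EuclideanSpace.real_norm_sq_eq]
  rw [Finset.sum_add_distrib, Finset.sum_const, Finset.card_univ, Fintype.card_fin, h8,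
    ← Finset.sum_mul, ← Finset.mul_sum, ← h9]
  simp only [nsmul_eq_mul]
  push_cast
  ring


end Pool.Agent.Helper960.Cap.A1
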