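import Pool.Agent.Helper960.Cap.Base

open MeasureTheory Filter Topology Set
open scoped ContDiff ENNReal

namespace Pool.Agent.Helper960.Cap.A2

open Pool.Agent.Helper960.Cap

theorem pd_contDiff (i : Fin 5) (f : E → ℂ) (hf : ContDiff ℝ ∞ f) : ContDiff ℝ ∞ (pd i f) := by
  unfold pd
  exact (hf.fderiv_right (m := ∞) (by simp)).clm_apply contDiff_const

theorem pd_compact (i : Fin 5) (f : E → ℂ) (hf : HasCompactSupport f) :
    HasCompactSupport (pd i f) := by
  unfold pd
  exact hf.fderiv_apply ℝ _

theorem pd_swap (i : Fin 5) (f g : E → ℂ) (hf : ContDiff ℝ ∞ f) (hg : ContDiff ℝ ∞ g)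
    (hc : HasCompactSupport g) :
    ∫ x, f x * pd i g x = - ∫ x, pd i f x * g x := by
  unfold pd
  apply integral_mul_fderiv_eq_neg_fderiv_mul_of_integrable
  · exact (((pd_contDiff i f hf).continuous).mul hg.continuous).integrable_of_hasCompactSupport
      (hc.mul_left)
  · exact ((hf.continuous).mul (pd_contDiff i g hg).continuous).integrable_of_hasCompactSupport
      ((pd_compact i g hc).mul_left)
  · exact ((hf.continuous).mul hg.continuous).integrable_of_hasCompactSupport
      (hc.mul_left)
  · intro x _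
    exact (hf.differentiable (by simp)) x
  · intro x _
    exact (hg.differentiable (by simp)) x

theorem pd_swap' (i : Fin 5) (f g : E → ℂ) (hf : ContDiff ℝ ∞ f) (hg : ContDiff ℝ ∞ g)
    (hc : HasCompactSupport g) :
    ∫ x, f x * pd i (pd i g) x = ∫ x, pd i (pd i f) x * g x := by
  rw [pd_swap i f (pd i g) hf (pd_contDiff i g hg) (pd_compact i g hc),
    pd_swap i (pd i f) g (pd_contDiff i f hf) hg hc, neg_neg]

/-- Green's formula -/
theorem green (h φ : E → ℂ) (hh : ContDiff ℝ ∞ h) (hφ : ContDiff ℝ ∞ φ)
    (hc : HasCompactSupport φ) : ∫ x, h x * lap φ x = ∫ x, lap h x * φ x := by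
  unfold lap
  simp only [Finset.mul_sum, Finset.sum_mul]
  rw [integral_finset_sum, integral_finset_sum]
  · exact Finset.sum_congr rfl fun i _ => pd_swap' i h φ hh hφ hc
  · intro i _
    exact (((pd_contDiff i _ (pd_contDiff i h hh)).continuous).mul
      hφ.continuous).integrable_of_hasCompactSupport (hc.mul_left)
  · intro i _
    exact ((hh.continuous).mul
      (pd_contDiff i _ (pd_contDiff i φ hφ)).continuous).integrable_of_hasCompactSupport
      ((pd_compact i _ (pd_compact i φ hc)).mul_left)


end Pool.Agent.Helper960.Cap.A2
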