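import Pool.Agent.Helper960.Cap.Base

open MeasureTheory Filter Topology Set
open scoped ContDiff ENNReal

namespace Pool.Agent.Helper960.Cap.A3

open Pool.Agent.Helper960.Cap

theorem locInt_inv_cube : LocallyIntegrable (fun x : E => (‖x‖ ^ 3)⁻¹) := by
  rw [MeasureTheory.locallyIntegrable_iff]
  intro K hK
  obtain ⟨r, hr⟩ := hK.isBounded.subset_ball 0
  refine IntegrableOn.mono_set ?_ hr
  rw [integrableOn_fun_norm_addHaar (μ := (volume : Measure E)) (f := fun y : ℝ => (y ^ 3)⁻¹)]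
  have h1 : IntegrableOn (fun y : ℝ => y) (Ioo 0 r) volume :=
    (continuous_id.integrableOn_Icc (a := 0) (b := r)).mono_set Ioo_subset_Icc_self
  refine h1.congr_fun ?_ measurableSet_Ioo
  intro y hy
  have hy0 : y ≠ 0 := hy.1.ne'
  have hd : Module.finrank ℝ E - 1 = 4 := by
    rw [finrank_euclideanSpace_fin]
  show y = y ^ (Module.finrank ℝ E - 1) • (y ^ 3)⁻¹
  rw [hd, smul_eq_mul]
  field_simp

theorem integrable_reg : Integrable (fun x : E => (‖x‖ ^ 2 + 1) ^ (-(7 / 2) : ℝ)) := by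
  have h := integrable_rpow_neg_one_add_norm_sq (E := E) (μ := volume) (r := 7) (by
    rw [finrank_euclideanSpace_fin]; norm_num)
  refine h.congr (Filter.Eventually.of_forall ?_)
  intro x
  show ((1 : ℝ) + ‖x‖ ^ 2) ^ (-7 / 2 : ℝ) = (‖x‖ ^ 2 + 1) ^ (-(7 / 2) : ℝ)
  rw [add_comm]
  norm_num

theorem integral_reg_pos : 0 < ∫ x : E, (‖x‖ ^ 2 + 1) ^ (-(7 / 2) : ℝ) := by
  rw [integral_pos_iff_support_of_nonneg ?_ integrable_reg]
  · have : Function.support (fun x : E => (‖x‖ ^ 2 + 1) ^ (-(7 / 2) : ℝ)) = univ := by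
      ext x
      simp only [Function.mem_support, mem_univ, iff_true]
      positivity
    rw [this]
    exact Measure.measure_univ_pos.2 (NeZero.ne _)
  · intro x
    show 0 ≤ (‖x‖ ^ 2 + 1) ^ (-(7 / 2) : ℝ)
    positivity


end Pool.Agent.Helper960.Cap.A3
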