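import Pool.Agent.Helper960.Cap.Base

open MeasureTheory Filter Topology Set
open scoped ContDiff ENNReal

namespace Pool.Agent.Helper960.Cap.A4

open Pool.Agent.Helper960.Cap

theorem aux_pd_smooth (i : Fin 5) (f : E → ℂ) (hf : ContDiff ℝ ∞ f) : ContDiff ℝ ∞ (pd i f) := by
  have h1 : ContDiff ℝ ∞ (fderiv ℝ f) := hf.fderiv_right (m := ∞) (by simp)
  exact h1.clm_apply contDiff_const

theorem aux_pd_supp (i : Fin 5) (f : E → ℂ) (hf : HasCompactSupport f) :
    HasCompactSupport (pd i f) :=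
  hf.fderiv_apply ℝ _

theorem aux_lap_cont (f : E → ℂ) (hf : ContDiff ℝ ∞ f) : Continuous (lap f) := by
  apply continuous_finsetSum
  intro i _
  exact (aux_pd_smooth i _ (aux_pd_smooth i f hf)).continuous

theorem aux_lap_supp (f : E → ℂ) (hf : HasCompactSupport f) : HasCompactSupport (lap f) := by
  rw [hasCompactSupport_iff_eventuallyEq]
  have h1 : ∀ i : Fin 5, pd i (pd i f) =ᶠ[coclosedCompact E] 0 := by
    intro i
    exact hasCompactSupport_iff_eventuallyEq.1 (aux_pd_supp i _ (aux_pd_supp i f hf))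
  have h2 : ∀ᶠ x in coclosedCompact E, ∀ i : Fin 5, pd i (pd i f) x = 0 := by
    rw [eventually_all]
    exact h1
  filter_upwards [h2] with x hx
  simp [lap, hx]

theorem exists_fund
    (lap_reg : ∀ (e : ℝ) (he : 0 < e) (x : E),
      lap (fun x => (((‖x‖ ^ 2 + e ^ 2) ^ (-(3 / 2) : ℝ) : ℝ) : ℂ)) x =
      ((-15 * e ^ 2 * (‖x‖ ^ 2 + e ^ 2) ^ (-(7 / 2) : ℝ) : ℝ) : ℂ))
    (green : ∀ (h φ : E → ℂ) (hh : ContDiff ℝ ∞ h) (hφ : ContDiff ℝ ∞ φ)
      (hc : HasCompactSupport φ), ∫ x, h x * lap φ x = ∫ x, lap h x * φ x)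
    (locInt_inv_cube : LocallyIntegrable (fun x : E => (‖x‖ ^ 3)⁻¹))
    (integrable_reg : Integrable (fun x : E => (‖x‖ ^ 2 + 1) ^ (-(7 / 2) : ℝ)))
    (integral_reg_pos : 0 < ∫ x : E, (‖x‖ ^ 2 + 1) ^ (-(7 / 2) : ℝ)) :
    ∃ Φ : E → ℂ, IsFund Φ := by
  obtain ⟨C0, hC0⟩ : ∃ C0 : ℝ, C0 = ∫ x : E, (‖x‖ ^ 2 + 1) ^ (-(7 / 2) : ℝ) := ⟨_, rfl⟩
  rw [← hC0] at integral_reg_pos
  -- the limit identity
  have key : ∀ φ : E → ℂ, ContDiff ℝ ∞ φ → HasCompactSupport φ →
      ∫ x, (((‖x‖ ^ 3)⁻¹ : ℝ) : ℂ) * lap φ x = -15 * C0 * φ 0 := by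
    intro φ hφ hc
    have hseq : Tendsto (fun n : ℕ => 1 / ((n : ℝ) + 1)) atTop (𝓝 0) :=
      tendsto_one_div_add_atTop_nhds_zero_nat
    have hpos : ∀ n : ℕ, 0 < 1 / ((n : ℝ) + 1) := fun n => by positivity
    -- equality
    have heq : ∀ e : ℝ, 0 < e → ∫ x, (((‖x‖ ^ 2 + e ^ 2) ^ (-(3 / 2) : ℝ) : ℝ) : ℂ) * lap φ x =
        ∫ y : E, ((-15 * (‖y‖ ^ 2 + 1) ^ (-(7 / 2) : ℝ) : ℝ) : ℂ) * φ (e • y) := by
      intro e he
      have hsm : ContDiff ℝ ∞ (fun x : E => (((‖x‖ ^ 2 + e ^ 2) ^ (-(3 / 2) : ℝ) : ℝ) : ℂ)) := by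
        apply Complex.ofRealCLM.contDiff.comp
        apply ContDiff.rpow_const_of_ne
        · exact (contDiff_norm_sq ℝ).add contDiff_const
        · intro x
          positivity
      rw [green _ φ hsm hφ hc]
      have e1 : ∫ x, lap (fun x => (((‖x‖ ^ 2 + e ^ 2) ^ (-(3 / 2) : ℝ) : ℝ) : ℂ)) x * φ x =
          ∫ x : E, ((-15 * e ^ 2 * (‖x‖ ^ 2 + e ^ 2) ^ (-(7 / 2) : ℝ) : ℝ) : ℂ) * φ x := by
        apply integral_congr_ae
        filter_upwards with x
        rw [lap_reg e he]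
      rw [e1]
      have h2 := Measure.integral_comp_smul (volume : Measure E)
        (fun x : E => ((-15 * e ^ 2 * (‖x‖ ^ 2 + e ^ 2) ^ (-(7 / 2) : ℝ) : ℝ) : ℂ) * φ x) e
      have h3 : Module.finrank ℝ E = 5 := by simp [E]
      rw [h3, abs_of_pos (by positivity)] at h2
      have h4 : ∫ x : E, ((-15 * e ^ 2 * (‖x‖ ^ 2 + e ^ 2) ^ (-(7 / 2) : ℝ) : ℝ) : ℂ) * φ x =
          (e ^ 5 : ℝ) • ∫ x : E, ((-15 * e ^ 2 * (‖e • x‖ ^ 2 + e ^ 2) ^ (-(7 / 2) : ℝ) : ℝ) : ℂ) *
            φ (e • x) := by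
        rw [h2, smul_smul, mul_inv_cancel₀ (by positivity), one_smul]
      rw [h4, ← integral_smul]
      apply integral_congr_ae
      filter_upwards with y
      have h5 : (‖e • y‖ ^ 2 + e ^ 2) ^ (-(7 / 2) : ℝ) = (e ^ 7)⁻¹ *
          (‖y‖ ^ 2 + 1) ^ (-(7 / 2) : ℝ) := by
        rw [norm_smul, Real.norm_eq_abs, mul_pow, sq_abs,
          show e ^ 2 * ‖y‖ ^ 2 + e ^ 2 = e ^ 2 * (‖y‖ ^ 2 + 1) by ring,
          Real.mul_rpow (by positivity) (by positivity)]
        congr 1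
        rw [Real.rpow_neg (by positivity), ← Real.rpow_natCast e 2, ← Real.rpow_mul he.le]
        norm_num
      rw [h5, Complex.real_smul]
      push_cast
      have he' : (e : ℂ) ≠ 0 := by exact_mod_cast he.ne'
      field_simp
    -- left limit
    have hleft : Tendsto (fun n : ℕ => ∫ x, (((‖x‖ ^ 2 + (1 / ((n : ℝ) + 1)) ^ 2) ^ (-(3 / 2) : ℝ) : ℝ) : ℂ) * lap φ x)
        atTop (𝓝 (∫ x, (((‖x‖ ^ 3)⁻¹ : ℝ) : ℂ) * lap φ x)) := by
      apply tendsto_integral_of_dominated_convergence (fun x => (‖x‖ ^ 3)⁻¹ * ‖lap φ x‖)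
      · intro n
        apply Continuous.aestronglyMeasurable
        apply Continuous.mul _ (aux_lap_cont φ hφ)
        apply Complex.continuous_ofReal.comp
        apply Continuous.rpow_const (by fun_prop)
        intro x
        left
        have := hpos n
        positivity
      · have h1 := locInt_inv_cube.integrable_smul_right_of_hasCompactSupport
          (aux_lap_cont φ hφ).norm (aux_lap_supp φ hc).norm
        exact h1
      · intro n
        have h0 : ∀ᵐ x : E, x ≠ 0 := by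
          rw [ae_iff]
          simp
        filter_upwards [h0] with x hx
        rw [norm_mul, Complex.norm_real, Real.norm_eq_abs]
        apply mul_le_mul_of_nonneg_right _ (norm_nonneg _)
        have hx' : 0 < ‖x‖ := norm_pos_iff.2 hx
        rw [abs_of_nonneg (by positivity)]
        have h2 : (‖x‖ ^ 3)⁻¹ = (‖x‖ ^ 2) ^ (-(3 / 2) : ℝ) := by
          rw [Real.rpow_neg (by positivity), ← Real.rpow_natCast ‖x‖ 2,
            ← Real.rpow_mul hx'.le]
          norm_num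
        rw [h2]
        apply Real.rpow_le_rpow_of_nonpos (by positivity) _ (by norm_num)
        have := sq_nonneg (1 / ((n : ℝ) + 1))
        linarith
      · have h0 : ∀ᵐ x : E, x ≠ 0 := by
          rw [ae_iff]
          simp
        filter_upwards [h0] with x hx
        have hx' : 0 < ‖x‖ := norm_pos_iff.2 hx
        apply Tendsto.mul_const
        apply (Complex.continuous_ofReal.tendsto _).comp
        have h2 : (‖x‖ ^ 3)⁻¹ = (‖x‖ ^ 2 + 0 ^ 2) ^ (-(3 / 2) : ℝ) := by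
          rw [show ‖x‖ ^ 2 + 0 ^ 2 = ‖x‖ ^ 2 by ring, Real.rpow_neg (by positivity),
            ← Real.rpow_natCast ‖x‖ 2, ← Real.rpow_mul hx'.le]
          norm_num
        rw [h2]
        apply Tendsto.rpow_const
        · exact tendsto_const_nhds.add (hseq.pow 2)
        · left
          positivity
    have hright : Tendsto (fun n : ℕ => ∫ y : E, ((-15 * (‖y‖ ^ 2 + 1) ^ (-(7 / 2) : ℝ) : ℝ) : ℂ) *
        φ ((1 / ((n : ℝ) + 1)) • y)) atTop
        (𝓝 (∫ y : E, ((-15 * (‖y‖ ^ 2 + 1) ^ (-(7 / 2) : ℝ) : ℝ) : ℂ) * φ 0)) := by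
      obtain ⟨M, hM⟩ := hc.exists_bound_of_continuous hφ.continuous
      apply tendsto_integral_of_dominated_convergence
        (fun y : E => (15 * (‖y‖ ^ 2 + 1) ^ (-(7 / 2) : ℝ)) * M)
      · intro n
        apply Continuous.aestronglyMeasurable
        apply Continuous.mul
        · apply Complex.continuous_ofReal.comp
          apply Continuous.mul continuous_const
          apply Continuous.rpow_const (by fun_prop)
          intro x
          left
          positivity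
        · exact hφ.continuous.comp (by fun_prop)
      · exact (integrable_reg.const_mul 15).mul_const M
      · intro n
        filter_upwards with y
        rw [norm_mul, Complex.norm_real, Real.norm_eq_abs]
        have h1 : |(-15 * (‖y‖ ^ 2 + 1) ^ (-(7 / 2) : ℝ))| = 15 * (‖y‖ ^ 2 + 1) ^ (-(7 / 2) : ℝ) := by
          rw [neg_mul, abs_neg, abs_of_nonneg (by positivity)]
        rw [h1]
        exact mul_le_mul_of_nonneg_left (hM _) (by positivity)
      · filter_upwards with y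
        apply Tendsto.const_mul
        apply (hφ.continuous.tendsto 0).comp
        have := hseq.smul_const y
        rw [zero_smul] at this
        exact this
    have h5 : (fun n : ℕ => ∫ x, (((‖x‖ ^ 2 + (1 / ((n : ℝ) + 1)) ^ 2) ^ (-(3 / 2) : ℝ) : ℝ) : ℂ) * lap φ x) =
        (fun n : ℕ => ∫ y : E, ((-15 * (‖y‖ ^ 2 + 1) ^ (-(7 / 2) : ℝ) : ℝ) : ℂ) *
        φ ((1 / ((n : ℝ) + 1)) • y)) := by
      funext n
      exact heq _ (hpos n)
    rw [h5] at hleft
    rw [tendsto_nhds_unique hleft hright]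
    rw [integral_mul_const, integral_complex_ofReal, integral_const_mul, ← hC0]
    push_cast
    ring
  refine ⟨fun x => ((-((15 * C0)⁻¹ * (‖x‖ ^ 3)⁻¹) : ℝ) : ℂ), ?_, ?_, ?_, ?_⟩
  · intro x hx
    apply ContDiffAt.contDiffWithinAt
    have hx' : x ≠ 0 := hx
    have hx2 : 0 < ‖x‖ := norm_pos_iff.2 hx'
    apply Complex.ofRealCLM.contDiff.contDiffAt.comp
    apply ContDiffAt.neg
    apply ContDiffAt.mul contDiffAt_const
    apply ContDiffAt.inv
    · exact (contDiffAt_norm ℝ hx').pow 3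
    · positivity
  · have h1 : LocallyIntegrable (fun x : E => (-(15 * C0)⁻¹) • (‖x‖ ^ 3)⁻¹) :=
      locInt_inv_cube.smul (-(15 * C0)⁻¹)
    have h2 : ∀ x : E, ∃ s ∈ 𝓝 x, IntegrableOn (fun x : E => ((-((15 * C0)⁻¹ * (‖x‖ ^ 3)⁻¹) : ℝ) : ℂ)) s := by
      intro x
      obtain ⟨s, hs, hs'⟩ := h1 x
      refine ⟨s, hs, ?_⟩
      have h3 := hs'.ofReal (𝕜 := ℂ)
      refine h3.congr ?_
      filter_upwards with y
      simp
    exact h2
  · intro t x ht hx
    rw [norm_smul, Real.norm_eq_abs, abs_of_pos ht]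
    push_cast
    have ht' : (t : ℂ) ≠ 0 := by exact_mod_cast ht.ne'
    have hx' : (‖x‖ : ℂ) ≠ 0 := by exact_mod_cast (norm_pos_iff.2 hx).ne'
    rw [mul_pow, mul_inv]
    ring
  · intro φ hφ hc
    have h1 : ∫ x, ((-((15 * C0)⁻¹ * (‖x‖ ^ 3)⁻¹) : ℝ) : ℂ) * lap φ x =
        (-(15 * C0)⁻¹ : ℝ) * ∫ x, (((‖x‖ ^ 3)⁻¹ : ℝ) : ℂ) * lap φ x := by
      rw [← integral_const_mul]
      apply integral_congr_ae
      filter_upwards with x
      push_cast
      ring
    rw [h1, key φ hφ hc]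
    have : (C0 : ℂ) ≠ 0 := by exact_mod_cast integral_reg_pos.ne'
    push_cast
    field_simp


end Pool.Agent.Helper960.Cap.A4
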