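import Pool.Agent.Helper960.Cap.Base

open MeasureTheory Filter Topology Set
open scoped ContDiff ENNReal

namespace Pool.Agent.Helper960.Cap.B1

open Pool.Agent.Helper960.Cap

/-- negative power of the modulus, with value `⊤` at `0` -/
noncomputable def bE (β : ℝ) (v : ℝ) : ℝ≥0∞ := (‖v‖ₑ ^ β)⁻¹

theorem measurable_bE (β : ℝ) : Measurable (bE β) := by
  unfold bE
  fun_prop

theorem bE_eq (β : ℝ) {v : ℝ} (hv : v ≠ 0) : bE β v = ENNReal.ofReal (‖v‖ ^ (-β)) := by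
  unfold bE
  have h : 0 < ‖v‖ := norm_pos_iff.2 hv
  rw [← ofReal_norm, ENNReal.ofReal_rpow_of_pos h, Real.rpow_neg h.le,
    ENNReal.ofReal_inv_of_pos (Real.rpow_pos_of_pos h _)]

theorem intOn_rpow (β : ℝ) (hβ : β < 1) (r : ℝ) :
    IntegrableOn (fun v : ℝ => ‖v‖ ^ (-β)) (Metric.ball (0:ℝ) r) := by
  rw [integrableOn_fun_norm_addHaar (μ := (volume : Measure ℝ)) (f := fun y : ℝ => y ^ (-β))]
  have h1 : IntegrableOn (fun y : ℝ => y ^ (-β)) (Ioo 0 r) :=
    ((intervalIntegral.intervalIntegrable_rpow' (a := 0) (b := r)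
      (by linarith : -1 < -β)).1).mono_set Ioo_subset_Ioc_self
  refine h1.congr_fun ?_ measurableSet_Ioo
  intro y hy
  simp

theorem ae_ne_zero' : ∀ᵐ v : ℝ, v ≠ 0 := by
  have : ({0} : Set ℝ)ᶜ ∈ ae (volume : Measure ℝ) := compl_mem_ae_iff.2 (measure_singleton 0)
  filter_upwards [this] with v hv using hv

theorem lint_bE (β : ℝ) (hβ : β < 1) (r : ℝ) :
    ∫⁻ v in Metric.ball (0:ℝ) r, bE β v < ⊤ := by
  have h := (intOn_rpow β hβ r).2
  have h2 : ∫⁻ v in Metric.ball (0:ℝ) r, bE β v =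
      ∫⁻ v in Metric.ball (0:ℝ) r, ‖‖v‖ ^ (-β)‖ₑ := by
    apply lintegral_congr_ae
    filter_upwards [ae_restrict_of_ae ae_ne_zero'] with v hv
    rw [bE_eq β hv, ← ofReal_norm, Real.norm_of_nonneg (Real.rpow_nonneg (norm_nonneg _) _)]
  rw [h2]
  exact h

theorem bE_le (β : ℝ) (hβ : 0 < β) (w : ℝ) :
    bE β w ≤ (Metric.ball (0:ℝ) 1).indicator (bE β) w + 1 := by
  by_cases hw : w ∈ Metric.ball (0:ℝ) 1
  · rw [indicator_of_mem hw]
    exact le_self_add
  · rw [indicator_of_notMem hw, zero_add]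
    have h1 : 1 ≤ ‖w‖ := by
      rw [mem_ball_zero_iff] at hw
      exact not_lt.1 hw
    have h2 : (1 : ℝ≥0∞) ≤ ‖w‖ₑ := by
      rw [← ofReal_norm, ← ENNReal.ofReal_one]
      exact ENNReal.ofReal_le_ofReal h1
    unfold bE
    rw [ENNReal.inv_le_one]
    exact ENNReal.one_le_rpow h2 hβ

theorem lint_shift (β : ℝ) (hβ : 0 < β) (c : ℝ) :
    ∫⁻ s in Icc (-1:ℝ) 1, bE β (c - s) ≤ (∫⁻ v in Metric.ball (0:ℝ) 1, bE β v) + 2 := by
  calc ∫⁻ s in Icc (-1:ℝ) 1, bE β (c - s)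
      ≤ ∫⁻ s in Icc (-1:ℝ) 1, ((Metric.ball (0:ℝ) 1).indicator (bE β) (c - s) + 1) :=
        lintegral_mono fun s => bE_le β hβ (c - s)
    _ = (∫⁻ s in Icc (-1:ℝ) 1, (Metric.ball (0:ℝ) 1).indicator (bE β) (c - s)) +
          ∫⁻ s in Icc (-1:ℝ) 1, 1 := by
        rw [lintegral_add_right _ measurable_const]
    _ ≤ (∫⁻ s, (Metric.ball (0:ℝ) 1).indicator (bE β) (c - s)) + 2 := by
        refine add_le_add (setLIntegral_le_lintegral _ _) ?_
        rw [setLIntegral_one, Real.volume_Icc]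
        norm_num
    _ = (∫⁻ v in Metric.ball (0:ℝ) 1, bE β v) + 2 := by
        rw [lintegral_sub_left_eq_self, lintegral_indicator measurableSet_ball]

theorem enorm_apply_le' (y : E) (i : Fin 5) : ‖y i‖ₑ ≤ ‖y‖ₑ := by
  rw [← ofReal_norm, ← ofReal_norm]
  exact ENNReal.ofReal_le_ofReal (PiLp.norm_apply_le y i)

theorem inv_mul_rpow (x : ℝ≥0∞) (hx : x ≠ ⊤) (a b : ℝ) (ha : 0 ≤ a) (hb : 0 ≤ b) :
    (x ^ a)⁻¹ * (x ^ b)⁻¹ = (x ^ (a + b))⁻¹ := by
  rw [ENNReal.rpow_add_of_nonneg _ _ ha hb, ENNReal.mul_inv]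
  · exact Or.inr (ENNReal.rpow_ne_top_of_nonneg hb hx)
  · exact Or.inl (ENNReal.rpow_ne_top_of_nonneg ha hx)

theorem bE_ge (β : ℝ) (hβ : 0 ≤ β) (y : E) (i : Fin 5) : (‖y‖ₑ ^ β)⁻¹ ≤ bE β (y i) := by
  unfold bE
  exact ENNReal.inv_le_inv.2 (ENNReal.rpow_le_rpow (enorm_apply_le' y i) hβ)

theorem cube_bound (y : E) : (‖y‖ₑ ^ (3:ℝ))⁻¹ ≤
    (bE (5 / 12) (y 0) * bE (5 / 12) (y 1) * bE (5 / 12) (y 2)) *
      (bE (7 / 8) (y 3) * bE (7 / 8) (y 4)) := by
  have hx : ‖y‖ₑ ≠ ⊤ := enorm_ne_top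
  have h : (‖y‖ₑ ^ (3:ℝ))⁻¹ = ((‖y‖ₑ ^ (5 / 12 : ℝ))⁻¹ * (‖y‖ₑ ^ (5 / 12 : ℝ))⁻¹ *
      (‖y‖ₑ ^ (5 / 12 : ℝ))⁻¹) * ((‖y‖ₑ ^ (7 / 8 : ℝ))⁻¹ * (‖y‖ₑ ^ (7 / 8 : ℝ))⁻¹) := by
    rw [inv_mul_rpow _ hx _ _ (by norm_num) (by norm_num),
      inv_mul_rpow _ hx _ _ (by norm_num) (by norm_num),
      inv_mul_rpow _ hx _ _ (by norm_num) (by norm_num),
      inv_mul_rpow _ hx _ _ (by norm_num) (by norm_num)]
    norm_num
  rw [h]
  gcongr <;> exact bE_ge _ (by norm_num) y _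

theorem phi_bound {Φ : E → ℂ} {C : ℝ} (hC : 0 ≤ C)
    (hb : ∀ x, x ≠ 0 → ‖Φ x‖ ≤ C * (‖x‖ ^ 3)⁻¹) (y : E) :
    ‖Φ y‖ₑ ≤ ENNReal.ofReal (C + 1) * (‖y‖ₑ ^ (3:ℝ))⁻¹ := by
  by_cases hy : y = 0
  · rw [hy, enorm_zero, ENNReal.zero_rpow_of_pos (by norm_num), ENNReal.inv_zero,
      ENNReal.mul_top]
    · exact le_top
    · rw [Ne, ENNReal.ofReal_eq_zero]
      push Not
      linarith
  · have hpos : 0 < ‖y‖ := norm_pos_iff.2 hy
    have e1 : (‖y‖ₑ ^ (3:ℝ))⁻¹ = ENNReal.ofReal ((‖y‖ ^ 3)⁻¹) := by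
      rw [← ofReal_norm, ENNReal.ofReal_rpow_of_pos hpos,
        ENNReal.ofReal_inv_of_pos (by positivity)]
      congr 2
      exact_mod_cast Real.rpow_natCast ‖y‖ 3
    rw [e1, ← ENNReal.ofReal_mul (by linarith), ← ofReal_norm]
    apply ENNReal.ofReal_le_ofReal
    refine (hb y hy).trans ?_
    apply mul_le_mul_of_nonneg_right (by linarith) (by positivity)

theorem pt_apply (x : E) (p : ℝ × ℝ) : (x - pt p) 0 = x 0 ∧ (x - pt p) 1 = x 1 ∧
    (x - pt p) 2 = x 2 ∧ (x - pt p) 3 = x 3 - p.1 ∧ (x - pt p) 4 = x 4 - p.2 := by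
  unfold pt
  refine ⟨?_, ?_, ?_, ?_, ?_⟩ <;> simp

theorem measurable_pt : Measurable pt := by
  unfold pt
  have h : Continuous (fun p : ℝ × ℝ => (EuclideanSpace.single 3 p.1 +
      EuclideanSpace.single 4 p.2 : E)) := by
    have h1 : ∀ i : Fin 5, Continuous (fun s : ℝ => (EuclideanSpace.single i s : E)) := by
      intro i
      have : (fun s : ℝ => (EuclideanSpace.single i s : E)) =
          fun s => s • (EuclideanSpace.single i (1:ℝ) : E) := by
        ext s j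
        simp
      rw [this]
      fun_prop
    exact ((h1 3).comp continuous_fst).add ((h1 4).comp continuous_snd)
  exact h.measurable

theorem bE_sq (a : ℝ) (v : ℝ) : bE a v ^ (2:ℝ) = bE (2 * a) v := by
  unfold bE
  rw [← ENNReal.inv_rpow, ← ENNReal.rpow_mul, mul_comm, ENNReal.inv_rpow]

/-- near bound: on bounded sets the disc potential is dominated by an `L²` product -/
theorem near_L2 (Φ : E → ℂ) (C R : ℝ) (hC : 0 ≤ C) (hm : Measurable Φ) (hb : ∀ x, x ≠ 0 → ‖Φ x‖ ≤ C * (‖x‖ ^ 3)⁻¹) :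
    MemLp (fun x => ∫ p in Sq, Φ (x - pt p)) 2 (volume.restrict (Metric.ball (0 : E) R)) := by
  have hmeas : StronglyMeasurable (fun x : E => ∫ p in Sq, Φ (x - pt p)) := by
    have h1 : Measurable (fun z : E × (ℝ × ℝ) => Φ (z.1 - pt z.2)) :=
      hm.comp (measurable_fst.sub (measurable_pt.comp measurable_snd))
    exact h1.stronglyMeasurable.integral_prod_right
  refine ⟨hmeas.aestronglyMeasurable, ?_⟩
  rw [eLpNorm_lt_top_iff_lintegral_rpow_enorm_lt_top (by norm_num) (by norm_num)]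
  set M : ℝ≥0∞ := (∫⁻ v in Metric.ball (0:ℝ) 1, bE (7 / 8) v) + 2 with hMdef
  have hMtop : M < ⊤ := by
    rw [hMdef]
    exact ENNReal.add_lt_top.2 ⟨lint_bE _ (by norm_num) 1, by norm_num⟩
  set K : ℝ≥0∞ := ENNReal.ofReal (C + 1) with hKdef
  set A : E → ℝ≥0∞ := fun x => bE (5 / 12) (x 0) * bE (5 / 12) (x 1) * bE (5 / 12) (x 2)
    with hAdef
  have hu : ∀ x : E, ‖∫ p in Sq, Φ (x - pt p)‖ₑ ≤ (K * (M * M)) * A x := by
    intro x
    calc ‖∫ p in Sq, Φ (x - pt p)‖ₑ ≤ ∫⁻ p in Sq, ‖Φ (x - pt p)‖ₑ :=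
          enorm_integral_le_lintegral_enorm _
      _ ≤ ∫⁻ p in Sq, (K * A x) * (bE (7 / 8) (x 3 - p.1) * bE (7 / 8) (x 4 - p.2)) := by
          apply lintegral_mono
          intro p
          obtain ⟨e0, e1, e2, e3, e4⟩ := pt_apply x p
          refine (phi_bound hC hb (x - pt p)).trans ?_
          have h2 := cube_bound (x - pt p)
          rw [e0, e1, e2, e3, e4] at h2
          calc K * (‖x - pt p‖ₑ ^ (3:ℝ))⁻¹ ≤ K * (A x *
                (bE (7 / 8) (x 3 - p.1) * bE (7 / 8) (x 4 - p.2))) := by gcongr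
            _ = _ := (mul_assoc _ _ _).symm
      _ = (K * A x) * ∫⁻ p in Sq, (bE (7 / 8) (x 3 - p.1) * bE (7 / 8) (x 4 - p.2)) := by
          rw [lintegral_const_mul]
          exact ((measurable_bE _).comp (measurable_const.sub measurable_fst)).mul
            ((measurable_bE _).comp (measurable_const.sub measurable_snd))
      _ = (K * A x) * ((∫⁻ s in Icc (-1:ℝ) 1, bE (7 / 8) (x 3 - s)) *
            ∫⁻ t in Icc (-1:ℝ) 1, bE (7 / 8) (x 4 - t)) := by
          congr 1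
          have e : (volume : Measure (ℝ × ℝ)).restrict Sq =
              ((volume : Measure ℝ).restrict (Icc (-1) 1)).prod
                ((volume : Measure ℝ).restrict (Icc (-1) 1)) := by
            rw [Measure.prod_restrict]; rfl
          rw [e]
          exact lintegral_prod_mul
            (f := fun s => bE (7 / 8) (x 3 - s)) (g := fun t => bE (7 / 8) (x 4 - t))
            ((measurable_bE _).comp (measurable_const.sub measurable_id)).aemeasurable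
            ((measurable_bE _).comp (measurable_const.sub measurable_id)).aemeasurable
      _ ≤ (K * A x) * (M * M) := by
          gcongr <;> exact lint_shift _ (by norm_num) _
      _ = (K * (M * M)) * A x := by ring
  have hcoef : (K * (M * M)) ^ (2:ℝ) < ⊤ := by
    apply ENNReal.rpow_lt_top_of_nonneg (by norm_num)
    exact (ENNReal.mul_lt_top ENNReal.ofReal_lt_top (ENNReal.mul_lt_top hMtop hMtop)).ne
  have hA2 : ∫⁻ x in Metric.ball (0 : E) R, (A x) ^ (2:ℝ) < ⊤ := by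
    -- the product function
    let g0 : ℝ → ℝ := (Metric.ball (0:ℝ) R).indicator (fun v => ‖v‖ ^ (-(2 * (5 / 12)) : ℝ))
    let g1 : ℝ → ℝ := (Metric.ball (0:ℝ) R).indicator (fun _ => 1)
    have hg0 : Integrable g0 :=
      (integrable_indicator_iff measurableSet_ball).2 (intOn_rpow _ (by norm_num) R)
    have hg1 : Integrable g1 :=
      (integrable_indicator_iff measurableSet_ball).2
        (integrableOn_const (by exact measure_ball_lt_top.ne))
    let g : Fin 5 → ℝ → ℝ := ![g0, g0, g0, g1, g1]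
    have hg : ∀ i, Integrable (g i) := by
      intro i
      fin_cases i
      exacts [hg0, hg0, hg0, hg1, hg1]
    have hprod : Integrable (fun x : Fin 5 → ℝ => ∏ i, g i (x i)) :=
      Integrable.fintype_prod hg
    have hprodE : Integrable (fun x : E => ∏ i, g i (x i)) :=
      ((PiLp.volume_preserving_ofLp (Fin 5)).integrable_comp_emb
        (MeasurableEquiv.toLp 2 (Fin 5 → ℝ)).symm.measurableEmbedding).2 hprod
    have hne : ∀ᵐ x : E, ∀ i, x i ≠ 0 := by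
      rw [ae_all_iff]
      intro i
      have h1 : ∀ᵐ x : Fin 5 → ℝ, x i ≠ 0 := by
        exact Measure.ae_eval_ne _ i 0
      exact (PiLp.volume_preserving_ofLp (Fin 5)).quasiMeasurePreserving.ae h1
    have hle : ∫⁻ x in Metric.ball (0 : E) R, (A x) ^ (2:ℝ) ≤
        ∫⁻ x in Metric.ball (0 : E) R, ‖∏ i, g i (x i)‖ₑ := by
      apply lintegral_mono_ae
      filter_upwards [ae_restrict_of_ae hne, ae_restrict_mem measurableSet_ball] with x hx hxb
      have hmem : ∀ i, x i ∈ Metric.ball (0:ℝ) R := by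
        intro i
        rw [mem_ball_zero_iff] at hxb ⊢
        exact (PiLp.norm_apply_le x i).trans_lt hxb
      have e0 : ∀ i, g0 (x i) = ‖x i‖ ^ (-(2 * (5 / 12)) : ℝ) := fun i =>
        indicator_of_mem (hmem i) _
      have e1 : ∀ i, g1 (x i) = 1 := fun i => indicator_of_mem (hmem i) _
      have e2 : ∏ i, g i (x i) = g0 (x 0) * g0 (x 1) * g0 (x 2) * g1 (x 3) * g1 (x 4) := by
        rw [Fin.prod_univ_five]; rfl
      rw [e2, e1, e1, mul_one, mul_one, hAdef]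
      simp only []
      rw [ENNReal.mul_rpow_of_nonneg _ _ (by norm_num), ENNReal.mul_rpow_of_nonneg _ _
        (by norm_num), bE_sq, bE_sq, bE_sq, enorm_mul, enorm_mul, e0, e0, e0,
        bE_eq _ (hx 0), bE_eq _ (hx 1), bE_eq _ (hx 2)]
      have e3 : ∀ v : ℝ, ENNReal.ofReal (‖v‖ ^ (-(2 * (5 / 12)) : ℝ)) =
          ‖‖v‖ ^ (-(2 * (5 / 12)) : ℝ)‖ₑ := by
        intro v
        rw [← ofReal_norm, Real.norm_of_nonneg (Real.rpow_nonneg (norm_nonneg _) _)]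
      rw [e3, e3, e3]
    exact hle.trans_lt ((setLIntegral_le_lintegral _ _).trans_lt hprodE.2)
  calc ∫⁻ x in Metric.ball (0 : E) R, ‖∫ p in Sq, Φ (x - pt p)‖ₑ ^ (2 : ℝ≥0∞).toReal
      ≤ ∫⁻ x in Metric.ball (0 : E) R, (K * (M * M)) ^ (2:ℝ) * (A x) ^ (2:ℝ) := by
        apply lintegral_mono
        intro x
        have e : (2 : ℝ≥0∞).toReal = (2:ℝ) := by norm_num
        simp only [e]
        rw [← ENNReal.mul_rpow_of_nonneg _ _ (by norm_num)]
        exact ENNReal.rpow_le_rpow (hu x) (by norm_num)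
    _ = (K * (M * M)) ^ (2:ℝ) * ∫⁻ x in Metric.ball (0 : E) R, (A x) ^ (2:ℝ) := by
        rw [lintegral_const_mul' _ _ hcoef.ne]
    _ < ⊤ := ENNReal.mul_lt_top hcoef hA2


end Pool.Agent.Helper960.Cap.B1
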