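import Pool.Agent.Helper960.Cap.Base

open MeasureTheory Filter Topology Set
open scoped ContDiff ENNReal

namespace Pool.Agent.Helper960.Cap.B2

open Pool.Agent.Helper960.Cap

theorem pt_norm_le (p : ℝ × ℝ) (hp : p ∈ Sq) : ‖pt p‖ ≤ 2 := by
  obtain ⟨⟨h1, h2⟩, h3, h4⟩ := hp
  calc ‖pt p‖ ≤ ‖(EuclideanSpace.single 3 p.1 : E)‖ + ‖(EuclideanSpace.single 4 p.2 : E)‖ := norm_add_le _ _
    _ = |p.1| + |p.2| := by simp
    _ ≤ 1 + 1 := add_le_add (abs_le.mpr ⟨h1, h2⟩) (abs_le.mpr ⟨h3, h4⟩)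
    _ = 2 := by norm_num

theorem measurable_pt : Measurable pt := by
  have e : pt = fun p : ℝ × ℝ => p.1 • (EuclideanSpace.single 3 1 : E) + p.2 • (EuclideanSpace.single 4 1 : E) := by
    funext p
    ext i
    simp [pt, Pi.single_apply]
  have h : Continuous pt := by
    rw [e]; fun_prop
  exact h.measurable

theorem disc_L2 (Φ : E → ℂ) (C : ℝ) (hC : 0 ≤ C) (hm : Measurable Φ) (hb : ∀ x, x ≠ 0 → ‖Φ x‖ ≤ C * (‖x‖ ^ 3)⁻¹)
    (near : ∀ R : ℝ, MemLp (fun x => ∫ p in Sq, Φ (x - pt p)) 2 (volume.restrict (Metric.ball (0 : E) R))) :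
    MemLp (fun x : E => ∫ p in Sq, Φ (x - pt p)) 2 := by
  have hmeas : AEStronglyMeasurable (fun x : E => ∫ p in Sq, Φ (x - pt p)) volume := by
    have h1 : Measurable (fun q : E × (ℝ × ℝ) => Φ (q.1 - pt q.2)) :=
      hm.comp (measurable_fst.sub (measurable_pt.comp measurable_snd))
    exact (h1.stronglyMeasurable.integral_prod_right' (ν := volume.restrict Sq)).aestronglyMeasurable
  have hSqvol : (volume : Measure (ℝ × ℝ)).real Sq = 4 := by
    unfold Sq
    rw [Measure.volume_eq_prod, measureReal_def, Measure.prod_prod]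
    simp [Real.volume_Icc]
    norm_num
  have hSqfin : (volume : Measure (ℝ × ℝ)) Sq < ⊤ := by
    unfold Sq
    rw [Measure.volume_eq_prod, Measure.prod_prod]
    simp [Real.volume_Icc]
    exact ENNReal.mul_lt_top ENNReal.ofReal_lt_top ENNReal.ofReal_lt_top
  have hbound : ∀ x : E, 4 ≤ ‖x‖ → ‖∫ p in Sq, Φ (x - pt p)‖ ≤ 64 * C * (1 + ‖x‖) ^ (-3 : ℝ) := by
    intro x hx
    have h1 : ∀ p ∈ Sq, ‖Φ (x - pt p)‖ ≤ C * ((‖x‖ / 2) ^ 3)⁻¹ := by
      intro p hp
      have h2 := pt_norm_le p hp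
      have h3 : ‖x‖ - ‖pt p‖ ≤ ‖x - pt p‖ := norm_sub_norm_le _ _
      have h4 : ‖x‖ / 2 ≤ ‖x - pt p‖ := by linarith
      have h5 : x - pt p ≠ 0 := by
        intro h; rw [h, norm_zero] at h4; linarith
      refine (hb _ h5).trans ?_
      apply mul_le_mul_of_nonneg_left _ hC
      apply inv_anti₀ (by positivity)
      exact pow_le_pow_left₀ (by positivity) h4 3
    have h6 := norm_setIntegral_le_of_norm_le_const hSqfin h1
    rw [hSqvol] at h6
    refine h6.trans ?_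
    rw [Real.rpow_neg (by positivity)]
    have e : (1 + ‖x‖) ^ (3 : ℝ) = (1 + ‖x‖) ^ 3 := by
      rw [← Real.rpow_natCast]; norm_num
    rw [e]
    have h7 : (1 + ‖x‖) ^ 3 ≤ 2 * ‖x‖ ^ 3 := by
      have : (1 + ‖x‖) ^ 3 ≤ (5 / 4 * ‖x‖) ^ 3 := pow_le_pow_left₀ (by positivity) (by linarith) 3
      have h8 : (0:ℝ) ≤ ‖x‖ ^ 3 := by positivity
      nlinarith
    have h8 : (0:ℝ) < ‖x‖ ^ 3 := by positivity
    have h9 : ((‖x‖ / 2) ^ 3)⁻¹ = 8 * (‖x‖ ^ 3)⁻¹ := by
      field_simp; norm_num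
    rw [h9]
    have h10 : (‖x‖ ^ 3)⁻¹ ≤ 2 * ((1 + ‖x‖) ^ 3)⁻¹ := by
      rw [inv_le_iff_one_le_mul₀ h8, mul_assoc, ← div_eq_inv_mul, ← mul_div_assoc, le_div_iff₀ (by positivity)]
      linarith
    calc C * (8 * (‖x‖ ^ 3)⁻¹) * 4 = 32 * C * (‖x‖ ^ 3)⁻¹ := by ring
      _ ≤ 32 * C * (2 * ((1 + ‖x‖) ^ 3)⁻¹) := mul_le_mul_of_nonneg_left h10 (by positivity)
      _ = 64 * C * ((1 + ‖x‖) ^ 3)⁻¹ := by ring
  have hg : MemLp (fun x : E => 64 * C * (1 + ‖x‖) ^ (-3 : ℝ)) 2 volume := by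
    rw [memLp_two_iff_integrable_sq]
    · have h1 : Integrable (fun x : E => (1 + ‖x‖) ^ (-6 : ℝ)) volume := by
        apply integrable_one_add_norm
        simp
        norm_num
      have h2 := h1.const_mul ((64 * C) ^ 2)
      refine h2.congr (Eventually.of_forall fun x => ?_)
      simp only
      rw [mul_pow (64 * C) ((1 + ‖x‖) ^ (-3 : ℝ)) 2, ← Real.rpow_natCast ((1 + ‖x‖) ^ (-3 : ℝ)) 2, ← Real.rpow_mul (by positivity)]
      norm_num
    · have : Continuous (fun x : E => 64 * C * (1 + ‖x‖) ^ (-3 : ℝ)) := by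
        apply continuous_const.mul
        apply Continuous.rpow_const (by fun_prop)
        intro x; left; positivity
      exact this.aestronglyMeasurable
  set s := Metric.ball (0 : E) 4 with hs
  have hsm : MeasurableSet s := Metric.isOpen_ball.measurableSet
  have h1 : MemLp (s.indicator (fun x : E => ∫ p in Sq, Φ (x - pt p))) 2 volume :=
    (memLp_indicator_iff_restrict hsm).mpr (near 4)
  have h2 : MemLp (sᶜ.indicator (fun x : E => ∫ p in Sq, Φ (x - pt p))) 2 volume := by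
    apply MemLp.of_le hg (hmeas.indicator hsm.compl)
    refine Eventually.of_forall fun x => ?_
    by_cases hx : x ∈ sᶜ
    · rw [indicator_of_mem hx]
      have : 4 ≤ ‖x‖ := by
        have h3 : ¬ (dist x 0 < 4) := hx
        rw [dist_zero_right] at h3
        linarith
      exact (hbound x this).trans (le_abs_self _)
    · rw [indicator_of_notMem hx, norm_zero]; exact norm_nonneg _
  have h3 := h1.add h2
  rwa [indicator_self_add_compl] at h3


end Pool.Agent.Helper960.Cap.B2
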