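import Pool.Agent.Helper960.Cap.Base

open MeasureTheory Filter Topology Set
open scoped ContDiff ENNReal

namespace Pool.Agent.Helper960.Cap.B3

open Pool.Agent.Helper960.Cap

namespace Disc4827

theorem pt_cont : Continuous pt := by
  unfold pt
  have h1 : Continuous (fun p : ℝ × ℝ => (EuclideanSpace.single (3 : Fin 5) p.1 : E)) := by
    have : (fun p : ℝ × ℝ => (EuclideanSpace.single (3 : Fin 5) p.1 : E)) =
        fun p : ℝ × ℝ => p.1 • (EuclideanSpace.single (3 : Fin 5) (1 : ℝ) : E) := by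
      funext p
      ext j
      simp
    rw [this]
    fun_prop
  have h2 : Continuous (fun p : ℝ × ℝ => (EuclideanSpace.single (4 : Fin 5) p.2 : E)) := by
    have : (fun p : ℝ × ℝ => (EuclideanSpace.single (4 : Fin 5) p.2 : E)) =
        fun p : ℝ × ℝ => p.2 • (EuclideanSpace.single (4 : Fin 5) (1 : ℝ) : E) := by
      funext p
      ext j
      simp
    rw [this]
    fun_prop
  exact h1.add h2

theorem Sq_compact : IsCompact Sq := isCompact_Icc.prod isCompact_Icc

theorem Sq_meas : MeasurableSet Sq := measurableSet_Icc.prod measurableSet_Icc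

theorem Sq_vol : volume Sq = 4 := by
  unfold Sq
  rw [Measure.volume_eq_prod, Measure.prod_prod, Real.volume_Icc]
  have : (1 : ℝ) - (-1) = 2 := by norm_num
  rw [this, ENNReal.ofReal_ofNat]
  norm_num

theorem Sq_real : (volume : Measure (ℝ × ℝ)).real Sq = 4 := by
  rw [Measure.real, Sq_vol]
  simp

theorem integrableOn (φ : E → ℂ) (hφ : Continuous φ) :
    IntegrableOn (fun p => φ (pt p)) Sq :=
  (hφ.comp pt_cont).continuousOn.integrableOn_compact Sq_compact

end Disc4827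

open Disc4827

theorem disc_isDist : IsDist (pt '' Sq) (fun φ => ∫ p in Sq, φ (pt p)) := by
  refine ⟨Sq_compact.image pt_cont, ?_, ?_, ?_, ?_⟩
  · intro φ ψ hφ hψ
    exact integral_add (integrableOn φ hφ.continuous) (integrableOn ψ hψ.continuous)
  · intro c φ _
    exact integral_const_mul c _
  · refine ⟨pt '' Sq, 0, 4, Sq_compact.image pt_cont, ?_⟩
    intro φ hφ A hA hb
    have h1 : ‖∫ p in Sq, φ (pt p)‖ ≤ A * (volume : Measure (ℝ × ℝ)).real Sq := by
      apply norm_setIntegral_le_of_norm_le_const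
      · rw [Sq_vol]; exact ENNReal.ofNat_lt_top
      · intro p hp
        have := hb 0 le_rfl (pt p) ⟨p, hp, rfl⟩
        rwa [norm_iteratedFDeriv_zero] at this
    rw [Sq_real] at h1
    linarith
  · intro φ _ hdis
    apply setIntegral_eq_zero_of_forall_eq_zero
    intro p hp
    have : pt p ∉ tsupport φ := Set.disjoint_left.1 hdis ⟨p, hp, rfl⟩
    exact image_eq_zero_of_notMem_tsupport this

theorem disc_one : (fun φ : E → ℂ => ∫ p in Sq, φ (pt p)) 1 = 4 := by
  show ∫ p in Sq, (1 : E → ℂ) (pt p) = 4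
  simp only [Pi.one_apply]
  rw [setIntegral_const, Sq_real]
  simp

theorem disc_conv (Φ : E → ℂ) (hm : Measurable Φ) (hl : LocallyIntegrable Φ) :
    IsConv Φ (fun φ => ∫ p in Sq, φ (pt p)) (fun x => ∫ p in Sq, Φ (x - pt p)) := by
  intro φ hφ hcs
  show ∫ x, (∫ p in Sq, Φ (x - pt p)) * φ x = ∫ p in Sq, ∫ x, Φ (x - pt p) * φ x
  have e1 : ∀ x, (∫ p in Sq, Φ (x - pt p)) * φ x = ∫ p in Sq, Φ (x - pt p) * φ x := by
    intro x
    rw [integral_mul_const]
  simp only [e1]
  apply integral_integral_swap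
  -- bounds
  obtain ⟨R, hR⟩ : ∃ R : ℝ, ∀ x, R < ‖x‖ → φ x = 0 := by
    obtain ⟨R, hR⟩ := hcs.isCompact.isBounded.subset_closedBall (0 : E)
    refine ⟨R, fun x hx => ?_⟩
    by_contra hne
    have := hR (subset_tsupport φ hne)
    rw [mem_closedBall_zero_iff] at this
    linarith
  obtain ⟨M, hM⟩ : ∃ M : ℝ, ∀ x, ‖φ x‖ ≤ M := hcs.exists_bound_of_continuous hφ.continuous
  obtain ⟨R', hR'⟩ : ∃ R' : ℝ, ∀ p ∈ Sq, ‖pt p‖ ≤ R' := by
    obtain ⟨R', hR'⟩ := (Sq_compact.image pt_cont).isBounded.subset_closedBall (0 : E)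
    refine ⟨R', fun p hp => ?_⟩
    have := hR' ⟨p, hp, rfl⟩
    rwa [mem_closedBall_zero_iff] at this
  have hmeas : Measurable (Function.uncurry fun (x : E) (p : ℝ × ℝ) => Φ (x - pt p) * φ x) := by
    have h1 : Measurable (fun z : E × (ℝ × ℝ) => z.1 - pt z.2) :=
      measurable_fst.sub (pt_cont.measurable.comp measurable_snd)
    exact (hm.comp h1).mul (hφ.continuous.measurable.comp measurable_fst)
  refine ⟨hmeas.aestronglyMeasurable, ?_⟩
  rw [HasFiniteIntegral, lintegral_prod_symm _ hmeas.enorm.aemeasurable]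
  have hfin : ∫⁻ y in Metric.closedBall (0 : E) (R + R'), ‖Φ y‖ₑ < (⊤ : ℝ≥0∞) :=
    (hl.integrableOn_isCompact (isCompact_closedBall _ _)).2
  have hinner : ∀ p ∈ Sq, ∫⁻ x : E, ‖Function.uncurry
      (fun (x : E) (p : ℝ × ℝ) => Φ (x - pt p) * φ x) (x, p)‖ₑ ≤
      (∫⁻ y in Metric.closedBall (0 : E) (R + R'), ‖Φ y‖ₑ) * ENNReal.ofReal M := by
    intro p hp
    have h1 : ∫⁻ x : E, ‖Function.uncurry
        (fun (x : E) (p : ℝ × ℝ) => Φ (x - pt p) * φ x) (x, p)‖ₑ =
        ∫⁻ y : E, ‖Φ y‖ₑ * ‖φ (y + pt p)‖ₑ := by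
      rw [← lintegral_sub_right_eq_self (fun y : E => ‖Φ y‖ₑ * ‖φ (y + pt p)‖ₑ) (pt p)]
      apply lintegral_congr
      intro x
      simp only [Function.uncurry_apply_pair, sub_add_cancel, enorm_mul]
    rw [h1, ← lintegral_mul_const' _ _ ENNReal.ofReal_ne_top,
      ← lintegral_indicator Metric.isClosed_closedBall.measurableSet]
    apply lintegral_mono
    intro y
    show ‖Φ y‖ₑ * ‖φ (y + pt p)‖ₑ ≤ _
    by_cases hy : y ∈ Metric.closedBall (0 : E) (R + R')
    · rw [Set.indicator_of_mem hy]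
      gcongr
      rw [← ofReal_norm]
      exact ENNReal.ofReal_le_ofReal (hM _)
    · rw [Set.indicator_of_notMem hy]
      have : φ (y + pt p) = 0 := by
        apply hR
        rw [mem_closedBall_zero_iff, not_le] at hy
        have h2 := hR' p hp
        have h3 : ‖y‖ ≤ ‖y + pt p‖ + ‖pt p‖ := by
          have := norm_sub_le (y + pt p) (pt p)
          rwa [add_sub_cancel_right] at this
        linarith
      rw [this]
      simp
  calc ∫⁻ p in Sq, ∫⁻ x : E, ‖Function.uncurry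
          (fun (x : E) (p : ℝ × ℝ) => Φ (x - pt p) * φ x) (x, p)‖ₑ
      ≤ ∫⁻ _p in Sq, (∫⁻ y in Metric.closedBall (0 : E) (R + R'), ‖Φ y‖ₑ) * ENNReal.ofReal M :=
        setLIntegral_mono' Sq_meas hinner
    _ = ((∫⁻ y in Metric.closedBall (0 : E) (R + R'), ‖Φ y‖ₑ) * ENNReal.ofReal M) *
        volume Sq := setLIntegral_const _ _
    _ < (⊤ : ℝ≥0∞) := by
        rw [Sq_vol]
        exact ENNReal.mul_lt_top (ENNReal.mul_lt_top hfin ENNReal.ofReal_lt_top)
          ENNReal.ofNat_lt_top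


end Pool.Agent.Helper960.Cap.B3
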