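import Pool.Agent.Helper960.Cap.Defs

open MeasureTheory Filter Topology Set
open scoped ContDiff ENNReal

namespace Pool.Agent.Helper960.Cap

/-- the open tube of radius `ρ` about the plane `x₀ = 0, (x₁,x₂) = a` -/
def U (a : ℝ × ℝ) (ρ : ℝ) : Set E := {x | x 0 ^ 2 + (x 1 - a.1) ^ 2 + (x 2 - a.2) ^ 2 < ρ ^ 2}

/-- the compact set -/
def KK (a : ℕ → ℝ × ℝ) (ρ : ℕ → ℝ) : Set E := {x | ∀ i, |x i| ≤ 1} \ ⋃ k, U (a k) (ρ k)

/-- the point `(0,0,0,s,t)` -/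
noncomputable def pt (p : ℝ × ℝ) : E := EuclideanSpace.single 3 p.1 + EuclideanSpace.single 4 p.2

/-- the square `[-1,1]²` -/
def Sq : Set (ℝ × ℝ) := Icc (-1) 1 ×ˢ Icc (-1) 1

end Pool.Agent.Helper960.Cap
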