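import Pool.Agent.Helper960.Cap.Base

open MeasureTheory Filter Topology Set
open scoped ContDiff ENNReal

namespace Pool.Agent.Helper960.Cap.C1

open Pool.Agent.Helper960.Cap

/-- the affine map -/
theorem scale_contDiff (a : E) (r : ℝ) {φ : E → ℂ} (hφ : ContDiff ℝ ∞ φ) :
    ContDiff ℝ ∞ (fun y => φ (a + r • y)) := by
  have : ContDiff ℝ ∞ (fun y : E => a + r • y) := by fun_prop
  exact hφ.comp this

theorem iteratedFDeriv_scale (a : E) (r : ℝ) (hr : 0 < r) {φ : E → ℂ} (hφ : ContDiff ℝ ∞ φ)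
    (m : ℕ) (y : E) : ‖iteratedFDeriv ℝ m (fun y => φ (a + r • y)) y‖ ≤
      r ^ m * ‖iteratedFDeriv ℝ m φ (a + r • y)‖ := by
  let g : E →L[ℝ] E := r • ContinuousLinearMap.id ℝ E
  have hg : ‖g‖ ≤ r := by
    refine ContinuousLinearMap.opNorm_le_bound _ hr.le (fun v => ?_)
    show ‖r • v‖ ≤ r * ‖v‖
    rw [norm_smul, Real.norm_eq_abs, abs_of_pos hr]
  have h1 : ContDiff ℝ ∞ (fun z : E => φ (a + z)) := hφ.comp (by fun_prop)
  have h2 : iteratedFDeriv ℝ m (fun y => φ (a + r • y)) y =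
      (iteratedFDeriv ℝ m (fun z : E => φ (a + z)) (g y)).compContinuousLinearMap
        (fun _ => g) := by
    have := ContinuousLinearMap.iteratedFDeriv_comp_right g h1 y (i := m) (by exact_mod_cast le_top)
    exact this
  rw [h2, iteratedFDeriv_comp_add_left]
  refine (ContinuousMultilinearMap.norm_compContinuousLinearMap_le _ _).trans ?_
  rw [Finset.prod_const, Finset.card_univ, Fintype.card_fin, mul_comm]
  have h3 : g y = r • y := rfl
  rw [h3]
  gcongr

/-- rescaled functional -/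
theorem isDist_scale (L : Set E) (f : (E → ℂ) → ℂ) (a : E) (r : ℝ) (hr : 0 < r)
    (hf : IsDist L f) (k : ℂ) :
    IsDist ((fun y => a + r • y) '' L) (fun φ => k * f (fun y => φ (a + r • y))) := by
  refine ⟨hf.compact.image (by fun_prop), ?_, ?_, ?_, ?_⟩
  · intro φ ψ hφ hψ
    have := hf.add _ _ (scale_contDiff a r hφ) (scale_contDiff a r hψ)
    have e : (fun y => (φ + ψ) (a + r • y)) =
        (fun y => φ (a + r • y)) + (fun y => ψ (a + r • y)) := rfl
    beta_reduce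
    rw [e, this]; ring
  · intro c φ hφ
    have := hf.smul c _ (scale_contDiff a r hφ)
    have e : (fun y => (c • φ) (a + r • y)) = c • (fun y => φ (a + r • y)) := rfl
    beta_reduce
    rw [e, this]; ring
  · obtain ⟨L', N, C, hL', hC⟩ := hf.cont
    refine ⟨(fun y => a + r • y) '' L', N, ‖k‖ * C * (1 + r) ^ N, hL'.image (by fun_prop),
      fun φ hφ A hA h => ?_⟩
    have h1 := hC _ (scale_contDiff a r hφ) ((1 + r) ^ N * A) (by positivity) (by
      intro m hm y hy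
      refine (iteratedFDeriv_scale a r hr hφ m y).trans ?_
      have h2 := h m hm (a + r • y) ⟨y, hy, rfl⟩
      have h3 : r ^ m ≤ (1 + r) ^ N :=
        (pow_le_pow_left₀ hr.le (by linarith) m).trans
          (pow_le_pow_right₀ (by linarith) hm)
      gcongr)
    rw [norm_mul]
    calc ‖k‖ * ‖f (fun y => φ (a + r • y))‖ ≤ ‖k‖ * (C * ((1 + r) ^ N * A)) := by gcongr
      _ = _ := by ring
  · intro φ hφ hd
    beta_reduce
    rw [hf.supp _ (scale_contDiff a r hφ), mul_zero]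
    rw [Set.disjoint_left] at hd ⊢
    intro y hy hy2
    refine hd ⟨y, hy, rfl⟩ ?_
    exact tsupport_comp_subset_preimage φ (f := fun y : E => a + r • y) (by fun_prop) hy2

theorem cov (a : E) (r : ℝ) (hr : 0 < r) (g : E → ℂ) :
    ∫ x, g x = ((r ^ 5 : ℝ) : ℂ) * ∫ y, g (a + r • y) := by
  have h1 := Measure.integral_comp_smul (volume : Measure E) (fun x => g (a + x)) r
  rw [integral_add_left_eq_self g a, finrank_euclideanSpace_fin, abs_of_pos (by positivity)] at h1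
  rw [h1, Complex.real_smul, ← mul_assoc, ← Complex.ofReal_mul,
    mul_inv_cancel₀ (by positivity), Complex.ofReal_one, one_mul]

theorem isConv_scale (Φ : E → ℂ) (hom : ∀ (t : ℝ) (x : E), 0 < t → x ≠ 0 → Φ (t • x) = ((t ^ 3)⁻¹ : ℝ) * Φ x)
    (f : (E → ℂ) → ℂ) (u : E → ℂ) (a : E) (r : ℝ) (hr : 0 < r) (hu : IsConv Φ f u)
    (hsm : ∀ (c : ℂ) (φ : E → ℂ), ContDiff ℝ ∞ φ → f (c • φ) = c * f φ)
    (hsmooth : ∀ φ : E → ℂ, ContDiff ℝ ∞ φ → HasCompactSupport φ → ContDiff ℝ ∞ (fun y => ∫ x, Φ (x - y) * φ x)) :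
    IsConv Φ (fun φ => ((r ^ (1 / 2 : ℝ) : ℝ) : ℂ) * f (fun y => φ (a + r • y)))
      (fun x => ((r ^ (-(5 / 2) : ℝ) : ℝ) : ℂ) * u (r⁻¹ • (x - a))) := by
  intro φ hφ hφc
  have hφr := scale_contDiff a r hφ
  have hφrc : HasCompactSupport (fun y => φ (a + r • y)) := by
    have h := hφc.comp_homeomorph ((Homeomorph.smulOfNeZero r hr.ne').trans (Homeomorph.addLeft a))
    exact h
  -- the left side
  have e1 : ∫ x, ((r ^ (-(5 / 2) : ℝ) : ℝ) : ℂ) * u (r⁻¹ • (x - a)) * φ x =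
      ((r ^ (-(5 / 2) : ℝ) : ℝ) : ℂ) * (((r ^ 5 : ℝ) : ℂ) * ∫ y, u y * φ (a + r • y)) := by
    rw [cov a r hr]
    have : ∀ y : E, ((r ^ (-(5 / 2) : ℝ) : ℝ) : ℂ) * u (r⁻¹ • (a + r • y - a)) * φ (a + r • y) =
        ((r ^ (-(5 / 2) : ℝ) : ℝ) : ℂ) * (u y * φ (a + r • y)) := by
      intro y
      rw [add_sub_cancel_left, smul_smul, inv_mul_cancel₀ hr.ne', one_smul, mul_assoc]
    simp_rw [this]
    rw [integral_const_mul]
    ring
  -- the right side
  have e2 : (fun y => ∫ x, Φ (x - (a + r • y)) * φ x) =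
      ((r ^ 2 : ℝ) : ℂ) • (fun y => ∫ x, Φ (x - y) * φ (a + r • x)) := by
    funext y
    rw [Pi.smul_apply, smul_eq_mul, cov a r hr]
    have h1 : ∫ x, Φ (a + r • x - (a + r • y)) * φ (a + r • x) =
        ∫ x, (((r ^ 3)⁻¹ : ℝ) : ℂ) * (Φ (x - y) * φ (a + r • x)) := by
      refine integral_congr_ae ?_
      have h2 : ∀ᵐ x : E, x ≠ y := by
        have : (volume : Measure E) {y} = 0 := measure_singleton y
        exact compl_mem_ae_iff.mpr this
      filter_upwards [h2] with x hx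
      have h3 : a + r • x - (a + r • y) = r • (x - y) := by
        rw [add_sub_add_left_eq_sub, smul_sub]
      rw [h3, hom r (x - y) hr (sub_ne_zero.mpr hx), mul_assoc]
    rw [h1, integral_const_mul, ← mul_assoc, ← Complex.ofReal_mul]
    congr 2
    field_simp
  show ∫ x, ((r ^ (-(5 / 2) : ℝ) : ℝ) : ℂ) * u (r⁻¹ • (x - a)) * φ x =
    ((r ^ (1 / 2 : ℝ) : ℝ) : ℂ) * f (fun y => ∫ x, Φ (x - (a + r • y)) * φ x)
  rw [e1, e2, hsm _ _ (hsmooth _ hφr hφrc), ← hu _ hφr hφrc, ← mul_assoc, ← mul_assoc,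
    ← Complex.ofReal_mul, ← Complex.ofReal_mul]
  congr 2
  rw [← Real.rpow_natCast r 5, ← Real.rpow_natCast r 2, ← Real.rpow_add hr, ← Real.rpow_add hr]
  norm_num

theorem eLpNorm_scale (u : E → ℂ) (a : E) (r : ℝ) (hr : 0 < r) (hu : AEStronglyMeasurable u) :
    eLpNorm (fun x => ((r ^ (-(5 / 2) : ℝ) : ℝ) : ℂ) * u (r⁻¹ • (x - a))) 2 volume = eLpNorm u 2 volume := by
  have hr' : r⁻¹ ≠ 0 := inv_ne_zero hr.ne'
  have hmap1 : Measure.map (fun x : E => r⁻¹ • x) volume =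
      ENNReal.ofReal (r ^ 5) • (volume : Measure E) := by
    have h := Measure.map_addHaar_smul (volume : Measure E) hr'
    rw [finrank_euclideanSpace_fin, inv_pow, inv_inv, abs_of_pos (by positivity)] at h
    exact h
  have e1 : eLpNorm (fun x => u (r⁻¹ • (x - a))) 2 volume =
      eLpNorm (fun x => u (r⁻¹ • x)) 2 volume := by
    have h1 : MeasurePreserving (fun x : E => x - a) volume volume :=
      measurePreserving_sub_right volume a
    have hac : Measure.map (fun x : E => r⁻¹ • x) volume ≪ volume := by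
      rw [hmap1]; exact Measure.smul_absolutelyContinuous
    have h2 : AEStronglyMeasurable (fun x : E => u (r⁻¹ • x)) volume :=
      (hu.mono_ac hac).comp_measurable (by fun_prop)
    exact eLpNorm_comp_measurePreserving h2 h1
  have e2 : eLpNorm (fun x => u (r⁻¹ • x)) 2 volume =
      eLpNorm u 2 (ENNReal.ofReal (r ^ 5) • (volume : Measure E)) := by
    rw [← hmap1]
    have h3 : AEStronglyMeasurable u (Measure.map (fun x : E => r⁻¹ • x) volume) := by
      rw [hmap1]; exact hu.smul_measure _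
    exact (eLpNorm_map_measure h3 (by fun_prop)).symm
  have e3 : eLpNorm (fun x => ((r ^ (-(5 / 2) : ℝ) : ℝ) : ℂ) * u (r⁻¹ • (x - a))) 2 volume =
      ‖((r ^ (-(5 / 2) : ℝ) : ℝ) : ℂ)‖ₑ * eLpNorm (fun x => u (r⁻¹ • (x - a))) 2 volume :=
    eLpNorm_const_smul ((r ^ (-(5 / 2) : ℝ) : ℝ) : ℂ) (fun x => u (r⁻¹ • (x - a))) 2 volume
  rw [e3, e1, e2, eLpNorm_smul_measure_of_ne_top (by norm_num), smul_eq_mul, ← mul_assoc]
  have e4 : ‖((r ^ (-(5 / 2) : ℝ) : ℝ) : ℂ)‖ₑ * ENNReal.ofReal (r ^ 5) ^ (1 / (2 : ℝ≥0∞)).toReal = 1 := by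
    have h5 : ‖((r ^ (-(5 / 2) : ℝ) : ℝ) : ℂ)‖ₑ = ENNReal.ofReal (r ^ (-(5 / 2) : ℝ)) := by
      rw [← ofReal_norm, Complex.norm_real, Real.norm_eq_abs, abs_of_pos (by positivity)]
    have h6 : (1 / (2 : ℝ≥0∞)).toReal = 1 / 2 := by norm_num
    rw [h5, h6, ENNReal.ofReal_rpow_of_pos (by positivity), ← ENNReal.ofReal_mul (by positivity),
      ← Real.rpow_natCast r 5, ← Real.rpow_mul hr.le, ← Real.rpow_add hr]
    norm_num
  rw [e4, one_mul]



end Pool.Agent.Helper960.Cap.C1
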