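import Pool.Agent.Helper960.Cap.Base

open MeasureTheory Filter Topology Set
open scoped ContDiff ENNReal

namespace Pool.Agent.Helper960.Cap.C2

open Pool.Agent.Helper960.Cap

theorem conv_smooth (Φ : E → ℂ) (hl : LocallyIntegrable Φ) (φ : E → ℂ) (hφ : ContDiff ℝ ∞ φ)
    (hc : HasCompactSupport φ) : ContDiff ℝ ∞ (fun y => ∫ x, Φ (x - y) * φ x) := by
  have hg : ContDiff ℝ ∞ (fun w : E => φ (-w)) := hφ.comp contDiff_neg
  have hgc : HasCompactSupport (fun w : E => φ (-w)) := hc.comp_homeomorph (Homeomorph.neg E)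
  have h1 : ContDiff ℝ ∞ (MeasureTheory.convolution Φ (fun w : E => φ (-w)) (ContinuousLinearMap.mul ℝ ℂ) volume) :=
    hgc.contDiff_convolution_right (ContinuousLinearMap.mul ℝ ℂ) hl hg
  have h2 : (fun y => ∫ x, Φ (x - y) * φ x) =
      (MeasureTheory.convolution Φ (fun w : E => φ (-w)) (ContinuousLinearMap.mul ℝ ℂ) volume) ∘ (fun y => -y) := by
    funext y
    simp only [Function.comp, MeasureTheory.convolution, ContinuousLinearMap.mul_apply']
    rw [← integral_add_right_eq_self (fun x => Φ (x - y) * φ x) y]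
    congr 1
    funext t
    congr 2
    · abel
    · abel
  rw [h2]
  exact h1.comp contDiff_neg


end Pool.Agent.Helper960.Cap.C2
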