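import Pool.Agent.Helper960.Cap.F1

open MeasureTheory Filter Topology Set
open scoped ContDiff ENNReal

namespace Pool.Agent.Helper960.Cap.D1

open Pool.Agent.Helper960.Cap

lemma pd_trans (i : Fin 5) (f : E → ℂ) (y : E) :
    pd i (fun x => f (x + y)) = fun x => pd i f (x + y) := by
  funext x
  simp only [pd]
  rw [fderiv_comp_add_right]

lemma lap_trans (f : E → ℂ) (y : E) (x : E) : lap (fun x => f (x + y)) x = lap f (x + y) := by
  simp only [lap]
  apply Finset.sum_congr rfl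
  intro i _
  rw [pd_trans, pd_trans]

theorem bound_ball (Φ : E → ℂ)
    (fund : ∀ φ : E → ℂ, ContDiff ℝ ∞ φ → HasCompactSupport φ → ∫ x, Φ x * lap φ x = φ 0) :
    ∃ C : ℝ, 0 ≤ C ∧ ∀ (L : Set E) (f : (E → ℂ) → ℂ) (u : E → ℂ), L ⊆ Metric.ball 0 1 → IsDist L f →
      IsConv Φ f u → MemLp u 2 volume → eLpNorm u 2 volume ≤ 1 → ‖f 1‖ ≤ C := by
  let b : ContDiffBump (0 : E) := ⟨2, 3, by norm_num, by norm_num⟩
  set ψ : E → ℂ := fun x => ((b x : ℝ) : ℂ) with hψ
  have hψs : ContDiff ℝ ∞ ψ := Complex.ofRealCLM.contDiff.comp b.contDiff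
  have hψc : HasCompactSupport ψ :=
    b.hasCompactSupport.comp_left (g := fun t : ℝ => (t : ℂ)) (by simp)
  have hψ1 : ∀ x ∈ Metric.ball (0 : E) 2, ψ x = 1 := by
    intro x hx
    simp only [hψ]
    rw [b.one_of_mem_closedBall (Metric.ball_subset_closedBall hx)]
    simp
  have hls : ContDiff ℝ ∞ (lap ψ) := F1.contDiff_lap ψ hψs
  have hlc : HasCompactSupport (lap ψ) := F1.hcs_lap ψ hψc
  have hmem : MemLp (lap ψ) 2 volume := hls.continuous.memLp_of_hasCompactSupport hlc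
  refine ⟨(eLpNorm (lap ψ) 2 volume).toReal, ENNReal.toReal_nonneg, ?_⟩
  intro L f u hL hf hu hum hun
  have h1s : ContDiff ℝ ∞ (fun x => 1 - ψ x) := contDiff_const.sub hψs
  have e1 : f 1 = f ψ := by
    have h := hf.add ψ (fun x => 1 - ψ x) hψs h1s
    have e : ψ + (fun x => 1 - ψ x) = 1 := by funext x; simp
    rw [e] at h
    rw [h, hf.supp _ h1s, add_zero]
    rw [Set.disjoint_left]
    intro x hx hx2
    have hxb : x ∈ Metric.ball (0 : E) 2 := Metric.ball_subset_ball (by norm_num) (hL hx)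
    have hsub : tsupport (fun x => 1 - ψ x) ⊆ (Metric.ball (0 : E) 2)ᶜ := by
      apply closure_minimal _ Metric.isOpen_ball.isClosed_compl
      intro y hy hyb
      apply hy
      show 1 - ψ y = 0
      rw [hψ1 y hyb, sub_self]
    exact hsub hx2 hxb
  have e2 : (fun y => ∫ x, Φ (x - y) * lap ψ x) = ψ := by
    funext y
    rw [← integral_add_right_eq_self _ y]
    have e3 : (fun x => Φ (x + y - y) * lap ψ (x + y)) = fun x => Φ x * lap (fun z => ψ (z + y)) x := by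
      funext x
      rw [lap_trans, add_sub_cancel_right]
    rw [e3, fund (fun z => ψ (z + y)) (hψs.comp (by fun_prop)) ?_, zero_add]
    exact hψc.comp_homeomorph (Homeomorph.addRight y)
  have e4 : f ψ = ∫ x, u x * lap ψ x := by
    rw [hu (lap ψ) hls hlc, e2]
  rw [e1, e4]
  have h5 : ‖∫ x, u x * lap ψ x‖ₑ ≤ eLpNorm u 2 volume * eLpNorm (lap ψ) 2 volume := by
    have h1 : ‖∫ x, u x * lap ψ x‖ₑ ≤ ∫⁻ x, ‖u x * lap ψ x‖ₑ := enorm_integral_le_lintegral_enorm _
    have h2 := eLpNorm_smul_le_mul_eLpNorm (p := 2) (q := 2) (r := 1) hmem.1 hum.1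
    rw [eLpNorm_one_eq_lintegral_enorm] at h2
    exact h1.trans (by simpa [smul_eq_mul] using h2)
  have h6 : ‖∫ x, u x * lap ψ x‖ₑ ≤ eLpNorm (lap ψ) 2 volume := by
    refine h5.trans ?_
    calc eLpNorm u 2 volume * eLpNorm (lap ψ) 2 volume ≤ 1 * eLpNorm (lap ψ) 2 volume := by gcongr
      _ = _ := one_mul _
  rw [← ofReal_norm] at h6
  exact (ENNReal.ofReal_le_iff_le_toReal hmem.2.ne).1 h6

end Pool.Agent.Helper960.Cap.D1
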