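import Mathlib

open MeasureTheory Filter Topology Set
open scoped ContDiff ENNReal

namespace Pool.Agent.Helper960.Cap

/-- the space `ℝ⁵` with its Euclidean norm -/
abbrev E := EuclideanSpace ℝ (Fin 5)

/-- the partial derivative `∂_i` -/
noncomputable def pd (i : Fin 5) (f : E → ℂ) : E → ℂ :=
  fun x => fderiv ℝ f x (EuclideanSpace.single i 1)

/-- the Laplace operator -/
noncomputable def lap (f : E → ℂ) : E → ℂ := fun x => ∑ i, pd i (pd i f) x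

/-- `Φ` is a fundamental solution of the Laplace operator, smooth off the origin and
homogeneous of degree `2 - 5 = -3`. -/
structure IsFund (Φ : E → ℂ) : Prop where
  smooth : ContDiffOn ℝ ∞ Φ {0}ᶜ
  locInt : LocallyIntegrable Φ
  hom : ∀ (t : ℝ) (x : E), 0 < t → x ≠ 0 → Φ (t • x) = ((t ^ 3)⁻¹ : ℝ) * Φ x
  fund : ∀ φ : E → ℂ, ContDiff ℝ ∞ φ → HasCompactSupport φ → ∫ x, Φ x * lap φ x = φ 0

/-- `f` is (the extension to all smooth functions of) a distribution whose support is contained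
in the compact set `L`. -/
structure IsDist (L : Set E) (f : (E → ℂ) → ℂ) : Prop where
  compact : IsCompact L
  add : ∀ φ ψ : E → ℂ, ContDiff ℝ ∞ φ → ContDiff ℝ ∞ ψ → f (φ + ψ) = f φ + f ψ
  smul : ∀ (c : ℂ) (φ : E → ℂ), ContDiff ℝ ∞ φ → f (c • φ) = c * f φ
  cont : ∃ (L' : Set E) (N : ℕ) (C : ℝ), IsCompact L' ∧ ∀ φ : E → ℂ, ContDiff ℝ ∞ φ →
    ∀ A : ℝ, 0 ≤ A → (∀ m ≤ N, ∀ x ∈ L', ‖iteratedFDeriv ℝ m φ x‖ ≤ A) → ‖f φ‖ ≤ C * A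
  supp : ∀ φ : E → ℂ, ContDiff ℝ ∞ φ → Disjoint L (tsupport φ) → f φ = 0

/-- the distribution `Φ * f` is the function `u` -/
def IsConv (Φ : E → ℂ) (f : (E → ℂ) → ℂ) (u : E → ℂ) : Prop :=
  ∀ φ : E → ℂ, ContDiff ℝ ∞ φ → HasCompactSupport φ →
    ∫ x, u x * φ x = f (fun y => ∫ x, Φ (x - y) * φ x)

/-- the space `L²_loc` -/
def L2loc (u : E → ℂ) : Prop := ∀ L : Set E, IsCompact L → MemLp u 2 (volume.restrict L)

/-- the closure of `C^∞` in `L²_loc` -/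
def L2tilde (u : E → ℂ) : Prop := L2loc u ∧ ∀ L : Set E, IsCompact L → ∀ ε : ℝ≥0∞, 0 < ε →
  ∃ g : E → ℂ, ContDiff ℝ ∞ g ∧ eLpNorm (u - g) 2 (volume.restrict L) < ε

/-- the capacity `c` -/
noncomputable def cap (Φ : E → ℂ) (σ : Set E) : ℝ≥0∞ :=
  sSup {t | ∃ (f : (E → ℂ) → ℂ) (L : Set E) (u : E → ℂ), L ⊆ σ ∧ IsDist L f ∧ IsConv Φ f u ∧
    L2loc u ∧ eLpNorm u 2 volume ≤ 1 ∧ t = ‖f 1‖ₑ}

/-- the capacity `c̃` -/
noncomputable def capT (Φ : E → ℂ) (σ : Set E) : ℝ≥0∞ :=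
  sSup {t | ∃ (f : (E → ℂ) → ℂ) (L : Set E) (u : E → ℂ), L ⊆ σ ∧ IsDist L f ∧ IsConv Φ f u ∧
    L2tilde u ∧ eLpNorm u 2 volume ≤ 1 ∧ t = ‖f 1‖ₑ}

/-- condition (3) -/
def Cond3 (Φ : E → ℂ) (K : Set E) : Prop :=
  ∀ x ∈ frontier K, 0 < liminf (fun δ : ℝ =>
    cap Φ (Metric.ball x δ \ K) / capT Φ (Metric.ball x δ \ interior K)) (𝓝[>] 0)

/-- the set `S(K)`, in `L²(K)` -/
def SK (K : Set E) : Set (Lp ℂ 2 (volume.restrict K)) :=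
  {F | ∃ h : E → ℂ, ContDiff ℝ ∞ h ∧ (∃ O : Set E, IsOpen O ∧ K ⊆ O ∧ ∀ x ∈ O, lap h x = 0) ∧
    F =ᵐ[volume.restrict K] h}

/-- the set `S(K°) ∩ L̃²(K)`, in `L²(K)` -/
def RK (K : Set E) : Set (Lp ℂ 2 (volume.restrict K)) :=
  {F | ∃ f : E → ℂ, L2tilde f ∧ ContDiffOn ℝ ∞ f (interior K) ∧
    (∀ x ∈ interior K, lap f x = 0) ∧ F =ᵐ[volume.restrict K] f}

/-- condition (1) -/
def Cond1 (K : Set E) : Prop := closure (SK K) = RK K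

end Pool.Agent.Helper960.Cap
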