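import Pool.Agent.Helper960.Cap.Base

open MeasureTheory Filter Topology Set
open scoped ContDiff ENNReal

namespace Pool.Agent.Helper960.Cap.E1

open Pool.Agent.Helper960.Cap

theorem kkq_cont (a : ℝ × ℝ) :
    Continuous (fun x : E => x 0 ^ 2 + (x 1 - a.1) ^ 2 + (x 2 - a.2) ^ 2) := by
  fun_prop

theorem kkU_open (a : ℝ × ℝ) (ρ : ℝ) : IsOpen (U a ρ) :=
  isOpen_lt (kkq_cont a) continuous_const

theorem KK_closed (a : ℕ → ℝ × ℝ) (ρ : ℕ → ℝ) : IsClosed (KK a ρ) := by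
  unfold KK
  apply IsClosed.sdiff
  · have : {x : E | ∀ i, |x i| ≤ 1} = ⋂ i, {x : E | |x i| ≤ 1} := by
      ext x; simp
    rw [this]
    refine isClosed_iInter fun i => ?_
    exact isClosed_le (by fun_prop) continuous_const
  · exact isOpen_iUnion fun k => kkU_open _ _

theorem KK_compact (a : ℕ → ℝ × ℝ) (ρ : ℕ → ℝ) : IsCompact (KK a ρ) := by
  apply Metric.isCompact_of_isClosed_isBounded (KK_closed a ρ)
  apply (Metric.isBounded_closedBall (x := (0 : E)) (r := 5)).subset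
  rintro x ⟨hx, _⟩
  rw [mem_closedBall_zero_iff]
  have h1 : ∀ i, |x i| ≤ 1 := hx
  have h2 : ‖x‖ ^ 2 ≤ 5 := by
    rw [EuclideanSpace.norm_sq_eq]
    calc ∑ i, ‖x i‖ ^ 2 ≤ ∑ _i : Fin 5, (1 : ℝ) := by
          apply Finset.sum_le_sum
          intro i _
          rw [Real.norm_eq_abs]
          exact pow_le_one₀ (abs_nonneg _) (h1 i)
      _ = 5 := by simp
  nlinarith [norm_nonneg x]

/-- move the coordinates 1, 2 -/
noncomputable def kkmv (x : E) (b : ℝ × ℝ) : E :=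
  x + (b.1 - x 1) • EuclideanSpace.single 1 (1 : ℝ) + (b.2 - x 2) • EuclideanSpace.single 2 (1 : ℝ)

theorem kkmv_0 (x : E) (b : ℝ × ℝ) : kkmv x b 0 = x 0 := by simp [kkmv]
theorem kkmv_1 (x : E) (b : ℝ × ℝ) : kkmv x b 1 = b.1 := by simp [kkmv]
theorem kkmv_2 (x : E) (b : ℝ × ℝ) : kkmv x b 2 = b.2 := by simp [kkmv]

theorem KK_interior (a : ℕ → ℝ × ℝ) (ρ : ℕ → ℝ) (ha : DenseRange a) (hρ : ∀ k, 0 < ρ k) :
    ∀ x ∈ interior (KK a ρ), x 0 ≠ 0 := by
  intro x hx h0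
  have hc : Continuous (kkmv x) := by
    unfold kkmv
    fun_prop
  have hself : kkmv x (x 1, x 2) = x := by
    simp [kkmv]
  have hop : IsOpen (kkmv x ⁻¹' interior (KK a ρ)) := isOpen_interior.preimage hc
  obtain ⟨k, hk⟩ := ha.exists_mem_open hop ⟨(x 1, x 2), by
    show kkmv x (x 1, x 2) ∈ interior (KK a ρ)
    rw [hself]; exact hx⟩
  have h1 : kkmv x (a k) ∈ KK a ρ := interior_subset hk
  apply h1.2
  rw [mem_iUnion]
  refine ⟨k, ?_⟩
  show kkmv x (a k) 0 ^ 2 + (kkmv x (a k) 1 - (a k).1) ^ 2 + (kkmv x (a k) 2 - (a k).2) ^ 2 < ρ k ^ 2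
  rw [kkmv_0, kkmv_1, kkmv_2, h0]
  have h2 : 0 < ρ k ^ 2 := pow_pos (hρ k) 2
  simpa using h2

theorem kkpt_norm {p : ℝ × ℝ} (hp : p ∈ Sq) : ‖pt p‖ ≤ 2 := by
  unfold pt
  refine (norm_add_le _ _).trans ?_
  rw [PiLp.norm_single, PiLp.norm_single, Real.norm_eq_abs, Real.norm_eq_abs]
  obtain ⟨⟨h1, h2⟩, ⟨h3, h4⟩⟩ := hp
  have h5 : |p.1| ≤ 1 := abs_le.2 ⟨h1, h2⟩
  have h6 : |p.2| ≤ 1 := abs_le.2 ⟨h3, h4⟩
  linarith

theorem kkpt_coord {p : ℝ × ℝ} (hp : p ∈ Sq) (i : Fin 5) : |pt p i| ≤ 1 := by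
  obtain ⟨⟨h1, h2⟩, ⟨h3, h4⟩⟩ := hp
  have h5 : |p.1| ≤ 1 := abs_le.2 ⟨h1, h2⟩
  have h6 : |p.2| ≤ 1 := abs_le.2 ⟨h3, h4⟩
  unfold pt
  fin_cases i <;> simp <;> assumption

theorem kk_sub {K : Set E} {x b : E} {δ : ℝ} (hδ : 0 < δ) (hb : ‖b - x‖ ≤ δ / 2)
    (h : ∀ p ∈ Sq, b + (δ / 8) • pt p ∉ K) :
    (fun y => b + (δ / 8) • y) '' (pt '' Sq) ⊆ Metric.ball x δ \ K := by
  rintro _ ⟨_, ⟨p, hp, rfl⟩, rfl⟩
  refine ⟨?_, h p hp⟩
  rw [mem_ball_iff_norm]
  have e : b + (δ / 8) • pt p - x = (b - x) + (δ / 8) • pt p := by abel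
  show ‖b + (δ / 8) • pt p - x‖ < δ
  rw [e]
  refine (norm_add_le _ _).trans_lt ?_
  rw [norm_smul, Real.norm_of_nonneg (by positivity)]
  have h1 := kkpt_norm hp
  have h2 : δ / 8 * ‖pt p‖ ≤ δ / 8 * 2 := mul_le_mul_of_nonneg_left h1 (by positivity)
  linarith

theorem kk_notin {a : ℕ → ℝ × ℝ} {ρ : ℕ → ℝ} {y : E} (k : ℕ)
    (h : y 0 ^ 2 + (y 1 - (a k).1) ^ 2 + (y 2 - (a k).2) ^ 2 < ρ k ^ 2) : y ∉ KK a ρ := by
  intro hy
  apply hy.2
  rw [mem_iUnion]
  exact ⟨k, h⟩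

theorem kkpt_0 (p : ℝ × ℝ) : pt p 0 = 0 := by simp [pt]
theorem kkpt_1 (p : ℝ × ℝ) : pt p 1 = 0 := by simp [pt]
theorem kkpt_2 (p : ℝ × ℝ) : pt p 2 = 0 := by simp [pt]

theorem KK_frontier (a : ℕ → ℝ × ℝ) (ρ : ℕ → ℝ) (ha : DenseRange a) (hρ : ∀ k, 0 < ρ k)
    (hρ0 : Tendsto ρ atTop (𝓝 0)) (x : E) (hx : x ∈ frontier (KK a ρ)) :
    ∀ᶠ δ : ℝ in 𝓝[>] 0, ∃ b : E, (fun y => b + (δ / 8) • y) '' (pt '' Sq) ⊆ Metric.ball x δ \ KK a ρ := by
  have hxK : x ∈ KK a ρ := (KK_closed a ρ).frontier_subset hx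
  have hxi : x ∉ interior (KK a ρ) := hx.2
  have hx1 : ∀ i, |x i| ≤ 1 := hxK.1
  by_cases hA : ∃ i, |x i| = 1
  · -- case A
    obtain ⟨i, hi⟩ := hA
    filter_upwards [self_mem_nhdsWithin] with δ hδ
    have hδ0 : 0 < δ := hδ
    refine ⟨x + EuclideanSpace.single i (δ / 2 * x i), kk_sub hδ0 ?_ ?_⟩
    · rw [add_sub_cancel_left, PiLp.norm_single, norm_mul, Real.norm_eq_abs (x i), hi,
        mul_one, Real.norm_of_nonneg (by positivity)]
    · intro p hp hcon
      have h1 : |(x + EuclideanSpace.single i (δ / 2 * x i) + (δ / 8) • pt p) i| ≤ 1 := hcon.1 i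
      have h2 : (x + EuclideanSpace.single i (δ / 2 * x i) + (δ / 8) • pt p) i =
          x i + δ / 2 * x i + δ / 8 * pt p i := by
        simp
      rw [h2] at h1
      have h3 := kkpt_coord hp i
      rw [abs_le] at h1 h3
      rcases (abs_eq (by norm_num : (0 : ℝ) ≤ 1)).1 hi with h4 | h4
      · rw [h4] at h1
        nlinarith [h1.2, h3.1]
      · rw [h4] at h1
        nlinarith [h1.1, h3.2]
  · by_cases hB : x 0 = 0
    · -- case B
      filter_upwards [self_mem_nhdsWithin] with δ hδ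
      have hδ0 : 0 < δ := hδ
      obtain ⟨k, hk⟩ := ha.exists_dist_lt (x 1, x 2) (show 0 < δ / 4 by positivity)
      rw [Prod.dist_eq, max_lt_iff] at hk
      have hk1 : |x 1 - (a k).1| < δ / 4 := hk.1
      have hk2 : |x 2 - (a k).2| < δ / 4 := hk.2
      refine ⟨kkmv x (a k), kk_sub hδ0 ?_ ?_⟩
      · have e : kkmv x (a k) - x = ((a k).1 - x 1) • EuclideanSpace.single 1 (1 : ℝ) +
            ((a k).2 - x 2) • EuclideanSpace.single 2 (1 : ℝ) := by
          unfold kkmv; abel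
        rw [e]
        refine (norm_add_le _ _).trans ?_
        rw [norm_smul, norm_smul, PiLp.norm_single, PiLp.norm_single,
          norm_one, mul_one, mul_one, Real.norm_eq_abs, Real.norm_eq_abs, abs_sub_comm,
          abs_sub_comm (a k).2]
        linarith
      · intro p hp
        apply kk_notin k
        have e0 : (kkmv x (a k) + (δ / 8) • pt p) 0 = 0 := by
          rw [PiLp.add_apply, PiLp.smul_apply, kkpt_0, kkmv_0, hB]; simp
        have e1 : (kkmv x (a k) + (δ / 8) • pt p) 1 = (a k).1 := by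
          rw [PiLp.add_apply, PiLp.smul_apply, kkpt_1, kkmv_1]; simp
        have e2 : (kkmv x (a k) + (δ / 8) • pt p) 2 = (a k).2 := by
          rw [PiLp.add_apply, PiLp.smul_apply, kkpt_2, kkmv_2]; simp
        rw [e0, e1, e2]
        have h2 : 0 < ρ k ^ 2 := pow_pos (hρ k) 2
        simpa using h2
    · -- case C
      push Not at hA
      have hx1' : ∀ i, |x i| < 1 := fun i => lt_of_le_of_ne (hx1 i) (hA i)
      have hcl : ∃ k, x ∈ closure (U (a k) (ρ k)) := by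
        by_contra hcon
        push Not at hcon
        apply hxi
        have hx0 : 0 < |x 0| := abs_pos.2 hB
        obtain ⟨K, hK⟩ := Filter.eventually_atTop.1 (hρ0.eventually_lt_const (half_pos hx0))
        rw [mem_interior]
        refine ⟨((⋂ i, {y : E | |y i| < 1}) ∩ {y : E | |x 0| / 2 < |y 0|}) ∩
          ⋂ k : Fin K, (closure (U (a k) (ρ k)))ᶜ, ?_, ?_, ?_⟩
        · rintro y ⟨⟨hy1, hy2⟩, hy3⟩
          rw [mem_iInter] at hy1 hy3
          refine ⟨fun i => le_of_lt (hy1 i), ?_⟩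
          rw [mem_iUnion]
          rintro ⟨k, hk⟩
          rcases Nat.lt_or_ge k K with h | h
          · exact hy3 ⟨k, h⟩ (subset_closure hk)
          · have h4 := hK k h
            have h5 : y 0 ^ 2 + (y 1 - (a k).1) ^ 2 + (y 2 - (a k).2) ^ 2 < ρ k ^ 2 := hk
            have h6 : |y 0| ^ 2 < ρ k ^ 2 := by
              rw [sq_abs]
              nlinarith [sq_nonneg (y 1 - (a k).1), sq_nonneg (y 2 - (a k).2)]
            have h7 : |y 0| < ρ k := lt_of_pow_lt_pow_left₀ 2 (hρ k).le h6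
            have h8 : |x 0| / 2 < |y 0| := hy2
            linarith
        · refine IsOpen.inter (IsOpen.inter ?_ ?_) ?_
          · exact isOpen_iInter_of_finite fun i => isOpen_lt (by fun_prop) continuous_const
          · exact isOpen_lt continuous_const (by fun_prop)
          · exact isOpen_iInter_of_finite fun k => isClosed_closure.isOpen_compl
        · refine ⟨⟨?_, ?_⟩, ?_⟩
          · rw [mem_iInter]; exact hx1'
          · show |x 0| / 2 < |x 0|
            linarith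
          · rw [mem_iInter]; exact fun k => hcon k
      obtain ⟨k, hk⟩ := hcl
      have hq1 : x 0 ^ 2 + (x 1 - (a k).1) ^ 2 + (x 2 - (a k).2) ^ 2 ≤ ρ k ^ 2 := by
        have h1 : closure (U (a k) (ρ k)) ⊆
            {x : E | x 0 ^ 2 + (x 1 - (a k).1) ^ 2 + (x 2 - (a k).2) ^ 2 ≤ ρ k ^ 2} := by
          apply closure_minimal
          · intro y hy
            have hy' : y 0 ^ 2 + (y 1 - (a k).1) ^ 2 + (y 2 - (a k).2) ^ 2 < ρ k ^ 2 := hy
            exact le_of_lt hy'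
          · exact isClosed_le (kkq_cont (a k)) continuous_const
        exact h1 hk
      have hq2 : ρ k ^ 2 ≤ x 0 ^ 2 + (x 1 - (a k).1) ^ 2 + (x 2 - (a k).2) ^ 2 := by
        by_contra hcon
        push Not at hcon
        exact kk_notin k hcon hxK
      have hq : x 0 ^ 2 + (x 1 - (a k).1) ^ 2 + (x 2 - (a k).2) ^ 2 = ρ k ^ 2 := le_antisymm hq1 hq2
      have hρk := hρ k
      have hev : ∀ᶠ δ : ℝ in 𝓝[>] 0, δ < ρ k :=
        (Filter.Eventually.filter_mono nhdsWithin_le_nhds (gt_mem_nhds hρk))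
      filter_upwards [self_mem_nhdsWithin, hev] with δ hδ hδk
      have hδ0 : 0 < δ := hδ
      set v : E := EuclideanSpace.single 0 (x 0) + EuclideanSpace.single 1 (x 1 - (a k).1) +
        EuclideanSpace.single 2 (x 2 - (a k).2) with hv
      have hv0 : v 0 = x 0 := by simp [hv]
      have hv1 : v 1 = x 1 - (a k).1 := by simp [hv]
      have hv2 : v 2 = x 2 - (a k).2 := by simp [hv]
      have hv3 : v 3 = 0 := by simp [hv]
      have hv4 : v 4 = 0 := by simp [hv]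
      have hvn : ‖v‖ = ρ k := by
        have h1 : ‖v‖ ^ 2 = ρ k ^ 2 := by
          rw [EuclideanSpace.norm_sq_eq, Fin.sum_univ_five]
          simp only [Real.norm_eq_abs, sq_abs]
          rw [hv0, hv1, hv2, hv3, hv4, ← hq]
          ring
        exact (pow_left_inj₀ (norm_nonneg _) hρk.le (by norm_num)).1 h1
      refine ⟨x - (δ / 2 / ρ k) • v, kk_sub hδ0 ?_ ?_⟩
      · rw [sub_sub_cancel_left, norm_neg, norm_smul, hvn, Real.norm_of_nonneg (by positivity),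
          div_mul_cancel₀ _ hρk.ne']
      · intro p hp
        apply kk_notin k
        have e0 : (x - (δ / 2 / ρ k) • v + (δ / 8) • pt p) 0 = (1 - δ / 2 / ρ k) * x 0 := by
          rw [PiLp.add_apply, PiLp.sub_apply, PiLp.smul_apply, PiLp.smul_apply, kkpt_0, hv0]
          simp only [smul_eq_mul]; ring
        have e1 : (x - (δ / 2 / ρ k) • v + (δ / 8) • pt p) 1 - (a k).1 =
            (1 - δ / 2 / ρ k) * (x 1 - (a k).1) := by
          rw [PiLp.add_apply, PiLp.sub_apply, PiLp.smul_apply, PiLp.smul_apply, kkpt_1, hv1]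
          simp only [smul_eq_mul]; ring
        have e2 : (x - (δ / 2 / ρ k) • v + (δ / 8) • pt p) 2 - (a k).2 =
            (1 - δ / 2 / ρ k) * (x 2 - (a k).2) := by
          rw [PiLp.add_apply, PiLp.sub_apply, PiLp.smul_apply, PiLp.smul_apply, kkpt_2, hv2]
          simp only [smul_eq_mul]; ring
        rw [e0, e1, e2]
        have e3 : ((1 - δ / 2 / ρ k) * x 0) ^ 2 + ((1 - δ / 2 / ρ k) * (x 1 - (a k).1)) ^ 2 +
            ((1 - δ / 2 / ρ k) * (x 2 - (a k).2)) ^ 2 = (1 - δ / 2 / ρ k) ^ 2 * ρ k ^ 2 := by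
          rw [← hq]; ring
        rw [e3]
        have h1 : 0 < δ / 2 / ρ k := by positivity
        have h2 : δ / 2 / ρ k < 1 := by
          rw [div_lt_one hρk]; linarith
        have h3 : (1 - δ / 2 / ρ k) ^ 2 < 1 := by nlinarith
        have h4 : 0 < ρ k ^ 2 := by positivity
        nlinarith



end Pool.Agent.Helper960.Cap.E1
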