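import Pool.Agent.Helper960.Cap.Base

open MeasureTheory Filter Topology Set
open scoped ContDiff ENNReal

namespace Pool.Agent.Helper960.Cap.F1

open Pool.Agent.Helper960.Cap

theorem lapl_pd_contDiff {f : E → ℂ} (hf : ContDiff ℝ ∞ f) (i : Fin 5) : ContDiff ℝ ∞ (pd i f) :=
  (hf.fderiv_right (m := ∞) (by simp)).clm_apply contDiff_const

theorem lapl_diff {f : E → ℂ} (hf : ContDiff ℝ ∞ f) : Differentiable ℝ f :=
  hf.differentiable (by simp)

theorem lapl_pd_mul {f g : E → ℂ} (hf : ContDiff ℝ ∞ f) (hg : ContDiff ℝ ∞ g) (i : Fin 5) (x : E) :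
    pd i (fun x => f x * g x) x = pd i f x * g x + f x * pd i g x := by
  unfold pd
  rw [fderiv_fun_mul (lapl_diff hf x) (lapl_diff hg x)]
  simp
  ring

theorem lapl_pd_add {f g : E → ℂ} (hf : ContDiff ℝ ∞ f) (hg : ContDiff ℝ ∞ g) (i : Fin 5) (x : E) :
    pd i (fun x => f x + g x) x = pd i f x + pd i g x := by
  unfold pd
  rw [fderiv_fun_add (lapl_diff hf x) (lapl_diff hg x)]
  simp

theorem lapl_pd_sub {f g : E → ℂ} (hf : ContDiff ℝ ∞ f) (hg : ContDiff ℝ ∞ g) (i : Fin 5) (x : E) :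
    pd i (fun x => f x - g x) x = pd i f x - pd i g x := by
  unfold pd
  rw [fderiv_fun_sub (lapl_diff hf x) (lapl_diff hg x)]
  simp

/-- Leibniz rule for the Laplacian -/
theorem lap_mul (f g : E → ℂ) (hf : ContDiff ℝ ∞ f) (hg : ContDiff ℝ ∞ g) (x : E) :
    lap (fun x => f x * g x) x = f x * lap g x + 2 * ∑ i, pd i f x * pd i g x + lap f x * g x := by
  unfold lap
  rw [Finset.mul_sum, Finset.mul_sum, Finset.sum_mul, ← Finset.sum_add_distrib,
    ← Finset.sum_add_distrib]
  refine Finset.sum_congr rfl fun i _ => ?_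
  have h1 : pd i (fun x => f x * g x) = fun x => pd i f x * g x + f x * pd i g x :=
    funext fun x => lapl_pd_mul hf hg i x
  rw [h1, lapl_pd_add ((lapl_pd_contDiff hf i).mul hg) (hf.mul (lapl_pd_contDiff hg i)),
    lapl_pd_mul (lapl_pd_contDiff hf i) hg, lapl_pd_mul hf (lapl_pd_contDiff hg i)]
  ring

theorem lap_sub (f g : E → ℂ) (hf : ContDiff ℝ ∞ f) (hg : ContDiff ℝ ∞ g) (x : E) :
    lap (fun x => f x - g x) x = lap f x - lap g x := by
  unfold lap
  rw [← Finset.sum_sub_distrib]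
  refine Finset.sum_congr rfl fun i _ => ?_
  have h1 : pd i (fun x => f x - g x) = fun x => pd i f x - pd i g x :=
    funext fun x => lapl_pd_sub hf hg i x
  rw [h1, lapl_pd_sub (lapl_pd_contDiff hf i) (lapl_pd_contDiff hg i)]

theorem contDiff_lap (f : E → ℂ) (hf : ContDiff ℝ ∞ f) : ContDiff ℝ ∞ (lap f) := by
  unfold lap
  exact ContDiff.sum fun i _ => lapl_pd_contDiff (lapl_pd_contDiff hf i) i

theorem lapl_supp_pd (f : E → ℂ) (i : Fin 5) : Function.support (pd i f) ⊆ tsupport f := by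
  intro x hx
  apply support_fderiv_subset ℝ
  intro h
  apply hx
  show fderiv ℝ f x (EuclideanSpace.single i 1) = 0
  rw [h]
  rfl

theorem lapl_tsupp_pd (f : E → ℂ) (i : Fin 5) : tsupport (pd i f) ⊆ tsupport f :=
  closure_minimal (lapl_supp_pd f i) (isClosed_tsupport f)

theorem lapl_supp (f : E → ℂ) : Function.support (lap f) ⊆ tsupport f := by
  intro x hx
  by_contra hne
  apply hx
  unfold lap
  refine Finset.sum_eq_zero fun i _ => ?_
  by_contra h
  exact hne (lapl_tsupp_pd f i (lapl_supp_pd (pd i f) i h))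

theorem hcs_lap (f : E → ℂ) (hf : HasCompactSupport f) : HasCompactSupport (lap f) :=
  hf.mono' (lapl_supp f)

theorem tsupport_lap (f : E → ℂ) : tsupport (lap f) ⊆ tsupport f :=
  closure_minimal (lapl_supp f) (isClosed_tsupport f)

/-- a compactly supported smooth function vanishing on a hyperplane is bounded by a multiple of the distance -/
theorem lip_bound (W : E → ℂ) (hW : ContDiff ℝ ∞ W) (hc : HasCompactSupport W) (h0 : ∀ x : E, x 0 = 0 → W x = 0) :
    ∃ C : ℝ, 0 ≤ C ∧ ∀ x : E, ‖W x‖ ≤ C * |x 0| := by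
  obtain ⟨K, hK⟩ := ContDiff.lipschitzWith_of_hasCompactSupport hc hW (by simp)
  refine ⟨K, K.2, fun x => ?_⟩
  have h1 : W (x - EuclideanSpace.single 0 (x 0)) = 0 := h0 _ (by simp)
  have h2 := hK.dist_le_mul x (x - EuclideanSpace.single 0 (x 0))
  rw [h1, dist_zero_right, dist_eq_norm, sub_sub_cancel, EuclideanSpace.norm_single,
    Real.norm_eq_abs] at h2
  exact h2


end Pool.Agent.Helper960.Cap.F1
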