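import Pool.Agent.Helper960.Cap.Base

open MeasureTheory Filter Topology Set
open scoped ContDiff ENNReal

namespace Pool.Agent.Helper960.Cap.F2

open Pool.Agent.Helper960.Cap

/-- profile -/
noncomputable def etaC (t : ℝ) : ℝ := 1 - Real.smoothTransition ((t - 1) / 3)

theorem etaC_smooth : ContDiff ℝ ∞ etaC := by
  unfold etaC
  exact contDiff_const.sub (Real.smoothTransition.contDiff.comp
    ((contDiff_id.sub contDiff_const).div_const 3))

theorem etaC_one {t : ℝ} (h : t ≤ 1) : etaC t = 1 := by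
  unfold etaC
  rw [Real.smoothTransition.zero_of_nonpos (by linarith), sub_zero]

theorem etaC_zero {t : ℝ} (h : 4 ≤ t) : etaC t = 0 := by
  unfold etaC
  rw [Real.smoothTransition.one_of_one_le (by linarith), sub_self]

theorem etaC_abs (t : ℝ) : |etaC t| ≤ 1 := by
  unfold etaC
  have h1 := Real.smoothTransition.le_one ((t - 1) / 3)
  have h2 := Real.smoothTransition.nonneg ((t - 1) / 3)
  rw [abs_le]; constructor <;> linarith

theorem deriv_smooth_aux {f : ℝ → ℝ} (hf : ContDiff ℝ ∞ f) : ContDiff ℝ ∞ (deriv f) :=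
  (contDiff_infty_iff_deriv.mp hf).2

theorem deriv_right_aux {f : ℝ → ℝ} (hf : ContDiff ℝ ∞ f) (c : ℝ) (h : ∀ t, 4 ≤ t → f t = c) :
    ∀ t, 4 ≤ t → deriv f t = 0 := by
  have hc : Continuous (deriv f) := (deriv_smooth_aux hf).continuous
  have hcl : IsClosed {t | deriv f t = 0} := isClosed_eq hc continuous_const
  have hsub : Ioi (4 : ℝ) ⊆ {t | deriv f t = 0} := by
    intro t ht
    have he : f =ᶠ[𝓝 t] fun _ => c := by
      filter_upwards [Ioi_mem_nhds ht] with s hs using h s (le_of_lt hs)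
    show deriv f t = 0
    rw [he.deriv_eq, deriv_const]
  have := hcl.closure_subset_iff.mpr hsub
  rw [closure_Ioi] at this
  intro t ht
  exact this ht

theorem deriv_left_aux {f : ℝ → ℝ} (hf : ContDiff ℝ ∞ f) (c : ℝ) (h : ∀ t, t ≤ 1 → f t = c) :
    ∀ t, t ≤ 1 → deriv f t = 0 := by
  have hc : Continuous (deriv f) := (deriv_smooth_aux hf).continuous
  have hcl : IsClosed {t | deriv f t = 0} := isClosed_eq hc continuous_const
  have hsub : Iio (1 : ℝ) ⊆ {t | deriv f t = 0} := by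
    intro t ht
    have he : f =ᶠ[𝓝 t] fun _ => c := by
      filter_upwards [Iio_mem_nhds ht] with s hs using h s (le_of_lt hs)
    show deriv f t = 0
    rw [he.deriv_eq, deriv_const]
  have := hcl.closure_subset_iff.mpr hsub
  rw [closure_Iio] at this
  intro t ht
  exact this ht

theorem bound_aux {f : ℝ → ℝ} (hf : Continuous f) (h1 : ∀ t, t ≤ 1 → f t = 0)
    (h4 : ∀ t, 4 ≤ t → f t = 0) : ∃ B : ℝ, 0 ≤ B ∧ ∀ t, |f t| ≤ B := by
  obtain ⟨B, hB⟩ := (isCompact_Icc (a := (1 : ℝ)) (b := 4)).exists_bound_of_continuousOn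
    hf.continuousOn
  refine ⟨max B 0, le_max_right _ _, fun t => ?_⟩
  rcases le_total t 1 with h | h
  · rw [h1 t h, abs_zero]; exact le_max_right _ _
  · rcases le_total t 4 with h' | h'
    · exact (hB t ⟨h, h'⟩).trans (le_max_left _ _)
    · rw [h4 t h', abs_zero]; exact le_max_right _ _

/-- the quadratic form -/
def qq (a : ℝ × ℝ) (x : E) : ℝ := x 0 ^ 2 + (x 1 - a.1) ^ 2 + (x 2 - a.2) ^ 2

/-- its half gradient -/
def zz (a : ℝ × ℝ) (i : Fin 5) (x : E) : ℝ := ![x 0, x 1 - a.1, x 2 - a.2, 0, 0] i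

/-- its half second derivatives -/
def dl (i : Fin 5) : ℝ := ![1, 1, 1, 0, 0] i

theorem coord_aux (x : E) (t : ℝ) (i j : Fin 5) :
    (x + t • EuclideanSpace.single i (1 : ℝ)) j = x j + t * (if j = i then 1 else 0) := by
  simp

theorem qq_add (a : ℝ × ℝ) (x : E) (t : ℝ) (i : Fin 5) :
    qq a (x + t • EuclideanSpace.single i (1 : ℝ)) = qq a x + 2 * t * zz a i x + t ^ 2 * dl i := by
  unfold qq zz dl
  rw [coord_aux, coord_aux, coord_aux]
  fin_cases i <;> simp <;> ring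

theorem zz_add (a : ℝ × ℝ) (x : E) (t : ℝ) (i : Fin 5) :
    zz a i (x + t • EuclideanSpace.single i (1 : ℝ)) = zz a i x + t * dl i := by
  unfold zz dl
  fin_cases i
  · simp
  · simp; ring
  · simp; ring
  · simp
  · simp

theorem qq_smooth (a : ℝ × ℝ) : ContDiff ℝ ∞ (qq a) := by
  unfold qq
  fun_prop

theorem zz_smooth (a : ℝ × ℝ) (i : Fin 5) : ContDiff ℝ ∞ (zz a i) := by
  unfold zz
  fin_cases i
  · show ContDiff ℝ ∞ fun x : E => x 0
    fun_prop
  · show ContDiff ℝ ∞ fun x : E => x 1 - a.1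
    fun_prop
  · show ContDiff ℝ ∞ fun x : E => x 2 - a.2
    fun_prop
  · exact contDiff_const
  · exact contDiff_const

theorem pd_aux {f : E → ℝ} (hf : ContDiff ℝ ∞ f) (i : Fin 5) (x : E) (d : ℝ)
    (h : HasDerivAt (fun t : ℝ => f (x + t • EuclideanSpace.single i (1 : ℝ))) d 0) :
    pd i (fun x => ((f x : ℝ) : ℂ)) x = (d : ℂ) := by
  have hF : ContDiff ℝ ∞ (fun x => ((f x : ℝ) : ℂ)) := Complex.ofRealCLM.contDiff.comp hf
  have hdiff : DifferentiableAt ℝ (fun x => ((f x : ℝ) : ℂ)) x :=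
    (hF.differentiable (by simp)).differentiableAt
  unfold pd
  rw [← hdiff.lineDeriv_eq_fderiv]
  have h2 : HasLineDerivAt ℝ (fun x => ((f x : ℝ) : ℂ)) (d : ℂ) x
      (EuclideanSpace.single i (1 : ℝ)) := by
    unfold HasLineDerivAt
    exact h.ofReal_comp
  exact h2.lineDeriv

theorem u_deriv (a : ℝ × ℝ) (x : E) (i : Fin 5) (r : ℝ) :
    HasDerivAt (fun t : ℝ => qq a (x + t • EuclideanSpace.single i (1 : ℝ)) / r)
      (2 * zz a i x / r) 0 := by
  have e : (fun t : ℝ => qq a (x + t • EuclideanSpace.single i (1 : ℝ)) / r) =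
      fun t => (qq a x + 2 * t * zz a i x + t ^ 2 * dl i) / r := by
    ext t; rw [qq_add]
  rw [e]
  have k1 : HasDerivAt (fun t : ℝ => 2 * t * zz a i x) (2 * 1 * zz a i x) 0 :=
    ((hasDerivAt_id' (0 : ℝ)).const_mul 2).mul_const (zz a i x)
  have k2 : HasDerivAt (fun t : ℝ => t ^ 2 * dl i) (((2 : ℕ) : ℝ) * (0 : ℝ) ^ (2 - 1) * dl i) 0 :=
    (hasDerivAt_pow 2 (0 : ℝ)).mul_const (dl i)
  have k3 : HasDerivAt (fun t : ℝ => qq a x + 2 * t * zz a i x + t ^ 2 * dl i)
      (2 * 1 * zz a i x + ((2 : ℕ) : ℝ) * (0 : ℝ) ^ (2 - 1) * dl i) 0 :=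
    (k1.const_add (qq a x)).add k2
  have k4 := k3.div_const r
  exact k4.congr_deriv (by simp)

theorem pd_comp (a : ℝ × ℝ) (r : ℝ) {g : ℝ → ℝ} (hg : ContDiff ℝ ∞ g) (i : Fin 5) (x : E) :
    pd i (fun x => ((g (qq a x / r) : ℝ) : ℂ)) x =
      ((deriv g (qq a x / r) * (2 * zz a i x / r) : ℝ) : ℂ) := by
  apply pd_aux (f := fun x => g (qq a x / r))
  · exact hg.comp ((qq_smooth a).div_const r)
  · have h1 := u_deriv a x i r
    have hx0 : qq a (x + (0 : ℝ) • EuclideanSpace.single i (1 : ℝ)) / r = qq a x / r := by simp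
    have h2 : HasDerivAt g (deriv g (qq a x / r))
        (qq a (x + (0 : ℝ) • EuclideanSpace.single i (1 : ℝ)) / r) := by
      rw [hx0]
      exact ((hg.differentiable (by simp)).differentiableAt).hasDerivAt
    exact h2.comp (0 : ℝ) h1

theorem pd_comp2 (a : ℝ × ℝ) (r : ℝ) {g : ℝ → ℝ} (hg : ContDiff ℝ ∞ g) (i : Fin 5) (x : E) :
    pd i (pd i (fun x => ((g (qq a x / r) : ℝ) : ℂ))) x =
      ((deriv (deriv g) (qq a x / r) * (2 * zz a i x / r) * (2 * zz a i x / r) +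
        deriv g (qq a x / r) * (2 * dl i / r) : ℝ) : ℂ) := by
  have e : pd i (fun x => ((g (qq a x / r) : ℝ) : ℂ)) =
      fun x => ((deriv g (qq a x / r) * (2 * zz a i x / r) : ℝ) : ℂ) := by
    ext x; exact pd_comp a r hg i x
  rw [e]
  apply pd_aux (f := fun x => deriv g (qq a x / r) * (2 * zz a i x / r))
  · exact ((deriv_smooth_aux hg).comp ((qq_smooth a).div_const r)).mul
      ((contDiff_const.mul (zz_smooth a i)).div_const r)
  · have h1 := u_deriv a x i r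
    have hx0 : qq a (x + (0 : ℝ) • EuclideanSpace.single i (1 : ℝ)) / r = qq a x / r := by simp
    have h2 : HasDerivAt (deriv g) (deriv (deriv g) (qq a x / r))
        (qq a (x + (0 : ℝ) • EuclideanSpace.single i (1 : ℝ)) / r) := by
      rw [hx0]
      exact (((deriv_smooth_aux hg).differentiable (by simp)).differentiableAt).hasDerivAt
    have h3 := h2.comp (0 : ℝ) h1
    have h4 : HasDerivAt (fun t : ℝ => 2 * zz a i (x + t • EuclideanSpace.single i (1 : ℝ)) / r)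
        (2 * dl i / r) 0 := by
      have e2 : (fun t : ℝ => 2 * zz a i (x + t • EuclideanSpace.single i (1 : ℝ)) / r) =
          fun t => 2 * (zz a i x + t * dl i) / r := by
        ext t; rw [zz_add]
      rw [e2]
      have k1 : HasDerivAt (fun t : ℝ => t * dl i) (1 * dl i) 0 :=
        (hasDerivAt_id' (0 : ℝ)).mul_const (dl i)
      have k2 := ((k1.const_add (zz a i x)).const_mul 2).div_const r
      exact k2.congr_deriv (by ring)
    have h5 := h3.mul h4
    refine h5.congr_deriv ?_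
    simp

theorem cutoff (a : ℝ × ℝ) : ∃ C : ℝ, 0 ≤ C ∧ ∀ ρ : ℝ, 0 < ρ → ∃ φ : E → ℂ, ContDiff ℝ ∞ φ ∧
    (∀ x ∈ U a ρ, φ x = 1) ∧ (∀ x, x ∉ U a (2 * ρ) → φ x = 0 ∧ (∀ i, pd i φ x = 0) ∧ lap φ x = 0) ∧
    (∀ x, ‖φ x‖ ≤ C) ∧ (∀ i x, ‖pd i φ x‖ ≤ C / ρ) ∧ (∀ x, ‖lap φ x‖ ≤ C / ρ ^ 2) := by
  have hs1 := deriv_smooth_aux etaC_smooth
  have r1 := deriv_right_aux etaC_smooth 0 (fun t ht => etaC_zero ht)
  have l1 := deriv_left_aux etaC_smooth 1 (fun t ht => etaC_one ht)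
  have r2 := deriv_right_aux hs1 0 r1
  have l2 := deriv_left_aux hs1 0 l1
  obtain ⟨B1, hB1, hB1'⟩ := bound_aux hs1.continuous l1 r1
  obtain ⟨B2, hB2, hB2'⟩ := bound_aux (deriv_smooth_aux hs1).continuous l2 r2
  refine ⟨1 + 6 * B1 + 16 * B2, by positivity, fun ρ hρ => ?_⟩
  have hρ2 : 0 < ρ ^ 2 := by positivity
  have hlap : ∀ x, lap (fun x => ((etaC (qq a x / ρ ^ 2) : ℝ) : ℂ)) x =
      ((deriv (deriv etaC) (qq a x / ρ ^ 2) * (4 * qq a x / ρ ^ 4) +
        deriv etaC (qq a x / ρ ^ 2) * (6 / ρ ^ 2) : ℝ) : ℂ) := by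
    intro x
    unfold lap
    rw [Finset.sum_congr rfl (fun i _ => pd_comp2 a (ρ ^ 2) etaC_smooth i x), ← Complex.ofReal_sum]
    congr 1
    rw [Fin.sum_univ_five]
    simp only [zz, dl, qq, Matrix.cons_val_zero, Matrix.cons_val_one, Matrix.cons_val]
    field_simp
    ring
  refine ⟨fun x => ((etaC (qq a x / ρ ^ 2) : ℝ) : ℂ), ?_, ?_, ?_, ?_, ?_, ?_⟩
  · exact Complex.ofRealCLM.contDiff.comp (etaC_smooth.comp ((qq_smooth a).div_const _))
  · intro x hx
    have h1 : qq a x < ρ ^ 2 := hx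
    have : etaC (qq a x / ρ ^ 2) = 1 := etaC_one (by rw [div_le_one hρ2]; exact h1.le)
    simp only [this, Complex.ofReal_one]
  · intro x hx
    have h1 : ¬ qq a x < (2 * ρ) ^ 2 := hx
    have h2 : 4 ≤ qq a x / ρ ^ 2 := by
      rw [le_div_iff₀ hρ2]
      push Not at h1
      nlinarith
    refine ⟨?_, ?_, ?_⟩
    · simp only [etaC_zero h2, Complex.ofReal_zero]
    · intro i
      rw [pd_comp a (ρ ^ 2) etaC_smooth i x, r1 _ h2, zero_mul, Complex.ofReal_zero]
    · rw [hlap, r1 _ h2, r2 _ h2, zero_mul, zero_mul, add_zero, Complex.ofReal_zero]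
  · intro x
    rw [Complex.norm_real, Real.norm_eq_abs]
    have := etaC_abs (qq a x / ρ ^ 2)
    linarith
  · intro i x
    rw [pd_comp a (ρ ^ 2) etaC_smooth i x, Complex.norm_real, Real.norm_eq_abs, abs_mul]
    rcases le_or_gt 4 (qq a x / ρ ^ 2) with h2 | h2
    · rw [r1 _ h2, abs_zero, zero_mul]; positivity
    · have h3 : qq a x < 4 * ρ ^ 2 := by rwa [div_lt_iff₀ hρ2] at h2
      have h4 : (zz a i x) ^ 2 ≤ qq a x := by
        unfold zz qq
        fin_cases i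
        · show (x 0) ^ 2 ≤ _
          nlinarith [sq_nonneg (x 1 - a.1), sq_nonneg (x 2 - a.2)]
        · show (x 1 - a.1) ^ 2 ≤ _
          nlinarith [sq_nonneg (x 0), sq_nonneg (x 2 - a.2)]
        · show (x 2 - a.2) ^ 2 ≤ _
          nlinarith [sq_nonneg (x 0), sq_nonneg (x 1 - a.1)]
        · show (0 : ℝ) ^ 2 ≤ _
          nlinarith [sq_nonneg (x 0), sq_nonneg (x 1 - a.1), sq_nonneg (x 2 - a.2)]
        · show (0 : ℝ) ^ 2 ≤ _
          nlinarith [sq_nonneg (x 0), sq_nonneg (x 1 - a.1), sq_nonneg (x 2 - a.2)]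
      have h5 : |zz a i x| ≤ 2 * ρ := abs_le_of_sq_le_sq (by nlinarith) (by positivity)
      have h6 : |2 * zz a i x / ρ ^ 2| ≤ 4 / ρ := by
        rw [abs_div, abs_mul, abs_of_pos (by norm_num : (0 : ℝ) < 2), abs_of_pos hρ2,
          div_le_div_iff₀ hρ2 hρ]
        nlinarith
      calc |deriv etaC (qq a x / ρ ^ 2)| * |2 * zz a i x / ρ ^ 2| ≤ B1 * (4 / ρ) :=
            mul_le_mul (hB1' _) h6 (abs_nonneg _) hB1
        _ = (4 * B1) / ρ := by ring
        _ ≤ (1 + 6 * B1 + 16 * B2) / ρ := by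
            apply div_le_div_of_nonneg_right _ hρ.le
            linarith
  · intro x
    rw [hlap, Complex.norm_real, Real.norm_eq_abs]
    rcases le_or_gt 4 (qq a x / ρ ^ 2) with h2 | h2
    · rw [r1 _ h2, r2 _ h2, zero_mul, zero_mul, add_zero, abs_zero]; positivity
    · have h3 : qq a x < 4 * ρ ^ 2 := by rwa [div_lt_iff₀ hρ2] at h2
      have h0 : 0 ≤ qq a x := by unfold qq; positivity
      have h6 : |4 * qq a x / ρ ^ 4| ≤ 16 / ρ ^ 2 := by
        rw [abs_of_nonneg (by positivity), div_le_div_iff₀ (by positivity) hρ2]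
        nlinarith [mul_nonneg hρ2.le (sub_nonneg.mpr h3.le)]
      have h7 : |6 / ρ ^ 2| = 6 / ρ ^ 2 := abs_of_nonneg (by positivity)
      calc |deriv (deriv etaC) (qq a x / ρ ^ 2) * (4 * qq a x / ρ ^ 4) +
            deriv etaC (qq a x / ρ ^ 2) * (6 / ρ ^ 2)|
          ≤ |deriv (deriv etaC) (qq a x / ρ ^ 2) * (4 * qq a x / ρ ^ 4)| +
            |deriv etaC (qq a x / ρ ^ 2) * (6 / ρ ^ 2)| := abs_add_le _ _
        _ ≤ B2 * (16 / ρ ^ 2) + B1 * (6 / ρ ^ 2) := by
            rw [abs_mul, abs_mul, h7]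
            exact add_le_add (mul_le_mul (hB2' _) h6 (abs_nonneg _) hB2)
              (mul_le_mul_of_nonneg_right (hB1' _) (by positivity))
        _ = (6 * B1 + 16 * B2) / ρ ^ 2 := by ring
        _ ≤ (1 + 6 * B1 + 16 * B2) / ρ ^ 2 := by
            apply div_le_div_of_nonneg_right _ hρ2.le
            linarith

theorem tube_volume (a : ℝ × ℝ) (L : Set E) (hL : IsCompact L) : ∃ C : ℝ, 0 ≤ C ∧ ∀ ρ : ℝ, 0 < ρ →
    volume (U a (2 * ρ) ∩ L) ≤ ENNReal.ofReal (C * ρ ^ 3) := by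
  obtain ⟨R, hR⟩ := hL.isBounded.exists_norm_le
  set R' : ℝ := max R 0 with hR'
  have hR'0 : 0 ≤ R' := le_max_right _ _
  refine ⟨256 * R' ^ 2, by positivity, fun ρ hρ => ?_⟩
  set lo : Fin 5 → ℝ := ![-(2 * ρ), a.1 - 2 * ρ, a.2 - 2 * ρ, -R', -R'] with hlo
  set hi : Fin 5 → ℝ := ![2 * ρ, a.1 + 2 * ρ, a.2 + 2 * ρ, R', R'] with hhi
  have hsub : U a (2 * ρ) ∩ L ⊆ (WithLp.ofLp : E → (Fin 5 → ℝ)) ⁻¹' Set.Icc lo hi := by
    rintro x ⟨hx, hxL⟩
    have h1 : x 0 ^ 2 + (x 1 - a.1) ^ 2 + (x 2 - a.2) ^ 2 < (2 * ρ) ^ 2 := hx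
    have h2 : ∀ i, |x i| ≤ R' := by
      intro i
      have := PiLp.norm_apply_le x i
      rw [Real.norm_eq_abs] at this
      exact this.trans ((hR x hxL).trans (le_max_left _ _))
    have k0 : |x 0| ≤ 2 * ρ := abs_le_of_sq_le_sq
      (by nlinarith [sq_nonneg (x 1 - a.1), sq_nonneg (x 2 - a.2)]) (by positivity)
    have k1 : |x 1 - a.1| ≤ 2 * ρ := abs_le_of_sq_le_sq
      (by nlinarith [sq_nonneg (x 0), sq_nonneg (x 2 - a.2)]) (by positivity)
    have k2 : |x 2 - a.2| ≤ 2 * ρ := abs_le_of_sq_le_sq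
      (by nlinarith [sq_nonneg (x 0), sq_nonneg (x 1 - a.1)]) (by positivity)
    have k3 := h2 3
    have k4 := h2 4
    rw [abs_le] at k0 k1 k2 k3 k4
    constructor
    · intro i
      fin_cases i
      · show -(2 * ρ) ≤ x 0
        linarith [k0.1]
      · show a.1 - 2 * ρ ≤ x 1
        linarith [k1.1]
      · show a.2 - 2 * ρ ≤ x 2
        linarith [k2.1]
      · exact k3.1
      · exact k4.1
    · intro i
      fin_cases i
      · exact k0.2
      · show x 1 ≤ a.1 + 2 * ρ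
        linarith [k1.2]
      · show x 2 ≤ a.2 + 2 * ρ
        linarith [k2.2]
      · exact k3.2
      · exact k4.2
  have hmp := PiLp.volume_preserving_ofLp (Fin 5)
  calc volume (U a (2 * ρ) ∩ L) ≤ volume ((WithLp.ofLp : E → (Fin 5 → ℝ)) ⁻¹' Set.Icc lo hi) :=
        measure_mono hsub
    _ = volume (Set.Icc lo hi) := hmp.measure_preimage measurableSet_Icc.nullMeasurableSet
    _ = ∏ i, ENNReal.ofReal (hi i - lo i) := Real.volume_Icc_pi
    _ ≤ ENNReal.ofReal (256 * R' ^ 2 * ρ ^ 3) := by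
        rw [← ENNReal.ofReal_prod_of_nonneg]
        · apply ENNReal.ofReal_le_ofReal
          rw [Fin.prod_univ_five]
          simp only [hlo, hhi, Matrix.cons_val_zero, Matrix.cons_val_one, Matrix.cons_val]
          apply le_of_eq
          ring
        · intro i _
          simp only [hlo, hhi]
          fin_cases i
          · show 0 ≤ 2 * ρ - -(2 * ρ)
            linarith
          · show 0 ≤ a.1 + 2 * ρ - (a.1 - 2 * ρ)
            linarith
          · show 0 ≤ a.2 + 2 * ρ - (a.2 - 2 * ρ)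
            linarith
          · show 0 ≤ R' - -R'
            linarith
          · show 0 ≤ R' - -R'
            linarith


end Pool.Agent.Helper960.Cap.F2
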