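import Pool.Agent.Helper960.Cap.Base

open MeasureTheory Filter Topology Set
open scoped ContDiff ENNReal

namespace Pool.Agent.Helper960.Cap.F3

open Pool.Agent.Helper960.Cap

theorem step
    (lap_mul : ∀ (f g : E → ℂ) (hf : ContDiff ℝ ∞ f) (hg : ContDiff ℝ ∞ g) (x : E),
      lap (fun x => f x * g x) x = f x * lap g x + 2 * ∑ i, pd i f x * pd i g x + lap f x * g x)
    (lap_sub : ∀ (f g : E → ℂ) (hf : ContDiff ℝ ∞ f) (hg : ContDiff ℝ ∞ g) (x : E),
      lap (fun x => f x - g x) x = lap f x - lap g x)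
    (contDiff_lap : ∀ (f : E → ℂ) (hf : ContDiff ℝ ∞ f), ContDiff ℝ ∞ (lap f))
    (hcs_lap : ∀ (f : E → ℂ) (hf : HasCompactSupport f), HasCompactSupport (lap f))
    (tsupport_lap : ∀ (f : E → ℂ), tsupport (lap f) ⊆ tsupport f)
    (lip_bound : ∀ (W : E → ℂ) (hW : ContDiff ℝ ∞ W) (hc : HasCompactSupport W) (h0 : ∀ x : E, x 0 = 0 → W x = 0),
      ∃ C : ℝ, 0 ≤ C ∧ ∀ x : E, ‖W x‖ ≤ C * |x 0|)
    (cutoff : ∀ (a : ℝ × ℝ), ∃ C : ℝ, 0 ≤ C ∧ ∀ ρ : ℝ, 0 < ρ → ∃ φ : E → ℂ, ContDiff ℝ ∞ φ ∧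
      (∀ x ∈ U a ρ, φ x = 1) ∧ (∀ x, x ∉ U a (2 * ρ) → φ x = 0 ∧ (∀ i, pd i φ x = 0) ∧ lap φ x = 0) ∧
      (∀ x, ‖φ x‖ ≤ C) ∧ (∀ i x, ‖pd i φ x‖ ≤ C / ρ) ∧ (∀ x, ‖lap φ x‖ ≤ C / ρ ^ 2))
    (tube_volume : ∀ (a : ℝ × ℝ) (L : Set E) (hL : IsCompact L), ∃ C : ℝ, 0 ≤ C ∧ ∀ ρ : ℝ, 0 < ρ →
      volume (U a (2 * ρ) ∩ L) ≤ ENNReal.ofReal (C * ρ ^ 3))
    (W : E → ℂ) (hW : ContDiff ℝ ∞ W) (hc : HasCompactSupport W) (h0 : ∀ x : E, x 0 = 0 → W x = 0)
    (a : ℝ × ℝ) (ε : ℝ≥0∞) (hε : 0 < ε) (r : ℝ) (hr : 0 < r) :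
    ∃ (ρ : ℝ) (W' : E → ℂ), 0 < ρ ∧ ρ < r ∧ ContDiff ℝ ∞ W' ∧ (∀ x, W x = 0 → W' x = 0) ∧
      (∀ x ∈ U a ρ, W' x = 0) ∧ eLpNorm (fun x => lap W' x - lap W x) 2 volume < ε := by
  obtain ⟨C1, hC1, hlip⟩ := lip_bound W hW hc h0
  obtain ⟨C2, hC2, hcut⟩ := cutoff a
  obtain ⟨C3, hC3, hvol⟩ := tube_volume a (tsupport W) hc
  -- bounds
  have hlapc : Continuous (lap W) := (contDiff_lap W hW).continuous
  obtain ⟨B, hB⟩ : ∃ B, ∀ x, ‖lap W x‖ ≤ B := (hcs_lap W hc).exists_bound_of_continuous hlapc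
  have hB0 : 0 ≤ B := le_trans (norm_nonneg _) (hB 0)
  have hfd : Continuous (fderiv ℝ W) := hW.continuous_fderiv (by simp)
  have hfc : HasCompactSupport (fderiv ℝ W) := hc.fderiv ℝ
  obtain ⟨B', hB'⟩ : ∃ B', ∀ x, ‖fderiv ℝ W x‖ ≤ B' := hfc.exists_bound_of_continuous hfd
  have hB'0 : 0 ≤ B' := le_trans (norm_nonneg _) (hB' 0)
  have hpd : ∀ i x, ‖pd i W x‖ ≤ B' := by
    intro i x
    unfold pd
    refine (ContinuousLinearMap.le_opNorm _ _).trans ?_
    have : ‖(EuclideanSpace.single i (1 : ℝ) : E)‖ = 1 := by simp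
    rw [this, mul_one]
    exact hB' x
  set M : ℝ := C2 * B + 10 * C2 * B' + 2 * C1 * C2 with hM
  have hM0 : 0 ≤ M := by positivity
  -- choose rho
  have hlim : Tendsto (fun ρ : ℝ => ENNReal.ofReal (M * Real.sqrt C3 * Real.sqrt ρ)) (𝓝[>] 0)
      (𝓝 0) := by
    have hcont : Continuous (fun ρ : ℝ => ENNReal.ofReal (M * Real.sqrt C3 * Real.sqrt ρ)) :=
      ENNReal.continuous_ofReal.comp (continuous_const.mul Real.continuous_sqrt)
    have := hcont.tendsto 0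
    simp only [Real.sqrt_zero, mul_zero, ENNReal.ofReal_zero] at this
    exact this.mono_left nhdsWithin_le_nhds
  have hev1 : ∀ᶠ ρ : ℝ in 𝓝[>] 0, ENNReal.ofReal (M * Real.sqrt C3 * Real.sqrt ρ) < ε :=
    hlim.eventually (gt_mem_nhds hε)
  have hev2 : ∀ᶠ ρ : ℝ in 𝓝[>] 0, ρ ∈ Ioo (0 : ℝ) (min r 1) :=
    Ioo_mem_nhdsGT (lt_min hr one_pos)
  obtain ⟨ρ, hρ1, hρ2⟩ := (hev1.and hev2).exists
  have hρ0 : 0 < ρ := hρ2.1
  have hρr : ρ < r := lt_of_lt_of_le hρ2.2 (min_le_left _ _)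
  have hρ1' : ρ < 1 := lt_of_lt_of_le hρ2.2 (min_le_right _ _)
  obtain ⟨φ, hφ, hφ1, hφ0, hφb, hφp, hφl⟩ := hcut ρ hρ0
  have hφW : ContDiff ℝ ∞ (fun x => φ x * W x) := hφ.mul hW
  refine ⟨ρ, fun x => W x - φ x * W x, hρ0, hρr, hW.sub hφW, ?_, ?_, ?_⟩
  · intro x hx
    simp [hx]
  · intro x hx
    simp [hφ1 x hx]
  · set S : Set E := U a (2 * ρ) ∩ tsupport W with hS
    have hUo : IsOpen (U a (2 * ρ)) := by
      unfold U
      have hc0 : ∀ i : Fin 5, Continuous fun x : E => x i := fun i =>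
        (EuclideanSpace.proj i : E →L[ℝ] ℝ).continuous
      exact isOpen_lt ((((hc0 0).pow 2).add (((hc0 1).sub continuous_const).pow 2)).add
        (((hc0 2).sub continuous_const).pow 2)) continuous_const
    have hSm : MeasurableSet S := hUo.measurableSet.inter (isClosed_tsupport W).measurableSet
    have hptw : ∀ x, ‖lap (fun x => W x - φ x * W x) x - lap W x‖ ≤
        ‖S.indicator (fun _ => M / ρ) x‖ := by
      intro x
      have e1 : lap (fun x => W x - φ x * W x) x - lap W x =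
          -(φ x * lap W x + 2 * ∑ i, pd i φ x * pd i W x + lap φ x * W x) := by
        rw [lap_sub W (fun x => φ x * W x) hW hφW x, lap_mul φ W hφ hW x]
        ring
      rw [e1, norm_neg]
      by_cases hxS : x ∈ S
      · rw [Set.indicator_of_mem hxS]
        have hx0 : |x 0| ≤ 2 * ρ := by
          have h1 : x 0 ^ 2 + (x 1 - a.1) ^ 2 + (x 2 - a.2) ^ 2 < (2 * ρ) ^ 2 := hxS.1
          have h2 : x 0 ^ 2 ≤ (2 * ρ) ^ 2 := by nlinarith [sq_nonneg (x 1 - a.1), sq_nonneg (x 2 - a.2)]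
          exact abs_le_of_sq_le_sq h2 (by positivity)
        have hWx : ‖W x‖ ≤ 2 * C1 * ρ := by
          refine (hlip x).trans ?_
          nlinarith
        have t1 : ‖φ x * lap W x‖ ≤ C2 * B := by
          rw [norm_mul]
          exact mul_le_mul (hφb x) (hB x) (norm_nonneg _) hC2
        have t2 : ‖2 * ∑ i, pd i φ x * pd i W x‖ ≤ 10 * (C2 / ρ) * B' := by
          rw [norm_mul]
          have h3 : ‖∑ i, pd i φ x * pd i W x‖ ≤ ∑ i : Fin 5, (C2 / ρ) * B' := by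
            refine norm_sum_le_of_le _ fun i _ => ?_
            rw [norm_mul]
            exact mul_le_mul (hφp i x) (hpd i x) (norm_nonneg _) (by positivity)
          have h4 : ‖(2 : ℂ)‖ = 2 := by simp
          rw [h4]
          have h5 : ∑ i : Fin 5, (C2 / ρ) * B' = 5 * ((C2 / ρ) * B') := by simp
          rw [h5] at h3
          linarith
        have t3 : ‖lap φ x * W x‖ ≤ C2 / ρ ^ 2 * (2 * C1 * ρ) := by
          rw [norm_mul]
          exact mul_le_mul (hφl x) hWx (norm_nonneg _) (by positivity)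
        have t3' : C2 / ρ ^ 2 * (2 * C1 * ρ) = 2 * C1 * C2 / ρ := by
          field_simp
        have t1' : C2 * B ≤ C2 * B / ρ := by
          rw [le_div_iff₀ hρ0]
          have : 0 ≤ C2 * B := by positivity
          nlinarith
        have hsum : ‖φ x * lap W x + 2 * ∑ i, pd i φ x * pd i W x + lap φ x * W x‖ ≤ M / ρ := by
          calc _ ≤ ‖φ x * lap W x‖ + ‖2 * ∑ i, pd i φ x * pd i W x‖ + ‖lap φ x * W x‖ :=
                norm_add₃_le
            _ ≤ C2 * B / ρ + 10 * (C2 / ρ) * B' + 2 * C1 * C2 / ρ := by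
                rw [← t3']
                gcongr
                exact t1.trans t1'
            _ = M / ρ := by rw [hM]; ring
        refine hsum.trans ?_
        rw [Real.norm_eq_abs]
        exact le_abs_self _
      · rw [Set.indicator_of_notMem hxS]
        have hz : φ x * lap W x + 2 * ∑ i, pd i φ x * pd i W x + lap φ x * W x = 0 := by
          by_cases hxU : x ∈ U a (2 * ρ)
          · have hxt : x ∉ tsupport W := fun h => hxS ⟨hxU, h⟩
            have e2 : W x = 0 := image_eq_zero_of_notMem_tsupport hxt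
            have e3 : lap W x = 0 :=
              image_eq_zero_of_notMem_tsupport fun h => hxt (tsupport_lap W h)
            have e4 : fderiv ℝ W x = 0 :=
              image_eq_zero_of_notMem_tsupport fun h => hxt (tsupport_fderiv_subset ℝ h)
            have e5 : ∀ i, pd i W x = 0 := by
              intro i; unfold pd; rw [e4]; rfl
            simp [e2, e3, e5]
          · obtain ⟨e2, e3, e4⟩ := hφ0 x hxU
            simp [e2, e3, e4]
        rw [hz]; simp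
    calc eLpNorm (fun x => lap (fun x => W x - φ x * W x) x - lap W x) 2 volume
        ≤ eLpNorm (S.indicator (fun _ => M / ρ)) 2 volume :=
          eLpNorm_mono hptw
      _ = ‖M / ρ‖ₑ * volume S ^ (1 / (2 : ℝ≥0∞).toReal) :=
          eLpNorm_indicator_const hSm (by simp) (by simp)
      _ ≤ ENNReal.ofReal (M / ρ) * ENNReal.ofReal (C3 * ρ ^ 3) ^ (1 / 2 : ℝ) := by
          have e1 : ‖M / ρ‖ₑ = ENNReal.ofReal (M / ρ) := by
            rw [Real.enorm_eq_ofReal (by positivity)]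
          rw [e1]
          have e2 : (1 / (2 : ℝ≥0∞).toReal) = (1 / 2 : ℝ) := by simp
          rw [e2]
          gcongr
          exact hvol ρ hρ0
      _ = ENNReal.ofReal (M * Real.sqrt C3 * Real.sqrt ρ) := by
          rw [ENNReal.ofReal_rpow_of_nonneg (by positivity) (by norm_num),
            ← ENNReal.ofReal_mul (by positivity), ← Real.sqrt_eq_rpow]
          congr 1
          have e3 : C3 * ρ ^ 3 = (C3 * ρ) * ρ ^ 2 := by ring
          rw [e3, Real.sqrt_mul (by positivity), Real.sqrt_mul hC3, Real.sqrt_sq hρ0.le]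
          field_simp
      _ < ε := hρ1


end Pool.Agent.Helper960.Cap.F3
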