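import Pool.Agent.Helper960.Cap.Base

open MeasureTheory Filter Topology Set
open scoped ContDiff ENNReal

namespace Pool.Agent.Helper960.Cap.G1

open Pool.Agent.Helper960.Cap

/-- product function -/
noncomputable def ProdF (h : Fin 5 → ℝ → ℝ) : E → ℂ := fun x => ((∏ j, h j (x j) : ℝ) : ℂ)

theorem ProdF_contDiff (h : Fin 5 → ℝ → ℝ) (hh : ∀ j, ContDiff ℝ ∞ (h j)) :
    ContDiff ℝ ∞ (ProdF h) := by
  unfold ProdF
  have h1 : ContDiff ℝ ∞ (fun x : E => (∏ j, h j (x j) : ℝ)) := by
    apply contDiff_prod
    intro j _
    exact (hh j).comp (by fun_prop : ContDiff ℝ ∞ (fun x : E => x j))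
  exact Complex.ofRealCLM.contDiff.comp h1

theorem pd_ProdF (h : Fin 5 → ℝ → ℝ) (hh : ∀ j, ContDiff ℝ ∞ (h j)) (i : Fin 5) :
    pd i (ProdF h) = ProdF (Function.update h i (deriv (h i))) := by
  funext x
  unfold pd
  rw [← ((ProdF_contDiff h hh).differentiable (by simp)).differentiableAt.lineDeriv_eq_fderiv]
  unfold lineDeriv
  have e : (fun t : ℝ => ProdF h (x + t • EuclideanSpace.single i 1))
      = fun t : ℝ => ((h i (x i + t) * ∏ j ∈ Finset.univ.erase i, h j (x j) : ℝ) : ℂ) := by
    funext t
    unfold ProdF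
    congr 1
    rw [← Finset.mul_prod_erase Finset.univ _ (Finset.mem_univ i)]
    congr 1
    · simp
    · apply Finset.prod_congr rfl
      intro j hj
      have : j ≠ i := Finset.ne_of_mem_erase hj
      simp [this]
  rw [e]
  have hd : HasDerivAt (fun t : ℝ => (h i (x i + t) * ∏ j ∈ Finset.univ.erase i, h j (x j) : ℝ))
      (deriv (h i) (x i) * ∏ j ∈ Finset.univ.erase i, h j (x j)) 0 := by
    apply HasDerivAt.mul_const
    have h1 : HasDerivAt (h i) (deriv (h i) (x i)) (x i + 0) := by
      rw [add_zero]
      exact (((hh i).differentiable (by simp)).differentiableAt).hasDerivAt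
    have h2 : HasDerivAt (fun t : ℝ => x i + t) 1 0 := by
      simpa using (hasDerivAt_id (0:ℝ)).const_add (x i)
    have h3 := h1.comp (0:ℝ) h2
    rw [mul_one] at h3
    exact h3
  rw [hd.ofReal_comp.deriv]
  unfold ProdF
  congr 1
  rw [← Finset.mul_prod_erase Finset.univ _ (Finset.mem_univ i)]
  congr 1
  · simp
  · apply Finset.prod_congr rfl
    intro j hj
    have : j ≠ i := Finset.ne_of_mem_erase hj
    simp [this]

theorem pd_pd_ProdF (h : Fin 5 → ℝ → ℝ) (hh : ∀ j, ContDiff ℝ ∞ (h j)) (i : Fin 5) :
    pd i (pd i (ProdF h)) = ProdF (Function.update h i (deriv (deriv (h i)))) := by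
  rw [pd_ProdF h hh i, pd_ProdF]
  · simp
  · intro j
    by_cases hj : j = i
    · subst hj
      simp only [Function.update_self]
      exact (contDiff_infty_iff_deriv.1 (hh j)).2
    · rw [Function.update_of_ne hj]; exact hh j

theorem integral_ProdF (k : Fin 5 → ℝ → ℝ) :
    ∫ x : E, ProdF k x = ((∏ j, ∫ t, k j t : ℝ) : ℂ) := by
  unfold ProdF
  rw [integral_complex_ofReal]
  congr 1
  rw [← integral_fintype_prod_volume_eq_prod]
  rw [← (PiLp.volume_preserving_ofLp (Fin 5)).integral_comp
    (MeasurableEquiv.toLp 2 (Fin 5 → ℝ)).symm.measurableEmbedding]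

theorem integrable_ProdF (k : Fin 5 → ℝ → ℝ) (hk : ∀ j, Integrable (k j)) :
    Integrable (ProdF k) := by
  unfold ProdF
  apply Integrable.ofReal
  have h1 : Integrable (fun x : Fin 5 → ℝ => ∏ j, k j (x j)) := Integrable.fintype_prod hk
  exact ((PiLp.volume_preserving_ofLp (Fin 5)).integrable_comp_emb
    (MeasurableEquiv.toLp 2 (Fin 5 → ℝ)).symm.measurableEmbedding).2 h1

theorem start : ∃ W : E → ℂ, ContDiff ℝ ∞ W ∧ (∀ x : E, x 0 = 0 → W x = 0) ∧
    (∀ x : E, (∃ i, 1 < |x i|) → W x = 0) ∧ (∫ x in {x : E | 0 < x 0}, lap W x) ≠ 0 := by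
  let η : ContDiffBump (0:ℝ) := ⟨1/4, 1/2, by norm_num, by norm_num⟩
  have hηc : ContDiff ℝ ∞ (η : ℝ → ℝ) := η.contDiff
  have hηs : ∀ t : ℝ, 1 < |t| → η t = 0 := by
    intro t ht
    apply η.zero_of_le_dist
    rw [dist_zero_right, Real.norm_eq_abs]
    show (1/2 : ℝ) ≤ |t|
    linarith
  have hη1 : (η : ℝ → ℝ) 0 = 1 := η.one_of_mem_closedBall (by simp; norm_num)
  have hηcs : HasCompactSupport (η : ℝ → ℝ) := η.hasCompactSupport
  let g : Fin 5 → ℝ → ℝ := fun j => if j = 0 then (fun t => t * η t) else (fun t => η t)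
  have hg0 : g 0 = fun t => t * η t := by simp [g]
  have hgj : ∀ j, j ≠ 0 → g j = fun t => η t := by intro j hj; simp [g, hj]
  have hgc : ∀ j, ContDiff ℝ ∞ (g j) := by
    intro j
    by_cases hj : j = 0
    · subst hj; rw [hg0]; exact contDiff_id.mul hηc
    · rw [hgj j hj]; exact hηc
  have hgcs : ∀ j, HasCompactSupport (g j) := by
    intro j
    by_cases hj : j = 0
    · subst hj; rw [hg0]; exact hηcs.mul_left
    · rw [hgj j hj]; exact hηcs
  refine ⟨ProdF g, ProdF_contDiff g hgc, ?_, ?_, ?_⟩
  · intro x hx
    unfold ProdF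
    rw [Finset.prod_eq_zero (Finset.mem_univ 0)]
    · simp
    · rw [hg0, hx]; simp
  · rintro x ⟨i, hi⟩
    unfold ProdF
    rw [Finset.prod_eq_zero (Finset.mem_univ i)]
    · simp
    · by_cases hj : i = 0
      · subst hj; rw [hg0]; simp [hηs _ hi]
      · rw [hgj i hj]; simp [hηs _ hi]
  · -- derivative facts
    have hgd : ∀ j, ContDiff ℝ ∞ (deriv (g j)) := fun j => (contDiff_infty_iff_deriv.1 (hgc j)).2
    have hgdd : ∀ j, ContDiff ℝ ∞ (deriv (deriv (g j))) :=
      fun j => (contDiff_infty_iff_deriv.1 (hgd j)).2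
    have hgdcs : ∀ j, HasCompactSupport (deriv (g j)) := fun j => (hgcs j).deriv
    have hgddcs : ∀ j, HasCompactSupport (deriv (deriv (g j))) := fun j => (hgdcs j).deriv
    have hgI : ∀ j, Integrable (g j) := fun j =>
      (hgc j).continuous.integrable_of_hasCompactSupport (hgcs j)
    have hgdI : ∀ j, Integrable (deriv (g j)) := fun j =>
      (hgd j).continuous.integrable_of_hasCompactSupport (hgdcs j)
    have hgddI : ∀ j, Integrable (deriv (deriv (g j))) := fun j =>
      (hgdd j).continuous.integrable_of_hasCompactSupport (hgddcs j)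
    have hzero : ∀ j, ∫ t, deriv (deriv (g j)) t = 0 := by
      intro j
      exact integral_eq_zero_of_hasDerivAt_of_integrable
        (fun t => ((hgd j).differentiable (by simp)).differentiableAt.hasDerivAt)
        (hgddI j) (hgdI j)
    have hd0 : deriv (g 0) 0 = 1 := by
      rw [hg0]
      have h1 : HasDerivAt (fun t : ℝ => t * η t) (1 * η 0 + 0 * deriv η 0) 0 :=
        (hasDerivAt_id (0:ℝ)).mul
          ((hηc.differentiable (by simp)).differentiableAt.hasDerivAt)
      rw [h1.deriv, hη1]; simp
    have hhalf : ∫ t in Ioi (0:ℝ), deriv (deriv (g 0)) t = -1 := by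
      rw [HasCompactSupport.integral_Ioi_deriv_eq ((hgd 0).of_le (by simp)) (hgdcs 0) 0, hd0]
    have hpos : 0 < ∫ t, η t := η.integral_pos
    -- the terms with the indicator
    let K : (Fin 5 → ℝ → ℝ) → (Fin 5 → ℝ → ℝ) := fun h j =>
      if j = 0 then (fun t => (Ioi (0:ℝ)).indicator (h 0) t) else h j
    have hK : ∀ (h : Fin 5 → ℝ → ℝ) (x : E),
        ({x : E | 0 < x 0}).indicator (ProdF h) x = ProdF (K h) x := by
      intro h x
      unfold ProdF
      by_cases hx : 0 < x 0
      · rw [Set.indicator_of_mem (show x ∈ {x : E | 0 < x 0} from hx)]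
        congr 1
        apply Finset.prod_congr rfl
        intro j _
        by_cases hj : j = 0
        · subst hj; simp [K, hx]
        · simp [K, hj]
      · rw [Set.indicator_of_notMem (show x ∉ {x : E | 0 < x 0} from hx)]
        rw [Finset.prod_eq_zero (Finset.mem_univ 0)]
        · simp
        · simp [K, hx]
    have hmeas : MeasurableSet {x : E | 0 < x 0} := by
      apply measurableSet_lt measurable_const
      fun_prop
    rw [← integral_indicator hmeas]
    have hsum : ∀ x : E, ({x : E | 0 < x 0}).indicator (lap (ProdF g)) x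
        = ∑ i, ProdF (K (Function.update g i (deriv (deriv (g i))))) x := by
      intro x
      rw [show lap (ProdF g) = fun x => ∑ i, ProdF (Function.update g i (deriv (deriv (g i)))) x by
        funext y; unfold lap; apply Finset.sum_congr rfl; intro i _; rw [pd_pd_ProdF g hgc i]]
      rw [Finset.sum_congr rfl fun i _ => (hK _ x).symm]
      by_cases hx : x ∈ {x : E | 0 < x 0}
      · rw [Set.indicator_of_mem hx]
        apply Finset.sum_congr rfl
        intro i _
        rw [Set.indicator_of_mem hx]
      · rw [Set.indicator_of_notMem hx]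
        symm
        apply Finset.sum_eq_zero
        intro i _
        rw [Set.indicator_of_notMem hx]
    rw [integral_congr_ae (Filter.Eventually.of_forall hsum)]
    have hKI : ∀ i j, Integrable (K (Function.update g i (deriv (deriv (g i)))) j) := by
      intro i j
      have hI : ∀ j, Integrable (Function.update g i (deriv (deriv (g i))) j) := by
        intro j
        by_cases hj : j = i
        · subst hj; simp only [Function.update_self]; exact hgddI j
        · rw [Function.update_of_ne hj]; exact hgI j
      by_cases hj : j = 0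
      · subst hj
        simp only [K, if_true]
        exact (hI 0).indicator measurableSet_Ioi
      · simp only [K, hj, if_false]; exact hI j
    rw [integral_finsetSum _ (fun i _ => integrable_ProdF _ (hKI i))]
    rw [Finset.sum_eq_single 0]
    · rw [integral_ProdF]
      rw [Complex.ofReal_ne_zero]
      rw [Finset.prod_ne_zero_iff]
      intro j _
      by_cases hj : j = 0
      · subst hj
        simp only [K, if_true, Function.update_self]
        rw [integral_indicator measurableSet_Ioi, hhalf]
        norm_num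
      · simp only [K, hj, if_false]
        rw [Function.update_of_ne hj, hgj j hj]
        exact hpos.ne'
    · intro i _ hi
      rw [integral_ProdF]
      rw [Finset.prod_eq_zero (Finset.mem_univ i)]
      · simp
      · simp only [K, hi, if_false, Function.update_self]
        exact hzero i
    · intro h; exact absurd (Finset.mem_univ _) h


end Pool.Agent.Helper960.Cap.G1
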