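import Pool.Agent.Helper960.Cap.Base

open MeasureTheory Filter Topology Set
open scoped ContDiff ENNReal

namespace Pool.Agent.Helper960.Cap.I1

open Pool.Agent.Helper960.Cap

theorem L2tilde_half : L2tilde (Set.indicator {x : E | 0 < x 0} (fun _ => (1 : ℂ))) := by
  have hproj : Continuous (fun x : E => x 0) := (EuclideanSpace.proj (𝕜 := ℝ) (0 : Fin 5)).continuous
  have hmeas : MeasurableSet {x : E | 0 < x 0} := (isOpen_lt continuous_const hproj).measurableSet
  refine ⟨fun L hL => ?_, fun L hL ε hε => ?_⟩
  · have : IsFiniteMeasure (volume.restrict L) := ⟨by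
      rw [Measure.restrict_apply_univ]; exact hL.measure_lt_top⟩
    exact (memLp_const (1 : ℂ)).indicator hmeas
  · have hfin : IsFiniteMeasure (volume.restrict L) := ⟨by
      rw [Measure.restrict_apply_univ]; exact hL.measure_lt_top⟩
    set μ := volume.restrict L with hμ
    set A : ℕ → Set E := fun k => {x | 0 < x 0 ∧ x 0 < 1 / ((k : ℝ) + 1)} with hA
    have hAm : ∀ k, MeasurableSet (A k) := fun k =>
      ((isOpen_lt continuous_const hproj).inter (isOpen_lt hproj continuous_const)).measurableSet
    have hanti : Antitone A := by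
      intro k l hkl x hx
      refine ⟨hx.1, lt_of_lt_of_le hx.2 ?_⟩
      exact one_div_le_one_div_of_le (by positivity) (by
        have : (k : ℝ) ≤ l := by exact_mod_cast hkl
        linarith)
    have hInter : ⋂ k, A k = ∅ := by
      rw [Set.eq_empty_iff_forall_notMem]
      intro x hx
      rw [Set.mem_iInter] at hx
      obtain ⟨k, hk⟩ := exists_nat_one_div_lt (hx 0).1
      exact lt_asymm (hx k).2 hk
    have hlim : Tendsto (fun k => μ (A k)) atTop (𝓝 0) := by
      have h1 := tendsto_measure_iInter_atTop (μ := μ) (fun k => (hAm k).nullMeasurableSet) hanti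
        ⟨0, measure_ne_top _ _⟩
      rwa [hInter, measure_empty] at h1
    have hlim2 : Tendsto (fun k => μ (A k) ^ (1 / (2 : ℝ≥0∞).toReal)) atTop (𝓝 0) := by
      have h1 := (ENNReal.continuous_rpow_const (y := (1 / (2 : ℝ≥0∞).toReal))).tendsto 0
      rw [ENNReal.zero_rpow_of_pos (by norm_num)] at h1
      exact h1.comp hlim
    obtain ⟨k, hk⟩ := ((tendsto_order.1 hlim2).2 ε hε).exists
    refine ⟨fun x => ((Real.smoothTransition (((k : ℝ) + 1) * x 0) : ℝ) : ℂ), ?_, ?_⟩
    · refine Complex.ofRealCLM.contDiff.comp ?_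
      refine Real.smoothTransition.contDiff.comp ?_
      exact contDiff_const.mul (EuclideanSpace.proj (𝕜 := ℝ) (0 : Fin 5)).contDiff
    · refine lt_of_le_of_lt ?_ hk
      have h1 : eLpNorm (Set.indicator (A k) (fun _ => (1 : ℂ))) 2 μ =
          μ (A k) ^ (1 / (2 : ℝ≥0∞).toReal) := by
        rw [eLpNorm_indicator_const (hAm k) (by norm_num) (by norm_num)]
        simp
      rw [← h1]
      refine eLpNorm_mono fun x => ?_
      simp only [Pi.sub_apply]
      by_cases hx0 : 0 < x 0
      · rw [Set.indicator_of_mem (show x ∈ {x : E | 0 < x 0} from hx0)]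
        by_cases hx1 : x 0 < 1 / ((k : ℝ) + 1)
        · rw [Set.indicator_of_mem (show x ∈ A k from ⟨hx0, hx1⟩)]
          have h2 := Real.smoothTransition.le_one (((k : ℝ) + 1) * x 0)
          have h3 := Real.smoothTransition.nonneg (((k : ℝ) + 1) * x 0)
          have h4 : (1 : ℂ) - ((Real.smoothTransition (((k : ℝ) + 1) * x 0) : ℝ) : ℂ) =
              ((1 - Real.smoothTransition (((k : ℝ) + 1) * x 0) : ℝ) : ℂ) := by push_cast; ring
          rw [h4, Complex.norm_real, Real.norm_of_nonneg (by linarith), norm_one]
          linarith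
        · have h2 : 1 ≤ ((k : ℝ) + 1) * x 0 := by
            push Not at hx1
            rw [div_le_iff₀ (by positivity)] at hx1
            linarith
          rw [Real.smoothTransition.one_of_one_le h2]
          simp
      · have h2 : ((k : ℝ) + 1) * x 0 ≤ 0 := by
          push Not at hx0
          exact mul_nonpos_of_nonneg_of_nonpos (by positivity) hx0
        rw [Set.indicator_of_notMem (show x ∉ {x : E | 0 < x 0} from hx0),
          Real.smoothTransition.zero_of_nonpos h2]
        simp


end Pool.Agent.Helper960.Cap.I1
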