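import Pool.Agent.Helper960.Cap.Defs

open MeasureTheory Filter Topology Set
open scoped ContDiff ENNReal

namespace Pool.Agent.Helper960.Cap

/-- Cauchy–Schwarz -/
lemma enorm_integral_mul_le {μ : Measure E} {u v : E → ℂ} (hu : AEStronglyMeasurable u μ)
    (hv : AEStronglyMeasurable v μ) :
    ‖∫ x, u x * v x ∂μ‖ₑ ≤ eLpNorm u 2 μ * eLpNorm v 2 μ := by
  have h1 : ‖∫ x, u x * v x ∂μ‖ₑ ≤ ∫⁻ x, ‖u x * v x‖ₑ ∂μ := enorm_integral_le_lintegral_enorm _
  have h2 := eLpNorm_smul_le_mul_eLpNorm (p := 2) (q := 2) (r := 1) hv hu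
  rw [eLpNorm_one_eq_lintegral_enorm] at h2
  calc ‖∫ x, u x * v x ∂μ‖ₑ ≤ ∫⁻ x, ‖u x * v x‖ₑ ∂μ := h1
    _ ≤ _ := by simpa [smul_eq_mul] using h2

/-- `L²` limits of functions which eventually vanish on `A` -/
lemma limit_zero {g : E → ℂ} {G : ℕ → E → ℂ} (hg : AEStronglyMeasurable g volume)
    (hG : ∀ m, AEStronglyMeasurable (G m) volume)
    (hlim : Tendsto (fun m => eLpNorm (fun x => G m x - g x) 2 volume) atTop (𝓝 0)) {A : Set E}
    (hA : MeasurableSet A) {N : ℕ} (hN : ∀ m ≥ N, ∀ x ∈ A, G m x = 0) :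
    ∀ᵐ x ∂(volume.restrict A), g x = 0 := by
  have h0 : eLpNorm g 2 (volume.restrict A) = 0 := by
    apply le_antisymm _ bot_le
    apply ge_of_tendsto hlim
    filter_upwards [eventually_ge_atTop N] with m hm
    calc eLpNorm g 2 (volume.restrict A)
        = eLpNorm (fun x => G m x - g x) 2 (volume.restrict A) := by
          rw [← eLpNorm_neg]
          apply eLpNorm_congr_ae
          filter_upwards [ae_restrict_mem hA] with x hx
          simp [hN m hm x hx]
      _ ≤ eLpNorm (fun x => G m x - g x) 2 volume :=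
          eLpNorm_mono_measure _ Measure.restrict_le_self
  rw [eLpNorm_eq_zero_iff hg.restrict (by norm_num)] at h0
  filter_upwards [h0] with x hx
  exact hx

/-- pairing with an `L²` function is continuous -/
lemma limit_pair {μ : Measure E} {g v : E → ℂ} {G : ℕ → E → ℂ} (hg : MemLp g 2 μ)
    (hG : ∀ m, MemLp (G m) 2 μ)
    (hlim : Tendsto (fun m => eLpNorm (fun x => G m x - g x) 2 μ) atTop (𝓝 0))
    (hv : MemLp v 2 μ) :
    Tendsto (fun m => ∫ x, G m x * v x ∂μ) atTop (𝓝 (∫ x, g x * v x ∂μ)) := by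
  rw [tendsto_iff_edist_tendsto_0]
  have hb : Tendsto (fun m => eLpNorm (fun x => G m x - g x) 2 μ * eLpNorm v 2 μ) atTop (𝓝 0) := by
    have := ENNReal.Tendsto.mul_const hlim (b := eLpNorm v 2 μ) (Or.inr hv.2.ne)
    simpa using this
  refine tendsto_of_tendsto_of_tendsto_of_le_of_le tendsto_const_nhds hb (fun _ => bot_le) ?_
  intro m
  have hi1 : Integrable (fun x => G m x * v x) μ := (hG m).integrable_mul hv
  have hi2 : Integrable (fun x => g x * v x) μ := hg.integrable_mul hv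
  simp only
  rw [edist_eq_enorm_sub, ← integral_sub hi1 hi2]
  have : (fun x => G m x * v x - g x * v x) = fun x => (G m x - g x) * v x := by
    funext x; ring
  rw [this]
  exact enorm_integral_mul_le ((hG m).1.sub hg.1) hv.1

/-- the duality argument -/
lemma not_cond1 (K : Set E) (g : E → ℂ) (hg : MemLp g 2 (volume.restrict K))
    (hS : ∀ h : E → ℂ, ContDiff ℝ ∞ h → (∃ O : Set E, IsOpen O ∧ K ⊆ O ∧ ∀ x ∈ O, lap h x = 0) →
      ∫ x in K, g x * h x = 0)
    (f : E → ℂ) (hf1 : L2tilde f) (hf2 : ContDiffOn ℝ ∞ f (interior K))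
    (hf3 : ∀ x ∈ interior K, lap f x = 0) (hf4 : MemLp f 2 (volume.restrict K))
    (hne : ∫ x in K, g x * f x ≠ 0) : ¬ Cond1 K := by
  intro hc
  have hgc : MemLp (fun x => (starRingEnd ℂ) (g x)) 2 (volume.restrict K) := by
    refine ⟨?_, ?_⟩
    · exact Complex.continuous_conj.comp_aestronglyMeasurable hg.1
    · rw [show eLpNorm (fun x => (starRingEnd ℂ) (g x)) 2 (volume.restrict K) =
        eLpNorm g 2 (volume.restrict K) from eLpNorm_congr_norm_ae
          (Eventually.of_forall fun x => by simp)]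
      exact hg.2
  set G : Lp ℂ 2 (volume.restrict K) := hgc.toLp _ with hGdef
  have hpair : ∀ (F : Lp ℂ 2 (volume.restrict K)) (u : E → ℂ), F =ᵐ[volume.restrict K] u →
      inner ℂ G F = ∫ x in K, g x * u x := by
    intro F u hFu
    rw [L2.inner_def]
    apply integral_congr_ae
    filter_upwards [hFu, hgc.coeFn_toLp] with x hx1 hx2
    rw [hx1, hGdef, hx2]
    simp [mul_comm]
  have hcl : closure (SK K) ⊆ {F | inner ℂ G F = 0} := by
    apply closure_minimal
    · rintro F ⟨h, h1, h2, h3⟩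
      show inner ℂ G F = 0
      rw [hpair F h h3]
      exact hS h h1 h2
    · exact isClosed_eq (by fun_prop) continuous_const
  have hmem : hf4.toLp f ∈ RK K := ⟨f, hf1, hf2, hf3, hf4.coeFn_toLp⟩
  rw [← hc] at hmem
  have := hcl hmem
  have h2 : inner ℂ G (hf4.toLp f) = ∫ x in K, g x * f x := hpair _ _ hf4.coeFn_toLp
  exact hne (h2 ▸ this)

end Pool.Agent.Helper960.Cap
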