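import Pool.Agent.Helper960.Cap.Seq

open MeasureTheory Filter Topology Set
open scoped ContDiff ENNReal

namespace Pool.Agent.Helper960.Cap

lemma isCompact_Box : IsCompact Box := by
  have h1 : IsClosed Box := by
    have : Box = ⋂ i, {x : E | |x i| ≤ 1} := by
      ext x; simp [Box]
    rw [this]
    exact isClosed_iInter fun i => isClosed_le (by fun_prop) continuous_const
  apply Metric.isCompact_of_isClosed_isBounded h1
  apply (Metric.isBounded_closedBall (x := (0 : E)) (r := 5)).subset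
  intro x hx
  rw [mem_closedBall_zero_iff, EuclideanSpace.norm_eq]
  calc Real.sqrt (∑ i, ‖x i‖ ^ 2) ≤ Real.sqrt (∑ _i : Fin 5, (1 : ℝ)) := by
        apply Real.sqrt_le_sqrt
        apply Finset.sum_le_sum
        intro i _
        have := hx i
        rw [Real.norm_eq_abs]
        have h0 := abs_nonneg (x i)
        nlinarith
    _ ≤ 5 := by
        rw [Real.sqrt_le_left (by norm_num)]
        norm_num

lemma isOpen_U (a : ℝ × ℝ) (ρ : ℝ) : IsOpen (U a ρ) :=
  isOpen_lt (by fun_prop) continuous_const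

lemma KK_eq (a : ℕ → ℝ × ℝ) (ρ : ℕ → ℝ) : KK a ρ = Box \ ⋃ k, U (a k) (ρ k) := rfl

lemma lap_zero_of_open (tsupport_lap : ∀ (f : E → ℂ), tsupport (lap f) ⊆ tsupport f)
    {W : E → ℂ} {O : Set E} (hO : IsOpen O) (h : ∀ x ∈ O, W x = 0) : ∀ x ∈ O, lap W x = 0 := by
  intro x hx
  apply image_eq_zero_of_notMem_tsupport
  intro hx2
  have h1 := tsupport_lap W hx2
  have h2 : tsupport W ⊆ Oᶜ := by
    apply closure_minimal _ hO.isClosed_compl
    intro y hy hyO
    exact hy (h y hyO)
  exact h2 h1 hx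

lemma Good.zero_off {W : E → ℂ} (h : Good W) : ∀ x ∈ Boxᶜ, W x = 0 := by
  intro x hx
  apply h.2.2
  by_contra hcon
  push Not at hcon
  exact hx hcon

lemma Good.hcs {W : E → ℂ} (h : Good W) : HasCompactSupport W := by
  apply HasCompactSupport.intro isCompact_Box
  intro x hx
  exact h.zero_off x hx

theorem not1
    (green : ∀ (h φ : E → ℂ) (hh : ContDiff ℝ ∞ h) (hφ : ContDiff ℝ ∞ φ)
      (hc : HasCompactSupport φ), ∫ x, h x * lap φ x = ∫ x, lap h x * φ x)
    (contDiff_lap : ∀ (f : E → ℂ) (hf : ContDiff ℝ ∞ f), ContDiff ℝ ∞ (lap f))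
    (hcs_lap : ∀ (f : E → ℂ) (hf : HasCompactSupport f), HasCompactSupport (lap f))
    (tsupport_lap : ∀ (f : E → ℂ), tsupport (lap f) ⊆ tsupport f)
    (start : ∃ W : E → ℂ, ContDiff ℝ ∞ W ∧ (∀ x : E, x 0 = 0 → W x = 0) ∧
      (∀ x : E, (∃ i, 1 < |x i|) → W x = 0) ∧ (∫ x in {x : E | 0 < x 0}, lap W x) ≠ 0)
    (step : ∀ (W : E → ℂ) (hW : Good W) (a : ℝ × ℝ) (ε : ℝ≥0∞) (hε : 0 < ε) (r : ℝ) (hr : 0 < r),
      ∃ (ρ : ℝ) (W' : E → ℂ), 0 < ρ ∧ ρ < r ∧ Good W' ∧ (∀ x, W x = 0 → W' x = 0) ∧
      (∀ x ∈ U a ρ, W' x = 0) ∧ eLpNorm (fun x => lap W' x - lap W x) 2 volume < ε)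
    (L2tilde_half : L2tilde (Set.indicator {x : E | 0 < x 0} (fun _ => (1 : ℂ))))
    (KK_compact : ∀ (a : ℕ → ℝ × ℝ) (ρ : ℕ → ℝ), IsCompact (KK a ρ))
    (KK_interior : ∀ (a : ℕ → ℝ × ℝ) (ρ : ℕ → ℝ) (ha : DenseRange a) (hρ : ∀ k, 0 < ρ k),
      ∀ x ∈ interior (KK a ρ), x 0 ≠ 0)
    (a : ℕ → ℝ × ℝ) (ha : DenseRange a) :
    ∃ ρ : ℕ → ℝ, (∀ k, 0 < ρ k) ∧ Tendsto ρ atTop (𝓝 0) ∧ ¬ Cond1 (KK a ρ) := by
  obtain ⟨W0, hW1, hW2, hW3, hI0⟩ := start
  have hW0 : Good W0 := ⟨hW1, hW2, hW3⟩
  have hfin : IsFiniteMeasure (volume.restrict Box) :=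
    ⟨by rw [Measure.restrict_apply_univ]; exact isCompact_Box.measure_lt_top⟩
  set f : E → ℂ := Set.indicator {x : E | 0 < x 0} (fun _ => (1 : ℂ)) with hf
  have hfB : MemLp f 2 (volume.restrict Box) := L2tilde_half.1 Box isCompact_Box
  set V : ℝ≥0∞ := eLpNorm f 2 (volume.restrict Box) with hV
  have hVfin : V ≠ ⊤ := hfB.2.ne
  set I0 : ℂ := ∫ x in {x : E | 0 < x 0}, lap W0 x with hI0def
  obtain ⟨C, hC0, hC1, hC2⟩ : ∃ C : ℝ≥0∞, 0 < C ∧ C ≠ ⊤ ∧ 2 * C * V < ‖I0‖ₑ := by
    refine ⟨ENNReal.ofReal (‖I0‖ / (4 * (V.toReal + 1))), ?_, ENNReal.ofReal_ne_top, ?_⟩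
    · rw [ENNReal.ofReal_pos]
      have : 0 < ‖I0‖ := norm_pos_iff.2 hI0
      have h2 : 0 ≤ V.toReal := ENNReal.toReal_nonneg
      positivity
    · have hn : 0 < ‖I0‖ := norm_pos_iff.2 hI0
      have h2 : 0 ≤ V.toReal := ENNReal.toReal_nonneg
      rw [← ENNReal.ofReal_toReal hVfin, ← ofReal_norm]
      rw [show (2 : ℝ≥0∞) = ENNReal.ofReal 2 by simp]
      rw [← ENNReal.ofReal_mul (by norm_num), ← ENNReal.ofReal_mul (by positivity)]
      rw [ENNReal.toReal_ofReal h2]
      apply (ENNReal.ofReal_lt_ofReal_iff hn).2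
      rw [show 2 * (‖I0‖ / (4 * (V.toReal + 1))) * V.toReal = ‖I0‖ * (V.toReal / (2 * (V.toReal + 1))) by
        field_simp; ring]
      have : V.toReal / (2 * (V.toReal + 1)) < 1 := by
        rw [div_lt_one (by positivity)]
        linarith
      nlinarith
  obtain ⟨ρ, W, hWz, hρ0, hρ1, hgood, hmono, hU, hdist⟩ := exists_seq step W0 hW0 a C hC0
  have hcs : ∀ m, HasCompactSupport (lap (W m)) := fun m => hcs_lap _ (hgood m).hcs
  have hcont : ∀ m, Continuous (lap (W m)) := fun m => (contDiff_lap _ (hgood m).1).continuous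
  have hMem : ∀ m, MemLp (lap (W m)) 2 volume := fun m =>
    (hcont m).memLp_of_hasCompactSupport (hcs m)
  obtain ⟨g, hg, hlim, hg0⟩ := exists_limit (fun m => lap (W m)) hMem C hC1 hdist
  have hmeasBox : MeasurableSet Box := isCompact_Box.isClosed.measurableSet
  have hmeasU : ∀ k, MeasurableSet (U (a k) (ρ k)) := fun k => (isOpen_U _ _).measurableSet
  have hmonoU : ∀ k m, k < m → ∀ x ∈ U (a k) (ρ k), W m x = 0 := by
    intro k m hkm
    induction m with
    | zero => omega
    | succ m ih =>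
      intro x hx
      rcases Nat.lt_succ_iff_lt_or_eq.1 hkm with h | h
      · exact hmono m x (ih h x hx)
      · rw [← h]; exact hU k x hx
  have hlapBox : ∀ m, ∀ x ∈ Boxᶜ, lap (W m) x = 0 := fun m =>
    lap_zero_of_open tsupport_lap isCompact_Box.isClosed.isOpen_compl (hgood m).zero_off
  have hgBox : ∀ᵐ x ∂(volume.restrict Boxᶜ), g x = 0 :=
    limit_zero hg.1 (fun m => (hMem m).1) hlim hmeasBox.compl (N := 0)
      (fun m _ x hx => hlapBox m x hx)
  have hgU : ∀ k, ∀ᵐ x ∂(volume.restrict (U (a k) (ρ k))), g x = 0 := by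
    intro k
    refine limit_zero hg.1 (fun m => (hMem m).1) hlim (hmeasU k) (N := k + 1) ?_
    intro m hm x hx
    exact lap_zero_of_open tsupport_lap (isOpen_U _ _) (hmonoU k m (by omega)) x hx
  have hgK : ∀ᵐ x ∂volume, x ∉ KK a ρ → g x = 0 := by
    have h1 := (ae_restrict_iff' hmeasBox.compl).1 hgBox
    have h2 : ∀ᵐ x ∂volume, ∀ k, x ∈ U (a k) (ρ k) → g x = 0 :=
      ae_all_iff.2 fun k => (ae_restrict_iff' (hmeasU k)).1 (hgU k)
    filter_upwards [h1, h2] with x hx1 hx2 hxK
    rw [KK_eq] at hxK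
    by_cases hB : x ∈ Box
    · have : x ∈ ⋃ k, U (a k) (ρ k) := by
        by_contra hcon
        exact hxK ⟨hB, hcon⟩
      obtain ⟨k, hk⟩ := mem_iUnion.1 this
      exact hx2 k hk
    · exact hx1 hB
  have hKc : IsCompact (KK a ρ) := KK_compact a ρ
  have hKB : KK a ρ ⊆ Box := fun x hx => hx.1
  have hpass : ∀ h : E → ℂ, ∫ x in KK a ρ, g x * h x = ∫ x in Box, g x * h x := by
    intro h
    symm
    apply setIntegral_eq_of_subset_of_ae_sdiff_eq_zero hmeasBox.nullMeasurableSet hKB
    filter_upwards [hgK] with x hx hx2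
    rw [hx hx2.2, zero_mul]
  have hlimB : Tendsto (fun m => eLpNorm (fun x => lap (W m) x - g x) 2 (volume.restrict Box)) atTop (𝓝 0) :=
    tendsto_of_tendsto_of_tendsto_of_le_of_le tendsto_const_nhds hlim (fun _ => bot_le)
      (fun m => eLpNorm_mono_measure _ Measure.restrict_le_self)
  refine ⟨ρ, hρ0, ?_, ?_⟩
  · refine squeeze_zero (fun k => (hρ0 k).le) (fun k => (hρ1 k).le) ?_
    exact tendsto_one_div_add_atTop_nhds_zero_nat
  · have hhalf : ∀ x ∈ interior (KK a ρ), ∃ c : ℂ, f =ᶠ[𝓝 x] fun _ => c := by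
      intro x hx
      have h0 := KK_interior a ρ ha hρ0 x hx
      rcases lt_or_gt_of_ne h0 with h | h
      · refine ⟨0, ?_⟩
        have : {y : E | y 0 < 0} ∈ 𝓝 x := (isOpen_lt (by fun_prop) continuous_const).mem_nhds h
        filter_upwards [this] with y hy
        rw [hf, indicator_of_notMem]
        simp only [Set.mem_ofPred_eq, not_lt] at hy ⊢
        exact hy.le
      · refine ⟨1, ?_⟩
        have : {y : E | 0 < y 0} ∈ 𝓝 x := (isOpen_lt continuous_const (by fun_prop)).mem_nhds h
        filter_upwards [this] with y hy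
        rw [hf]
        exact indicator_of_mem (s := {y : E | 0 < y 0}) hy _
    refine not_cond1 (KK a ρ) g (hg.restrict _) ?_ f L2tilde_half ?_ ?_ (L2tilde_half.1 _ hKc) ?_
    · intro h hh ⟨O, hO, hKO, hlapO⟩
      rw [hpass]
      have hhB : MemLp h 2 (volume.restrict Box) := by
        obtain ⟨M, hM⟩ := isCompact_Box.exists_bound_of_continuousOn hh.continuous.continuousOn
        exact MemLp.of_bound hh.continuous.aestronglyMeasurable M
          ((ae_restrict_iff' hmeasBox).2 (Eventually.of_forall hM))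
      have ht := limit_pair (μ := volume.restrict Box) (hg.restrict _) (fun m => (hMem m).restrict _) hlimB hhB
      -- finite cover
      obtain ⟨N, hN⟩ : ∃ N : ℕ, ∀ x ∈ Box \ O, ∃ k < N, x ∈ U (a k) (ρ k) := by
        have hc : IsCompact (Box \ O) := isCompact_Box.diff hO
        obtain ⟨t, ht⟩ := hc.elim_finite_subcover (fun k => U (a k) (ρ k)) (fun k => isOpen_U _ _) (by
          intro x hx
          by_contra hcon
          exact hx.2 (hKO ⟨hx.1, hcon⟩))
        refine ⟨t.sup id + 1, ?_⟩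
        intro x hx
        obtain ⟨k, hk⟩ := mem_iUnion.1 (ht hx)
        obtain ⟨hk1, hk2⟩ := mem_iUnion.1 hk
        exact ⟨k, Nat.lt_succ_of_le (Finset.le_sup (f := id) hk1), hk2⟩
      have hzero : ∀ m ≥ N, ∫ x in Box, lap (W m) x * h x = 0 := by
        intro m hm
        have e1 : ∫ x in Box, lap (W m) x * h x = ∫ x, lap (W m) x * h x := by
          apply setIntegral_eq_integral_of_forall_compl_eq_zero
          intro x hx
          rw [hlapBox m x hx, zero_mul]
        rw [e1]
        have e2 : ∫ x, lap (W m) x * h x = ∫ x, h x * lap (W m) x := by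
          congr 1; funext x; ring
        rw [e2, green h (W m) hh (hgood m).1 (hgood m).hcs]
        have e3 : (fun x => lap h x * W m x) = fun _ => 0 := by
          funext x
          by_cases hxO : x ∈ O
          · rw [hlapO x hxO, zero_mul]
          · by_cases hxB : x ∈ Box
            · obtain ⟨k, hk, hkU⟩ := hN x ⟨hxB, hxO⟩
              rw [hmonoU k m (by omega) x hkU, mul_zero]
            · rw [(hgood m).zero_off x hxB, mul_zero]
        rw [e3, integral_zero]
      apply tendsto_nhds_unique ht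
      apply tendsto_const_nhds.congr'
      filter_upwards [eventually_ge_atTop N] with m hm
      exact (hzero m hm).symm
    · intro x hx
      obtain ⟨c, hc⟩ := hhalf x hx
      exact (contDiffAt_const.congr_of_eventuallyEq hc).contDiffWithinAt
    · intro x hx
      obtain ⟨c, hc⟩ := hhalf x hx
      have h1 : ∀ i, pd i f =ᶠ[𝓝 x] fun _ => 0 := by
        intro i
        filter_upwards [eventually_eventually_nhds.2 hc] with y hy
        have hy' : f =ᶠ[𝓝 y] fun _ => c := hy
        simp only [pd]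
        rw [hy'.fderiv_eq]
        simp
      have h2 : ∀ i, pd i (pd i f) x = 0 := by
        intro i
        have e : pd i (pd i f) x = fderiv ℝ (pd i f) x (EuclideanSpace.single i 1) := rfl
        rw [e, (h1 i).fderiv_eq]
        simp
      simp only [lap]
      exact Finset.sum_eq_zero fun i _ => h2 i
    · rw [hpass]
      have e1 : ∫ x in Box, lap W0 x * f x = I0 := by
        have e2 : ∫ x in Box, lap W0 x * f x = ∫ x, lap W0 x * f x := by
          apply setIntegral_eq_integral_of_forall_compl_eq_zero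
          intro x hx
          have := hlapBox 0 x hx
          rw [hWz] at this
          rw [this, zero_mul]
        rw [e2, hI0def, ← integral_indicator (isOpen_lt continuous_const (by fun_prop)).measurableSet]
        congr 1
        funext x
        by_cases hx : x ∈ {x : E | 0 < x 0}
        · rw [indicator_of_mem hx, hf, indicator_of_mem hx, mul_one]
        · rw [indicator_of_notMem hx, hf, indicator_of_notMem hx, mul_zero]
      intro hcon
      have hM0 : MemLp (lap W0) 2 (volume.restrict Box) := by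
        have := (hMem 0).restrict Box
        rwa [hWz] at this
      have e3 : I0 = ∫ x in Box, (lap W0 x - g x) * f x := by
        have hi1 : Integrable (fun x => lap W0 x * f x) (volume.restrict Box) := hM0.integrable_mul hfB
        have hi2 : Integrable (fun x => g x * f x) (volume.restrict Box) :=
          (hg.restrict Box).integrable_mul hfB
        have : (fun x => (lap W0 x - g x) * f x) = fun x => lap W0 x * f x - g x * f x := by
          funext x; ring
        rw [this, integral_sub hi1 hi2, e1, hcon, sub_zero]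
      have e4 : ‖I0‖ₑ ≤ 2 * C * V := by
        calc ‖I0‖ₑ = ‖∫ x in Box, (lap W0 x - g x) * f x‖ₑ := by rw [← e3]
          _ ≤ eLpNorm (fun x => lap W0 x - g x) 2 (volume.restrict Box) * V :=
              enorm_integral_mul_le (hM0.1.sub (hg.restrict Box).1) hfB.1
          _ ≤ 2 * C * V := by
              gcongr
              refine (eLpNorm_mono_measure _ Measure.restrict_le_self).trans ?_
              have := hg0
              simp only [hWz] at this
              exact this
      exact absurd hC2 (not_lt.2 e4)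

end Pool.Agent.Helper960.Cap
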