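import Pool.Agent.Helper960.Cap.Lim
import Pool.Agent.Helper960.Cap.Base

open MeasureTheory Filter Topology Set
open scoped ContDiff ENNReal

namespace Pool.Agent.Helper960.Cap

/-- completeness of `L²`, for functions -/
lemma exists_limit (G : ℕ → E → ℂ) (hG : ∀ m, MemLp (G m) 2 volume) (C : ℝ≥0∞) (hC : C ≠ ⊤)
    (h : ∀ m, eLpNorm (fun x => G (m + 1) x - G m x) 2 volume ≤ C / 2 ^ m) :
    ∃ g : E → ℂ, MemLp g 2 volume ∧
      Tendsto (fun m => eLpNorm (fun x => G m x - g x) 2 volume) atTop (𝓝 0) ∧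
      eLpNorm (fun x => G 0 x - g x) 2 volume ≤ 2 * C := by
  set F : ℕ → Lp ℂ 2 (volume : Measure E) := fun m => (hG m).toLp (G m) with hF
  have hed : ∀ m, edist (F m) (F (m + 1)) ≤ C / 2 ^ m := by
    intro m
    rw [edist_comm, hF, Lp.edist_toLp_toLp]
    exact h m
  have hc : CauchySeq F := cauchySeq_of_edist_le_geometric_two C hC hed
  obtain ⟨g, hg⟩ := cauchySeq_tendsto_of_complete hc
  have hdist : ∀ m, edist (F m) g = eLpNorm (fun x => G m x - g x) 2 volume := by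
    intro m
    rw [Lp.edist_def]
    apply eLpNorm_congr_ae
    filter_upwards [(hG m).coeFn_toLp] with x hx
    simp only [Pi.sub_apply, hF]
    rw [hx]
  refine ⟨g, Lp.memLp g, ?_, ?_⟩
  · have := tendsto_iff_edist_tendsto_0.1 hg
    simpa only [hdist] using this
  · rw [← hdist]
    exact edist_le_of_edist_le_geometric_two_of_tendsto₀ C hed hg

/-- the box -/
def Box : Set E := {x | ∀ i, |x i| ≤ 1}

/-- good functions -/
def Good (W : E → ℂ) : Prop :=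
  ContDiff ℝ ∞ W ∧ (∀ x : E, x 0 = 0 → W x = 0) ∧ (∀ x : E, (∃ i, 1 < |x i|) → W x = 0)

theorem exists_seq
    (step : ∀ (W : E → ℂ) (hW : Good W) (a : ℝ × ℝ) (ε : ℝ≥0∞) (hε : 0 < ε) (r : ℝ) (hr : 0 < r),
      ∃ (ρ : ℝ) (W' : E → ℂ), 0 < ρ ∧ ρ < r ∧ Good W' ∧ (∀ x, W x = 0 → W' x = 0) ∧
      (∀ x ∈ U a ρ, W' x = 0) ∧ eLpNorm (fun x => lap W' x - lap W x) 2 volume < ε)
    (W0 : E → ℂ) (hW0 : Good W0) (a : ℕ → ℝ × ℝ) (C : ℝ≥0∞) (hC : 0 < C) :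
    ∃ (ρ : ℕ → ℝ) (W : ℕ → E → ℂ), W 0 = W0 ∧ (∀ k, 0 < ρ k) ∧ (∀ k, ρ k < 1 / ((k : ℝ) + 1)) ∧
      (∀ k, Good (W k)) ∧ (∀ k x, W k x = 0 → W (k + 1) x = 0) ∧
      (∀ k, ∀ x ∈ U (a k) (ρ k), W (k + 1) x = 0) ∧
      (∀ k, eLpNorm (fun x => lap (W (k + 1)) x - lap (W k) x) 2 volume ≤ C / 2 ^ k) := by
  have hpos : ∀ k : ℕ, 0 < C / 2 ^ k := fun k =>
    ENNReal.div_pos hC.ne' (by simp)
  choose! rho S h1 h2 h3 h4 h5 h6 using step
  let W : ℕ → E → ℂ := fun n => Nat.rec W0 (fun k Wk => S Wk (a k) (C / 2 ^ k) (1 / ((k : ℝ) + 1))) n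
  have hWs : ∀ k, W (k + 1) = S (W k) (a k) (C / 2 ^ k) (1 / ((k : ℝ) + 1)) := fun k => rfl
  have hr : ∀ k : ℕ, (0 : ℝ) < 1 / ((k : ℝ) + 1) := fun k => by positivity
  have hgood : ∀ k, Good (W k) := by
    intro k
    induction k with
    | zero => exact hW0
    | succ k ih =>
      rw [hWs]
      exact h3 (W k) ih (a k) _ (hpos k) _ (hr k)
  refine ⟨fun k => rho (W k) (a k) (C / 2 ^ k) (1 / ((k : ℝ) + 1)), W, rfl, ?_, ?_, hgood, ?_, ?_, ?_⟩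
  · intro k
    exact h1 (W k) (hgood k) (a k) _ (hpos k) _ (hr k)
  · intro k
    exact h2 (W k) (hgood k) (a k) _ (hpos k) _ (hr k)
  · intro k x hx
    rw [hWs]
    exact h4 (W k) (hgood k) (a k) _ (hpos k) _ (hr k) x hx
  · intro k x hx
    rw [hWs]
    exact h5 (W k) (hgood k) (a k) _ (hpos k) _ (hr k) x hx
  · intro k
    rw [hWs]
    exact (h6 (W k) (hgood k) (a k) _ (hpos k) _ (hr k)).le

end Pool.Agent.Helper960.Cap
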