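import Mathlib

open MeasureTheory Filter Topology Set
open scoped ContDiff ENNReal

namespace Pool.Agent.Helper960.Cap.Stmt

section gen

variable {V : Type} [NormedAddCommGroup V] [NormedSpace ℝ V]

/-- infinitely differentiable functions -/
def Smooth (f : V → ℂ) : Prop := ContDiff ℝ ∞ f

/-- functions which are infinitely differentiable on the set `O` -/
def SmoothOn (f : V → ℂ) (O : Set V) : Prop := ContDiffOn ℝ ∞ f O

/-- the derivative in the direction `v` -/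
noncomputable def dir (v : V) (f : V → ℂ) : V → ℂ := fun x => fderiv ℝ f x v

/-- the derivatives of `φ` of order at most `N` are bounded by `A` on the set `L` -/
def DerivBound (N : ℕ) (L : Set V) (φ : V → ℂ) (A : ℝ) : Prop :=
  ∀ m ≤ N, ∀ x ∈ L, ‖iteratedFDeriv ℝ m φ x‖ ≤ A

/-- `f` is (the extension to all smooth functions of) a distribution whose support is contained
in the compact set `L`. -/
structure IsDist (L : Set V) (f : (V → ℂ) → ℂ) : Prop where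
  compact : IsCompact L
  add : ∀ φ ψ : V → ℂ, Smooth φ → Smooth ψ → f (φ + ψ) = f φ + f ψ
  smul : ∀ (c : ℂ) (φ : V → ℂ), Smooth φ → f (c • φ) = c * f φ
  cont : ∃ (L' : Set V) (N : ℕ) (C : ℝ), IsCompact L' ∧ ∀ φ : V → ℂ, Smooth φ →
    ∀ A : ℝ, 0 ≤ A → DerivBound N L' φ A → ‖f φ‖ ≤ C * A
  supp : ∀ φ : V → ℂ, Smooth φ → Disjoint L (tsupport φ) → f φ = 0

variable [MeasureSpace V]

/-- `Φ` is a fundamental solution of the operator `P`, smooth off the origin and homogeneous of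
degree `-k`. -/
structure IsFund (P : (V → ℂ) → V → ℂ) (k : ℕ) (Φ : V → ℂ) : Prop where
  smooth : SmoothOn Φ {0}ᶜ
  locInt : LocallyIntegrable Φ
  hom : ∀ (t : ℝ) (x : V), 0 < t → x ≠ 0 → Φ (t • x) = ((t ^ k)⁻¹ : ℝ) * Φ x
  fund : ∀ φ : V → ℂ, Smooth φ → HasCompactSupport φ → ∫ x, Φ x * P φ x = φ 0

/-- the distribution `Φ * f` is the function `u` -/
def IsConv (Φ : V → ℂ) (f : (V → ℂ) → ℂ) (u : V → ℂ) : Prop :=
  ∀ φ : V → ℂ, Smooth φ → HasCompactSupport φ →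
    ∫ x, u x * φ x = f (fun y => ∫ x, Φ (x - y) * φ x)

/-- the space `L²_loc` -/
def L2loc (u : V → ℂ) : Prop := ∀ L : Set V, IsCompact L → MemLp u 2 (volume.restrict L)

/-- the closure of `C^∞` in `L²_loc` -/
def L2tilde (u : V → ℂ) : Prop := L2loc u ∧ ∀ L : Set V, IsCompact L → ∀ ε : ℝ≥0∞, 0 < ε →
  ∃ g : V → ℂ, Smooth g ∧ eLpNorm (u - g) 2 (volume.restrict L) < ε

/-- the capacity `c` -/
noncomputable def cap (Φ : V → ℂ) (σ : Set V) : ℝ≥0∞ :=
  sSup {t | ∃ (f : (V → ℂ) → ℂ) (L : Set V) (u : V → ℂ), L ⊆ σ ∧ IsDist L f ∧ IsConv Φ f u ∧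
    L2loc u ∧ eLpNorm u 2 volume ≤ 1 ∧ t = ‖f 1‖ₑ}

/-- the capacity `c̃` -/
noncomputable def capT (Φ : V → ℂ) (σ : Set V) : ℝ≥0∞ :=
  sSup {t | ∃ (f : (V → ℂ) → ℂ) (L : Set V) (u : V → ℂ), L ⊆ σ ∧ IsDist L f ∧ IsConv Φ f u ∧
    L2tilde u ∧ eLpNorm u 2 volume ≤ 1 ∧ t = ‖f 1‖ₑ}

/-- condition (3) -/
def Cond3 (Φ : V → ℂ) (K : Set V) : Prop :=
  ∀ x ∈ frontier K, 0 < liminf (fun δ : ℝ =>
    cap Φ (Metric.ball x δ \ K) / capT Φ (Metric.ball x δ \ interior K)) (𝓝[>] 0)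

/-- smooth functions `h` with `P h = 0` on an open neighbourhood of `K` -/
def InS (P : (V → ℂ) → V → ℂ) (K : Set V) (h : V → ℂ) : Prop :=
  Smooth h ∧ ∃ O : Set V, IsOpen O ∧ K ⊆ O ∧ ∀ x ∈ O, P h x = 0

/-- functions `f` in the closure of `C^∞` in `L²_loc` which on the interior of `K` are smooth with
`P f = 0` -/
def InR (P : (V → ℂ) → V → ℂ) (K : Set V) (f : V → ℂ) : Prop :=
  L2tilde f ∧ SmoothOn f (interior K) ∧ ∀ x ∈ interior K, P f x = 0

/-- condition (1): an element `f` of `L²(K)` is a limit in `L²(K)` of elements of `S(K)` if and only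
if it is (almost everywhere on `K`) an element of `S(K°) ∩ L̃²(K)` -/
def Cond1 (P : (V → ℂ) → V → ℂ) (K : Set V) : Prop :=
  ∀ f : V → ℂ, MemLp f 2 (volume.restrict K) →
    ((∀ ε : ℝ≥0∞, 0 < ε → ∃ h : V → ℂ, InS P K h ∧ eLpNorm (f - h) 2 (volume.restrict K) < ε) ↔
      ∃ g : V → ℂ, InR P K g ∧ f =ᵐ[volume.restrict K] g)

/-- the negated form, for the operator `P` whose homogeneous fundamental solution has
degree `-k` -/
def Negated (P : (V → ℂ) → V → ℂ) (k : ℕ) : Prop :=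
  (∃ Φ : V → ℂ, IsFund P k Φ) ∧
    ∃ K : Set V, IsCompact K ∧ (∀ Φ : V → ℂ, IsFund P k Φ → Cond3 Φ K) ∧ ¬ Cond1 P K

end gen

/-- the space `ℝ⁵` with its Euclidean norm -/
abbrev R5 := EuclideanSpace ℝ (Fin 5)

/-- the Laplace operator on `ℝ⁵` -/
noncomputable def lap5 (f : R5 → ℂ) : R5 → ℂ :=
  fun x => ∑ i, dir (EuclideanSpace.single i 1) (dir (EuclideanSpace.single i 1) f) x

end Pool.Agent.Helper960.Cap.Stmt
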