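import Pool.Agent.Helper960.Cap.B1
import Pool.Agent.Helper960.Cap.B2
import Pool.Agent.Helper960.Cap.B3
import Pool.Agent.Helper960.Cap.C1
import Pool.Agent.Helper960.Cap.C2
import Pool.Agent.Helper960.Cap.E1

open MeasureTheory Filter Topology Set
open scoped ContDiff ENNReal

namespace Pool.Agent.Helper960.Cap

lemma IsFund.measurable {Φ : E → ℂ} (h : IsFund Φ) : Measurable Φ :=
  measurable_of_continuousOn_compl_singleton 0 h.smooth.continuousOn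

lemma IsFund.bound {Φ : E → ℂ} (h : IsFund Φ) :
    ∃ C : ℝ, 0 ≤ C ∧ ∀ x, x ≠ 0 → ‖Φ x‖ ≤ C * (‖x‖ ^ 3)⁻¹ := by
  have hs : IsCompact (Metric.sphere (0 : E) 1) := isCompact_sphere 0 1
  have hc : ContinuousOn Φ (Metric.sphere (0 : E) 1) := by
    apply h.smooth.continuousOn.mono
    intro x hx
    have : ‖x‖ = 1 := by simpa using hx
    intro h0
    rw [mem_singleton_iff] at h0
    rw [h0, norm_zero] at this
    norm_num at this
  obtain ⟨C, hC⟩ := hs.exists_bound_of_continuousOn hc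
  refine ⟨max C 0, le_max_right _ _, ?_⟩
  intro x hx
  have hn : 0 < ‖x‖ := norm_pos_iff.2 hx
  have hy : ‖x‖⁻¹ • x ≠ 0 := smul_ne_zero (inv_ne_zero hn.ne') hx
  have e1 := h.hom ‖x‖ (‖x‖⁻¹ • x) hn hy
  rw [smul_smul, mul_inv_cancel₀ hn.ne', one_smul] at e1
  rw [e1, norm_mul]
  have h1 : ‖Φ (‖x‖⁻¹ • x)‖ ≤ max C 0 := by
    refine (hC _ ?_).trans (le_max_left _ _)
    simp [norm_smul, hn.ne']
  have h2 : ‖(((‖x‖ ^ 3)⁻¹ : ℝ) : ℂ)‖ = (‖x‖ ^ 3)⁻¹ := by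
    rw [Complex.norm_real, Real.norm_eq_abs, abs_of_nonneg (by positivity)]
  rw [h2, mul_comm]
  gcongr

lemma L2loc.aesm {u : E → ℂ} (h : L2loc u) : AEStronglyMeasurable u volume := by
  have h1 : (⋃ n : ℕ, Metric.closedBall (0 : E) n) = univ := Metric.iUnion_closedBall_nat 0
  have h2 : AEStronglyMeasurable u (volume.restrict (⋃ n : ℕ, Metric.closedBall (0 : E) n)) := by
    rw [aestronglyMeasurable_iUnion_iff]
    intro n
    exact (h _ (isCompact_closedBall 0 n)).1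
  rwa [h1, Measure.restrict_univ] at h2

lemma isConv_const {Φ : E → ℂ} {f : (E → ℂ) → ℂ} {u : E → ℂ} (h : IsConv Φ f u) (k : ℂ) :
    IsConv Φ (fun φ => k * f φ) (fun x => k * u x) := by
  intro φ h1 h2
  have := h φ h1 h2
  simp only
  rw [← this, ← integral_const_mul]
  congr 1
  funext x
  ring

/-- lower bound for the capacity of a small square -/
lemma cap_lower {Φ : E → ℂ} (h : IsFund Φ) : ∃ k : ℝ, 0 < k ∧ ∀ (b : E) (r : ℝ), 0 < r →
    ∀ σ : Set E, (fun y => b + r • y) '' (pt '' Sq) ⊆ σ →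
      ENNReal.ofReal (k * r ^ (1 / 2 : ℝ)) ≤ cap Φ σ := by
  obtain ⟨C, hC, hb⟩ := h.bound
  have hu0 : MemLp (fun x : E => ∫ p in Sq, Φ (x - pt p)) 2 :=
    B2.disc_L2 Φ C hC h.measurable hb (fun R => B1.near_L2 Φ C R hC h.measurable hb)
  set u0 : E → ℂ := fun x : E => ∫ p in Sq, Φ (x - pt p) with hu0def
  set N : ℝ := (eLpNorm u0 2 volume).toReal with hN
  have hN0 : 0 ≤ N := ENNReal.toReal_nonneg
  set m : ℝ := (N + 1)⁻¹ with hm
  have hm0 : 0 < m := by positivity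
  refine ⟨4 * m, by positivity, ?_⟩
  intro b r hr σ hσ
  have hconv := B3.disc_conv Φ h.measurable h.locInt
  have hdist := B3.disc_isDist
  have hs := C1.isConv_scale Φ h.hom _ u0 b r hr hconv hdist.smul
    (fun φ h1 h2 => C2.conv_smooth Φ h.locInt φ h1 h2)
  have hs2 := isConv_const hs (m : ℂ)
  have hd := C1.isDist_scale (pt '' Sq) _ b r hr hdist ((m : ℂ) * ((r ^ (1 / 2 : ℝ) : ℝ) : ℂ))
  have hn := C1.eLpNorm_scale u0 b r hr hu0.1
  have hsm : AEStronglyMeasurable (fun x => ((r ^ (-(5 / 2) : ℝ) : ℝ) : ℂ) * u0 (r⁻¹ • (x - b))) volume := by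
    apply AEStronglyMeasurable.const_mul
    have hq : Measure.QuasiMeasurePreserving (fun x : E => r⁻¹ • (x - b)) volume volume := by
      have h1 : Measure.QuasiMeasurePreserving (fun x : E => x - b) volume volume :=
        (measurePreserving_sub_right volume b).quasiMeasurePreserving
      have h2 : Measure.QuasiMeasurePreserving (fun x : E => r⁻¹ • x) volume volume := by
        refine ⟨by fun_prop, ?_⟩
        rw [Measure.map_addHaar_smul volume (inv_ne_zero hr.ne')]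
        exact Measure.smul_absolutelyContinuous
      exact h2.comp h1
    exact hu0.1.comp_quasiMeasurePreserving hq
  have hnorm : eLpNorm (fun x => (m : ℂ) * (((r ^ (-(5 / 2) : ℝ) : ℝ) : ℂ) * u0 (r⁻¹ • (x - b)))) 2 volume ≤ 1 := by
    have e1 := eLpNorm_const_smul (m : ℂ) (fun x => ((r ^ (-(5 / 2) : ℝ) : ℝ) : ℂ) * u0 (r⁻¹ • (x - b))) 2 (volume : Measure E)
    have e2 : ((m : ℂ) • fun x => ((r ^ (-(5 / 2) : ℝ) : ℝ) : ℂ) * u0 (r⁻¹ • (x - b))) =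
        fun x => (m : ℂ) * (((r ^ (-(5 / 2) : ℝ) : ℝ) : ℂ) * u0 (r⁻¹ • (x - b))) := by
      funext x; simp
    rw [e2] at e1
    rw [e1, hn]
    have e3 : ‖(m : ℂ)‖ₑ = ENNReal.ofReal m := by
      rw [← ofReal_norm, Complex.norm_real, Real.norm_eq_abs, abs_of_pos hm0]
    rw [e3, ← ENNReal.ofReal_toReal hu0.2.ne, ← hN, ← ENNReal.ofReal_mul hm0.le]
    rw [← ENNReal.ofReal_one]
    apply ENNReal.ofReal_le_ofReal
    rw [hm, inv_mul_le_iff₀ (by positivity)]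
    linarith
  have hmem : MemLp (fun x => (m : ℂ) * (((r ^ (-(5 / 2) : ℝ) : ℝ) : ℂ) * u0 (r⁻¹ • (x - b)))) 2 volume :=
    ⟨hsm.const_mul _, hnorm.trans_lt ENNReal.one_lt_top⟩
  apply le_sSup
  refine ⟨fun φ => ((m : ℂ) * ((r ^ (1 / 2 : ℝ) : ℝ) : ℂ)) * (fun φ : E → ℂ => ∫ p in Sq, φ (pt p)) (fun y => φ (b + r • y)),
    (fun y => b + r • y) '' (pt '' Sq), _, hσ, hd, ?_, fun L _ => hmem.restrict L, hnorm, ?_⟩
  · intro φ h1 h2
    have := hs2 φ h1 h2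
    rw [this]
    ring
  · have e1 : (fun y : E => (1 : E → ℂ) (b + r • y)) = 1 := by funext y; simp
    show _ = ‖((m : ℂ) * ((r ^ (1 / 2 : ℝ) : ℝ) : ℂ)) *
      (fun φ : E → ℂ => ∫ p in Sq, φ (pt p)) (fun y => (1 : E → ℂ) (b + r • y))‖ₑ
    rw [e1, B3.disc_one]
    rw [← ofReal_norm]
    congr 1
    rw [norm_mul, norm_mul, Complex.norm_real, Complex.norm_real, Real.norm_eq_abs, Real.norm_eq_abs,
      abs_of_pos hm0, abs_of_nonneg (by positivity)]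
    norm_num
    ring

/-- upper bound for the capacity of a small ball -/
lemma cap_upper
    (bound_ball : ∀ (Φ : E → ℂ)
      (fund : ∀ φ : E → ℂ, ContDiff ℝ ∞ φ → HasCompactSupport φ → ∫ x, Φ x * lap φ x = φ 0),
      ∃ C : ℝ, 0 ≤ C ∧ ∀ (L : Set E) (f : (E → ℂ) → ℂ) (u : E → ℂ), L ⊆ Metric.ball 0 1 → IsDist L f →
        IsConv Φ f u → MemLp u 2 volume → eLpNorm u 2 volume ≤ 1 → ‖f 1‖ ≤ C)
    {Φ : E → ℂ} (h : IsFund Φ) : ∃ C : ℝ, 0 < C ∧ ∀ (x : E) (δ : ℝ), 0 < δ →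
    ∀ σ : Set E, σ ⊆ Metric.ball x δ →
      capT Φ σ ≤ ENNReal.ofReal (C * δ ^ (1 / 2 : ℝ)) := by
  obtain ⟨C, hC, hb⟩ := bound_ball Φ h.fund
  refine ⟨C + 1, by positivity, ?_⟩
  intro x δ hδ σ hσ
  apply sSup_le
  rintro t ⟨f, L, u, hL, hf, hu, hut, hun, rfl⟩
  have huloc := hut.1.aesm
  set r : ℝ := δ⁻¹ with hr
  have hr0 : 0 < r := by positivity
  set a : E := -(r • x) with ha
  have hs := C1.isConv_scale Φ h.hom f u a r hr0 hu hf.smul
    (fun φ h1 h2 => C2.conv_smooth Φ h.locInt φ h1 h2)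
  have hd := C1.isDist_scale L f a r hr0 hf ((r ^ (1 / 2 : ℝ) : ℝ) : ℂ)
  have hn := C1.eLpNorm_scale u a r hr0 huloc
  have hsm : AEStronglyMeasurable (fun x => ((r ^ (-(5 / 2) : ℝ) : ℝ) : ℂ) * u (r⁻¹ • (x - a))) volume := by
    apply AEStronglyMeasurable.const_mul
    have hq : Measure.QuasiMeasurePreserving (fun x : E => r⁻¹ • (x - a)) volume volume := by
      have h1 : Measure.QuasiMeasurePreserving (fun x : E => x - a) volume volume :=
        (measurePreserving_sub_right volume a).quasiMeasurePreserving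
      have h2 : Measure.QuasiMeasurePreserving (fun x : E => r⁻¹ • x) volume volume := by
        refine ⟨by fun_prop, ?_⟩
        rw [Measure.map_addHaar_smul volume (inv_ne_zero hr0.ne')]
        exact Measure.smul_absolutelyContinuous
      exact h2.comp h1
    exact huloc.comp_quasiMeasurePreserving hq
  have hn1 : eLpNorm (fun x => ((r ^ (-(5 / 2) : ℝ) : ℝ) : ℂ) * u (r⁻¹ • (x - a))) 2 volume ≤ 1 := by
    rw [hn]; exact hun
  have hsub : (fun y => a + r • y) '' L ⊆ Metric.ball 0 1 := by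
    rintro _ ⟨y, hy, rfl⟩
    have hy2 := hσ (hL hy)
    rw [mem_ball_iff_norm] at hy2
    rw [mem_ball_zero_iff]
    have : a + r • y = r • (y - x) := by rw [ha, smul_sub]; abel
    simp only
    rw [this, norm_smul, Real.norm_eq_abs, abs_of_pos hr0, hr, inv_mul_lt_iff₀ hδ]
    linarith
  have hfin := hb _ _ _ hsub hd hs ⟨hsm, hn1.trans_lt ENNReal.one_lt_top⟩ hn1
  have e1 : (fun y : E => (1 : E → ℂ) (a + r • y)) = 1 := by funext y; simp
  rw [e1, norm_mul, Complex.norm_real, Real.norm_eq_abs, abs_of_nonneg (by positivity)] at hfin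
  rw [← ofReal_norm]
  apply ENNReal.ofReal_le_ofReal
  have hrp : r ^ (1 / 2 : ℝ) * δ ^ (1 / 2 : ℝ) = 1 := by
    rw [← Real.mul_rpow hr0.le hδ.le, hr, inv_mul_cancel₀ hδ.ne', Real.one_rpow]
  have hδp : 0 < δ ^ (1 / 2 : ℝ) := Real.rpow_pos_of_pos hδ _
  calc ‖f 1‖ = (r ^ (1 / 2 : ℝ) * δ ^ (1 / 2 : ℝ)) * ‖f 1‖ := by rw [hrp, one_mul]
    _ = (r ^ (1 / 2 : ℝ) * ‖f 1‖) * δ ^ (1 / 2 : ℝ) := by ring
    _ ≤ C * δ ^ (1 / 2 : ℝ) := by gcongr
    _ ≤ (C + 1) * δ ^ (1 / 2 : ℝ) := by gcongr; linarith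

theorem cond3
    (bound_ball : ∀ (Φ : E → ℂ)
      (fund : ∀ φ : E → ℂ, ContDiff ℝ ∞ φ → HasCompactSupport φ → ∫ x, Φ x * lap φ x = φ 0),
      ∃ C : ℝ, 0 ≤ C ∧ ∀ (L : Set E) (f : (E → ℂ) → ℂ) (u : E → ℂ), L ⊆ Metric.ball 0 1 → IsDist L f →
        IsConv Φ f u → MemLp u 2 volume → eLpNorm u 2 volume ≤ 1 → ‖f 1‖ ≤ C)
    {Φ : E → ℂ} (h : IsFund Φ) (a : ℕ → ℝ × ℝ) (ρ : ℕ → ℝ) (ha : DenseRange a) (hρ : ∀ k, 0 < ρ k)
    (hρ0 : Tendsto ρ atTop (𝓝 0)) : Cond3 Φ (KK a ρ) := by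
  obtain ⟨k, hk, hlow⟩ := cap_lower h
  obtain ⟨C, hC, hup⟩ := cap_upper bound_ball h
  intro x hx
  have hev := E1.KK_frontier a ρ ha hρ hρ0 x hx
  set κ : ℝ := k * (1 / 8) ^ (1 / 2 : ℝ) / C with hκ
  have hκ0 : 0 < κ := by positivity
  have hκ1 : 0 < ENNReal.ofReal κ := ENNReal.ofReal_pos.2 hκ0
  refine lt_of_lt_of_le hκ1 ?_
  refine le_liminf_of_le (by isBoundedDefault) ?_
  filter_upwards [hev, self_mem_nhdsWithin] with δ hδ hδ0
  obtain ⟨b, hb⟩ := hδ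
  have hδ0 : 0 < δ := hδ0
  have h1 := hlow b (δ / 8) (by positivity) _ hb
  have h2 := hup x δ hδ0 (Metric.ball x δ \ interior (KK a ρ)) sdiff_subset
  calc ENNReal.ofReal κ = ENNReal.ofReal (k * (δ / 8) ^ (1 / 2 : ℝ)) / ENNReal.ofReal (C * δ ^ (1 / 2 : ℝ)) := by
        rw [← ENNReal.ofReal_div_of_pos (by positivity)]
        congr 1
        rw [show δ / 8 = (1 / 8) * δ by ring, Real.mul_rpow (by norm_num) hδ0.le, hκ]
        have : 0 < δ ^ (1 / 2 : ℝ) := by positivity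
        field_simp
    _ ≤ _ := ENNReal.div_le_div h1 h2

end Pool.Agent.Helper960.Cap
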